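import Pool.Agent.Lib.MP_b18d48_nt.Defs

/-!
Group ring lemmas for the Mazur-Tate rank zero formula (problem MP_b18d48_nt).
-/

namespace Pool.Agent.Lib.MP_b18d48_nt

namespace AlgAux

instance factThree : Fact (Nat.Prime 3) := ⟨Nat.prime_three⟩

theorem den_ne {x : ℚ} (hx : ¬ 3 ∣ x.den) : ((x.den : ℕ) : ZMod 3) ≠ 0 := by
  rw [Ne, ZMod.natCast_eq_zero_iff]
  exact hx

/-- Reduction modulo three on a subring of the rationals with denominators prime to three. -/
noncomputable def rho (R : Subring ℚ) (hR : ∀ x ∈ R, ¬ 3 ∣ x.den) : R →+* ZMod 3 where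
  toFun x := ((x : ℚ) : ZMod 3)
  map_one' := by simp
  map_zero' := by simp
  map_mul' x y := by
    rw [Subring.coe_mul]
    exact Rat.cast_mul_of_ne_zero (den_ne (hR _ x.2)) (den_ne (hR _ y.2))
  map_add' x y := by
    rw [Subring.coe_add]
    exact Rat.cast_add_of_ne_zero (den_ne (hR _ x.2)) (den_ne (hR _ y.2))

theorem rho_ne (R : Subring ℚ) (hR : ∀ x ∈ R, ¬ 3 ∣ x.den) (x : R)
    (hx : ¬ (3 : ℤ) ∣ (x : ℚ).num) : rho R hR x ≠ 0 := by
  have h1 : rho R hR x = (((x : ℚ).num : ℤ) : ZMod 3) / (((x : ℚ).den : ℕ) : ZMod 3) :=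
    Rat.cast_def (x : ℚ)
  rw [h1]
  refine div_ne_zero ?_ (den_ne (hR _ x.2))
  rw [Ne, ZMod.intCast_zmod_eq_zero_iff_dvd]
  exact_mod_cast hx

/-- The unit three modulo fourteen. -/
def u3 : (ZMod 14)ˣ := ⟨3, 5, by decide, by decide⟩

theorem units_cases (u : (ZMod 14)ˣ) : ∃ k : ℕ, u = u3 ^ k := by
  have h : ∀ u : (ZMod 14)ˣ, ∃ k : Fin 6, u = u3 ^ (k : ℕ) := by decide
  obtain ⟨k, hk⟩ := h u
  exact ⟨k, hk⟩

/-- The generator of the group of order three. -/
def g3 : GM 14 := QuotientGroup.mk u3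

theorem g3_cube : g3 ^ 3 = 1 := by
  have h : u3 ^ 3 = -1 := by decide
  rw [g3, ← QuotientGroup.mk_pow, h, QuotientGroup.eq_one_iff]
  exact Subgroup.mem_zpowers _

theorem gm_cases (a : GM 14) : ∃ k : ℕ, a = g3 ^ k := by
  obtain ⟨u, rfl⟩ := QuotientGroup.mk_surjective a
  obtain ⟨k, rfl⟩ := units_cases u
  exact ⟨k, by rw [g3, QuotientGroup.mk_pow]⟩

theorem image_one (u₂ : ℤ_[2]ˣ) (v₂ : (ZMod 14)ˣ) (hv : IsImage 14 2 1 7 u₂ v₂) : v₂ = 1 := by
  have h : ∀ v : (ZMod 14)ˣ, ((v : ZMod 14).cast : ZMod 7) = 1 → v = 1 := by decide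
  exact h v₂ hv.2

section Generic

variable {G K R : Type} [CommGroup G] [CommRing K] [CommRing R]

theorem cube_zero (h0 : (3 : K) = 0) (g : G) (hg3 : g ^ 3 = 1) :
    (MonoidAlgebra.of K G g - 1) ^ 3 = 0 := by
  have h3 : (3 : MonoidAlgebra K G) = 0 := by
    have h : (3 : MonoidAlgebra K G) = algebraMap K (MonoidAlgebra K G) 3 := (map_ofNat _ 3).symm
    rw [h, h0, map_zero]
  have hg : (MonoidAlgebra.of K G g) ^ 3 = 1 := by
    rw [← map_pow, hg3, map_one]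
  set t := MonoidAlgebra.of K G g
  have h : (t - 1) ^ 3 = (t ^ 3 - 1) + 3 * (t - t ^ 2) := by ring
  rw [h, hg, h3]
  simp

theorem map_mem (g : G) (hgen : ∀ a : G, ∃ k : ℕ, a = g ^ k) (ρ : R →+* K)
    (x : MonoidAlgebra R G) (hx : x ∈ augIdeal R G) :
    MonoidAlgebra.mapRingHom G ρ x ∈ Ideal.span {MonoidAlgebra.of K G g - 1} := by
  set J : Ideal (MonoidAlgebra K G) := Ideal.span {MonoidAlgebra.of K G g - 1} with hJ
  have hg : Ideal.Quotient.mk J (MonoidAlgebra.of K G g) = 1 := by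
    rw [← map_one (Ideal.Quotient.mk J), Ideal.Quotient.eq]
    exact Ideal.subset_span rfl
  have key : (Ideal.Quotient.mk J).comp (MonoidAlgebra.mapRingHom G ρ) =
      (((Ideal.Quotient.mk J).comp (algebraMap K (MonoidAlgebra K G))).comp ρ).comp
        (MonoidAlgebra.lift R R G (1 : G →* R)).toRingHom := by
    apply MonoidAlgebra.ringHom_ext
    · intro r
      simp only [RingHom.comp_apply, MonoidAlgebra.mapRingHom_single, AlgHom.toRingHom_eq_coe,
        RingHom.coe_coe, MonoidAlgebra.lift_single, MonoidHom.one_apply, smul_eq_mul, mul_one]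
      rfl
    · intro a
      obtain ⟨k, rfl⟩ := hgen a
      have h1 : Ideal.Quotient.mk J (MonoidAlgebra.single (g ^ k) (1 : K)) = 1 := by
        have h2 : MonoidAlgebra.single (g ^ k) (1 : K) = (MonoidAlgebra.of K G g) ^ k := by
          rw [← map_pow]; rfl
        rw [h2, map_pow, hg, one_pow]
      simp [MonoidAlgebra.mapRingHom_single, h1]
  have h0 : MonoidAlgebra.lift R R G (1 : G →* R) x = 0 := hx
  have h1 := congrArg (fun f => f x) key
  simp only [RingHom.comp_apply, AlgHom.toRingHom_eq_coe, RingHom.coe_coe, h0, map_zero] at h1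
  exact Ideal.Quotient.eq_zero_iff_mem.mp h1

theorem map_cube (h0 : (3 : K) = 0) (g : G) (hg3 : g ^ 3 = 1)
    (hgen : ∀ a : G, ∃ k : ℕ, a = g ^ k) (ρ : R →+* K) (x : MonoidAlgebra R G)
    (hx : x ∈ augIdeal R G ^ 3) : MonoidAlgebra.mapRingHom G ρ x = 0 := by
  have h1 : augIdeal R G ≤ Ideal.comap (MonoidAlgebra.mapRingHom G ρ)
      (Ideal.span {MonoidAlgebra.of K G g - 1}) := fun y hy => map_mem g hgen ρ y hy
  have h2 := Ideal.le_comap_pow (MonoidAlgebra.mapRingHom G ρ)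
    (K := Ideal.span {MonoidAlgebra.of K G g - 1}) 3
  have h3 := h2 (Ideal.pow_right_mono h1 3 hx)
  rw [Ideal.span_singleton_pow, cube_zero h0 g hg3, Ideal.mem_comap] at h3
  simpa using h3

theorem not_mem_generic (h0 : (3 : K) = 0) (g : G) (hg3 : g ^ 3 = 1)
    (hgen : ∀ a : G, ∃ k : ℕ, a = g ^ k) (ρ : R →+* K) (θ : MonoidAlgebra R G) (a : G)
    (ha : ρ (θ.coeff a) ≠ 0) (b : G) (hb : b = 1) (y : MonoidAlgebra R G) :
    θ - (MonoidAlgebra.of R G b - 1) * y ∉ augIdeal R G ^ 3 := by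
  intro h
  rw [hb, map_one, sub_self, zero_mul, sub_zero] at h
  have h1 := congrArg (fun z => z.coeff a) (map_cube h0 g hg3 hgen ρ θ h)
  simp only [MonoidAlgebra.coeff_mapRingHom, MonoidAlgebra.coeff_zero, Finsupp.coe_zero,
    Pi.zero_apply] at h1
  exact ha h1

end Generic

end AlgAux

theorem not_mem_cube (R : Subring ℚ) (hR : ∀ x ∈ R, ¬ 3 ∣ x.den) (θ : MonoidAlgebra R (GM 14))
    (a : GM 14) (ha : ¬ (3 : ℤ) ∣ ((θ.coeff a : R) : ℚ).num)
    (u₂ : ℤ_[2]ˣ) (v₂ : (ZMod 14)ˣ) (hv : IsImage 14 2 1 7 u₂ v₂) (y : MonoidAlgebra R (GM 14)) :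
    θ - (MonoidAlgebra.of R (GM 14) (QuotientGroup.mk v₂) - 1) * y ∉ augIdeal R (GM 14) ^ 3 := by
  have hb : (QuotientGroup.mk v₂ : GM 14) = 1 := by
    rw [AlgAux.image_one u₂ v₂ hv, QuotientGroup.mk_one]
  exact AlgAux.not_mem_generic (K := ZMod 3) (by decide) AlgAux.g3 AlgAux.g3_cube AlgAux.gm_cases
    (AlgAux.rho R hR) θ a (AlgAux.rho_ne R hR _ ha) _ hb y

theorem closure_den (S : Set ℚ) (hS : ∀ x ∈ S, ¬ 3 ∣ x.den) :
    ∀ x ∈ Subring.closure S, ¬ 3 ∣ x.den := by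
  intro x hx
  induction hx using Subring.closure_induction with
  | mem x hx => exact hS x hx
  | zero => simp
  | one => simp
  | add x y _ _ hx hy =>
    intro h
    rcases (Nat.Prime.dvd_mul Nat.prime_three).mp (h.trans (Rat.add_den_dvd x y)) with h | h
    · exact hx h
    · exact hy h
  | neg x _ hx => simpa using hx
  | mul x y _ _ hx hy =>
    intro h
    rcases (Nat.Prime.dvd_mul Nat.prime_three).mp (h.trans (Rat.mul_den_dvd x y)) with h | h
    · exact hx h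
    · exact hy h

end Pool.Agent.Lib.MP_b18d48_nt
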