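import Pool.Agent.Lib.MP_b18d48_nt.Group

/-!
A numerical upper bound for the imaginary period `beta`.
-/

namespace Pool.Agent.Lib.MP_b18d48_nt

open Complex hiding eta
open Metric
open scoped Real

lemma bb_exp_le {x y : ℝ} (hxy : x ≤ y) (h0 : 0 ≤ y) (h1 : y ≤ 1) :
    Real.exp x ≤ 1 + y + y ^ 2 / 2 + y ^ 3 / 6 + 5 * y ^ 4 / 96 := by
  refine (Real.exp_le_exp.2 hxy).trans ((Real.exp_bound' h0 h1 (n := 4) (by norm_num)).trans
    (le_of_eq ?_))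
  simp only [Finset.sum_range_succ, Finset.sum_range_zero, Nat.factorial]
  push_cast
  ring

lemma bb_step {r C : ℝ} (hr : r < 1) (hC : ∀ q : ℂ, ‖q‖ ≤ r → ‖phi q‖ ≤ C) {a b : ℂ}
    (ha : ‖a‖ ≤ r) (hb : ‖b‖ ≤ r) : ‖Psi b - Psi a‖ ≤ C * ‖b - a‖ :=
  (convex_closedBall (0 : ℂ) r).norm_image_sub_le_of_norm_hasDerivWithin_le
    (fun _ hq => (hasDerivAt_Psi ((mem_closedBall_zero_iff.1 hq).trans_lt hr)).hasDerivWithinAt)
    (fun q hq => hC q (mem_closedBall_zero_iff.1 hq)) (mem_closedBall_zero_iff.2 ha)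
    (mem_closedBall_zero_iff.2 hb)

lemma bb_phi1 (q : ℂ) (hq : ‖q‖ ≤ 0.201) : ‖phi q‖ ≤ 1.35 :=
  (norm_phi_le hq (by norm_num)).trans
    ((bb_exp_le (y := 0.294) (by norm_num) (by norm_num) (by norm_num)).trans (by norm_num))

lemma bb_phi2 (q : ℂ) (hq : ‖q‖ ≤ 0.401) : ‖phi q‖ ≤ 2.38 :=
  (norm_phi_le hq (by norm_num)).trans
    ((bb_exp_le (y := 0.863) (by norm_num) (by norm_num) (by norm_num)).trans (by norm_num))

lemma bb_phi3 (q : ℂ) (hq : ‖q‖ ≤ 0.534) : ‖phi q‖ ≤ 4.76 := by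
  refine (norm_phi_le hq (by norm_num)).trans
    ((Real.exp_le_exp.2 (show _ ≤ (0.779 : ℝ) + 0.779 by norm_num)).trans ?_)
  have h := bb_exp_le (x := 0.779) (y := 0.779) le_rfl (by norm_num) (by norm_num)
  have h' : Real.exp 0.779 ≤ 2.181 := h.trans (by norm_num)
  rw [Real.exp_add]
  exact (mul_le_mul h' h' (Real.exp_pos _).le (by norm_num)).trans (by norm_num)

lemma bb_Psi {q : ℂ} (hq : ‖q‖ ≤ 0.534) : ‖Psi q‖ ≤ 1.4 := by
  have n1 : ‖(3 / 8 : ℂ) * q‖ = 3 / 8 * ‖q‖ := by simp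
  have n2 : ‖(3 / 4 : ℂ) * q‖ = 3 / 4 * ‖q‖ := by simp
  have n3 : ‖(1 / 4 : ℂ) * q‖ = 1 / 4 * ‖q‖ := by simp
  have h1 := bb_step (by norm_num) bb_phi1 (a := 0) (b := 3 / 8 * q) (by norm_num)
    (by rw [n1]; linarith)
  have h2 := bb_step (by norm_num) bb_phi2 (a := 3 / 8 * q) (b := 3 / 4 * q)
    (by rw [n1]; linarith) (by rw [n2]; linarith)
  have h3 := bb_step (by norm_num) bb_phi3 (a := 3 / 4 * q) (b := q) (by rw [n2]; linarith) hq
  rw [Psi_zero, sub_zero, sub_zero, n1] at h1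
  rw [show (3 / 4 : ℂ) * q - 3 / 8 * q = 3 / 8 * q by ring, n1] at h2
  rw [show q - (3 / 4 : ℂ) * q = 1 / 4 * q by ring, n3] at h3
  have h4 := norm_le_norm_sub_add (Psi q) (Psi (3 / 4 * q))
  have h5 := norm_le_norm_sub_add (Psi (3 / 4 * q)) (Psi (3 / 8 * q))
  linarith

lemma bb_qq {z : ℂ} (hz : 1 / 10 ≤ z.im) : ‖qq z‖ ≤ 0.534 := by
  have h1 := Real.sum_le_exp_of_nonneg (show (0 : ℝ) ≤ 0.6283 by norm_num) 5
  simp only [Finset.sum_range_succ, Finset.sum_range_zero, Nat.factorial] at h1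
  have h2 : -2 * π * z.im ≤ -0.6283 := by nlinarith [Real.pi_gt_d4]
  rw [norm_qq]
  refine (Real.exp_le_exp.2 h2).trans ?_
  rw [Real.exp_neg, inv_le_comm₀ (Real.exp_pos _) (by norm_num)]
  exact le_trans (by norm_num) h1

theorem abs_beta_lt : |beta| < 2.85 := by
  have h := good_W2i.hF (-2 / 7 + I / 10) (by norm_num)
  have e : mob 4 1 14 4 (-2 / 7 + I / 10) = 2 / 7 + 5 / 49 * I := by
    rw [mob, div_eq_iff]
    · push_cast
      linear_combination (-1 / 7 : ℂ) * I_sq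
    · push_cast
      rw [show (14 : ℂ) * (-2 / 7 + I / 10) + 4 = 7 / 5 * I by ring]
      exact mul_ne_zero (by norm_num) I_ne_zero
  rw [e] at h
  have h1 := (abs_im_le_norm _).trans (bb_Psi (bb_qq (z := -2 / 7 + I / 10) (by norm_num)))
  have h2 := (abs_im_le_norm _).trans (bb_Psi (bb_qq (z := 2 / 7 + 5 / 49 * I) (by norm_num)))
  rw [FF, FF] at h
  rw [abs_le] at h1 h2
  push_cast at h
  rw [abs_lt]
  constructor <;> linarith [h1.1, h1.2, h2.1, h2.2]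

end Pool.Agent.Lib.MP_b18d48_nt
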