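import Pool.Agent.Lib.MP_b18d48_nt.Integral

/-!
A solution of `j' ^ 2 = negQ j * φ' ^ 2` oscillates between `-8` and `-1`, and `φ` moves by a
multiple of the half period between two turning points.
-/

namespace Pool.Agent.Lib.MP_b18d48_nt

open Set MeasureTheory

namespace Winding

/-- the primitive of `1 / sqrt (negQ t)` -/
noncomputable def Pr (y : ℝ) : ℝ := ∫ t in (-8 : ℝ)..y, 1 / Real.sqrt (negQ t)

lemma quad_pos (t : ℝ) : 0 < t ^ 2 + 5 * t + 8 := by nlinarith [sq_nonneg (2 * t + 5)]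

lemma mem_Icc_of_nonneg {t : ℝ} (h : 0 ≤ negQ t) : t ∈ Icc (-8 : ℝ) (-1) := by
  have h1 : 0 ≤ (t + 8) * (-1 - t) := nonneg_of_mul_nonneg_left h (quad_pos t)
  constructor <;> nlinarith

lemma mem_Ioo_of_pos {t : ℝ} (h : 0 < negQ t) : t ∈ Ioo (-8 : ℝ) (-1) := by
  have h1 : 0 < (t + 8) * (-1 - t) := (mul_pos_iff_of_pos_right (quad_pos t)).1 h
  constructor <;> nlinarith

lemma Pr_zero {t : ℝ} (h : negQ t = 0) : ∃ k : ℤ, Pr t = k * I7 := by
  rcases mul_eq_zero.1 ((mul_eq_zero.1 h).resolve_right (quad_pos t).ne') with h1 | h1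
  · obtain rfl : t = -8 := by linarith
    exact ⟨0, by simp [Pr]⟩
  · obtain rfl : t = -1 := by linarith
    exact ⟨1, by simp [Pr, I7]⟩

lemma Pr_cont : ContinuousOn Pr (Icc (-8) (-1)) := by
  have := intervalIntegral.continuousOn_primitive_interval' negQ_intervalIntegrable left_mem_uIcc
  rwa [uIcc_of_le (by norm_num)] at this

lemma negQ_cont : Continuous negQ := by
  unfold negQ
  fun_prop

lemma Pr_deriv {y : ℝ} (hy : y ∈ Ioo (-8 : ℝ) (-1)) :
    HasDerivAt Pr (1 / Real.sqrt (negQ y)) y := by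
  have hc : ContinuousOn (fun t => 1 / Real.sqrt (negQ t)) (Ioo (-8) (-1)) :=
    continuousOn_const.div (negQ_cont.sqrt.continuousOn)
      (fun t ht => (Real.sqrt_pos.2 (negQ_pos ht.1 ht.2)).ne')
  exact intervalIntegral.integral_hasDerivAt_right (negQ_sub le_rfl hy.1.le hy.2.le)
    (hc.stronglyMeasurableAtFilter isOpen_Ioo y hy) (hc.continuousAt (isOpen_Ioo.mem_nhds hy))

lemma seg {j φ j' φ' : ℝ → ℝ} {c d : ℝ} (hcd : c < d)
    (hj : ∀ x ∈ Icc c d, HasDerivAt j (j' x) x) (hφ : ∀ x ∈ Icc c d, HasDerivAt φ (φ' x) x)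
    (hj'c : ContinuousOn j' (Icc c d)) (hφ'c : ContinuousOn φ' (Icc c d))
    (hφ0 : ∀ x ∈ Icc c d, φ' x ≠ 0)
    (hode : ∀ x ∈ Icc c d, j' x ^ 2 = negQ (j x) * φ' x ^ 2)
    (hne : ∀ x ∈ Ioo c d, j' x ≠ 0) (hc : j' c = 0) (hd : j' d = 0) :
    ∃ k : ℤ, φ d - φ c = k * I7 := by
  have hs : ∀ x ∈ Icc c d, negQ (j x) = (j' x / φ' x) ^ 2 := fun x hx => by
    rw [div_pow, hode x hx, mul_div_cancel_right₀ _ (pow_ne_zero 2 (hφ0 x hx))]
  have hs0 : ∀ x ∈ Ioo c d, j' x / φ' x ≠ 0 := fun x hx =>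
    div_ne_zero (hne x hx) (hφ0 x (Ioo_subset_Icc_self hx))
  have hsc : ContinuousOn (fun x => j' x / φ' x) (Ioo c d) :=
    (hj'c.div hφ'c hφ0).mono Ioo_subset_Icc_self
  obtain ⟨ε, hε⟩ : ∃ ε : ℤ, ∀ x ∈ Ioo c d, (ε : ℝ) * (j' x / φ' x) = |j' x / φ' x| := by
    by_cases h : ∀ x ∈ Ioo c d, 0 ≤ j' x / φ' x
    · exact ⟨1, fun x hx => by rw [abs_of_nonneg (h x hx), Int.cast_one, one_mul]⟩
    · push Not at h
      obtain ⟨y, hy, hy0⟩ := h
      refine ⟨-1, fun x hx => ?_⟩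
      have hx0 : j' x / φ' x ≤ 0 := by
        by_contra hx0
        obtain ⟨w, hw, hw0⟩ := isPreconnected_Ioo.intermediate_value hy hx hsc
          ⟨hy0.le, (not_le.1 hx0).le⟩
        exact hs0 w hw hw0
      rw [abs_of_nonpos hx0]
      simp
  have hG : ContinuousOn (fun x => φ x - ε * Pr (j x)) (Icc c d) :=
    (ContinuousOn.sub (fun x hx => (hφ x hx).continuousAt.continuousWithinAt)
      (continuousOn_const.mul (Pr_cont.comp
        (fun x hx => (hj x hx).continuousAt.continuousWithinAt)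
        (fun x hx => mem_Icc_of_nonneg (by rw [hs x hx]; positivity)))))
  obtain ⟨x, -, hx⟩ := exists_hasDerivAt_eq_slope (fun x => φ x - ε * Pr (j x)) (fun _ => 0) hcd hG
    (fun x hx => by
      have hx' := Ioo_subset_Icc_self hx
      have h0 := hs0 x hx
      have hp : 0 < negQ (j x) := by rw [hs x hx']; positivity
      refine ((hφ x hx').sub (((Pr_deriv (mem_Ioo_of_pos hp)).comp x (hj x hx')).const_mul
        (ε : ℝ))).congr_deriv ?_
      have h1 := hε x hx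
      have h2 := hφ0 x hx'
      have h3 : |j' x / φ' x| ≠ 0 := abs_ne_zero.2 h0
      rw [hs x hx', Real.sqrt_sq_eq_abs, sub_eq_zero, one_div, mul_left_comm,
        eq_inv_mul_iff_mul_eq₀ h3, ← h1]
      field_simp)
  obtain ⟨k1, e1⟩ := Pr_zero (t := j c) (by rw [hs c (left_mem_Icc.2 hcd.le), hc]; simp)
  obtain ⟨k2, e2⟩ := Pr_zero (t := j d) (by rw [hs d (right_mem_Icc.2 hcd.le), hd]; simp)
  rw [eq_comm, div_eq_zero_iff, or_iff_left (sub_pos.2 hcd).ne', e1, e2] at hx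
  exact ⟨ε * (k2 - k1), by push_cast; linarith⟩

end Winding

theorem winding {j φ j' φ' : ℝ → ℝ} {a b : ℝ} (hab : a < b)
    (hj : ∀ x ∈ Set.Icc a b, HasDerivAt j (j' x) x) (hφ : ∀ x ∈ Set.Icc a b, HasDerivAt φ (φ' x) x)
    (hj'c : ContinuousOn j' (Set.Icc a b)) (hφ'c : ContinuousOn φ' (Set.Icc a b))
    (hφ0 : ∀ x ∈ Set.Icc a b, φ' x ≠ 0)
    (hode : ∀ x ∈ Set.Icc a b, j' x ^ 2 = negQ (j x) * φ' x ^ 2)
    (hfin : {x | x ∈ Set.Icc a b ∧ j' x = 0}.Finite) (ha : j' a = 0) (hb : j' b = 0) :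
    ∃ k : ℤ, k ≠ 0 ∧ φ b - φ a = k * I7 := by
  have key : ∀ n : ℕ, ∀ c d, a ≤ c → c < d → d ≤ b → j' c = 0 → j' d = 0 →
      {x | x ∈ Ioo c d ∧ j' x = 0}.ncard = n → ∃ k : ℤ, φ d - φ c = k * I7 := by
    intro n
    induction n using Nat.strong_induction_on with
    | _ n ih =>
      intro c d hc hcd hd h1 h2 hn
      have hsub : Icc c d ⊆ Icc a b := Icc_subset_Icc hc hd
      by_cases h : ∀ x ∈ Ioo c d, j' x ≠ 0
      · exact Winding.seg hcd (fun x hx => hj x (hsub hx)) (fun x hx => hφ x (hsub hx))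
          (hj'c.mono hsub) (hφ'c.mono hsub) (fun x hx => hφ0 x (hsub hx))
          (fun x hx => hode x (hsub hx)) h h1 h2
      · push Not at h
        obtain ⟨e, he, he0⟩ := h
        have hf : {x | x ∈ Ioo c d ∧ j' x = 0}.Finite :=
          hfin.subset (fun x hx => ⟨hsub (Ioo_subset_Icc_self hx.1), hx.2⟩)
        obtain ⟨k1, e1⟩ := ih _ (hn ▸ ncard_lt_ncard
          ⟨fun x hx => ⟨⟨hx.1.1, hx.1.2.trans he.2⟩, hx.2⟩,
            fun hx => lt_irrefl e (hx ⟨he, he0⟩).1.2⟩ hf)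
          c e hc he.1 (he.2.le.trans hd) h1 he0 rfl
        obtain ⟨k2, e2⟩ := ih _ (hn ▸ ncard_lt_ncard
          ⟨fun x hx => ⟨⟨he.1.trans hx.1.1, hx.1.2⟩, hx.2⟩,
            fun hx => lt_irrefl e (hx ⟨he, he0⟩).1.1⟩ hf)
          e d (hc.trans he.1.le) he.2 hd he0 h2 rfl
        exact ⟨k1 + k2, by push_cast; linarith⟩
  obtain ⟨k, hk⟩ := key _ a b le_rfl hab le_rfl ha hb rfl
  refine ⟨k, fun h0 => ?_, hk⟩
  obtain ⟨x, hx, e⟩ := exists_hasDerivAt_eq_slope φ φ' hab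
    (fun x hx => (hφ x hx).continuousAt.continuousWithinAt)
    (fun x hx => hφ x (Ioo_subset_Icc_self hx))
  rw [hk, h0] at e
  exact hφ0 x (Ioo_subset_Icc_self hx) (by simpa using e)

end Pool.Agent.Lib.MP_b18d48_nt
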