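import Pool.Agent.Lib.MP_b18d48_nt.Ode
import Pool.Agent.Lib.MP_b18d48_nt.Winding
import Pool.Agent.Lib.MP_b18d48_nt.BetaBound

/-!
Along the axis of the hyperbolic element `(4, -3; 14, -10)` the function `t` is real and `F` has
constant real part; hence `beta` is an integer multiple of `I7`.
-/

namespace Pool.Agent.Lib.MP_b18d48_nt

open Complex hiding eta
open ModularForm Filter Topology Asymptotics Metric Set
open scoped Real ComplexConjugate

noncomputable def zc (θ : ℝ) : ℂ := 1 / 2 + √7 / 14 * cexp (θ * I)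

noncomputable def zc' (θ : ℝ) : ℂ := √7 / 14 * (cexp (θ * I) * I)

lemma s7_sq : ((√7 : ℝ) : ℂ) ^ 2 = 7 := by
  rw [← ofReal_pow, Real.sq_sqrt (by norm_num)]; norm_num

lemma s7_ne : ((√7 : ℝ) : ℂ) ≠ 0 := by intro h; have := s7_sq; rw [h] at this; norm_num at this

lemma hasDerivAt_zc (θ : ℝ) : HasDerivAt zc (zc' θ) θ := by
  have := ((((hasDerivAt_id (θ : ℂ)).mul_const I).cexp.const_mul (√7 / 14 : ℂ)).const_add
    (1 / 2)).comp_ofReal
  simp only [id, one_mul] at this
  exact this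

lemma zc'_ne (θ : ℝ) : zc' θ ≠ 0 :=
  mul_ne_zero (div_ne_zero s7_ne (by norm_num)) (mul_ne_zero (Complex.exp_ne_zero _) I_ne_zero)

lemma zc'_cont : Continuous zc' := by unfold zc'; fun_prop

lemma zc_cont : Continuous zc := by unfold zc; fun_prop

lemma zc_eq (θ : ℝ) :
    zc θ = ((1 / 2 + √7 / 14 * Real.cos θ : ℝ) : ℂ) + ((√7 / 14 * Real.sin θ : ℝ) : ℂ) * I := by
  rw [zc, exp_mul_I]; push_cast; ring

lemma zc_re (θ : ℝ) : (zc θ).re = 1 / 2 + √7 / 14 * Real.cos θ := by
  rw [zc_eq]; simp only [add_re, ofReal_re, mul_re, I_re, ofReal_im, I_im]; ring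

lemma zc_im (θ : ℝ) : (zc θ).im = √7 / 14 * Real.sin θ := by
  rw [zc_eq]; simp only [add_im, ofReal_re, mul_im, I_re, ofReal_im, I_im]; ring

lemma zc_im_pos {θ : ℝ} (h : θ ∈ Ioo 0 π) : 0 < (zc θ).im := by
  rw [zc_im]
  have := Real.sin_pos_of_mem_Ioo h
  positivity

lemma zc_refl (θ : ℝ) : mob 7 (-4) 14 (-7) (zc θ) = -conj (zc θ) + (1 : ℤ) := by
  have h1 : conj (cexp (θ * I)) = (cexp (θ * I))⁻¹ := by
    rw [← Complex.exp_conj, ← Complex.exp_neg]; simp
  have h0 : cexp (θ * I) ≠ 0 := Complex.exp_ne_zero _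
  have h7 := s7_ne
  have h2 : conj (zc θ) = 1 / 2 + √7 / 14 * (cexp (θ * I))⁻¹ := by
    simp [zc, h1, map_ofNat]
  have h3 : ((14 : ℤ) : ℂ) * zc θ + (-7 : ℤ) = √7 * cexp (θ * I) := by
    rw [zc]; push_cast; ring
  rw [mob, h3, h2, zc]
  generalize cexp (θ * I) = w at h0
  push_cast
  field_simp
  linear_combination 2 * s7_sq

lemma tt_zc {θ : ℝ} (h : θ ∈ Ioo 0 π) : (tt (zc θ)).im = 0 := by
  have h1 := G0_W7a.ht _ (zc_im_pos h)
  rw [zc_refl, tt_add_int, tt_neg_conj (zc_im_pos h)] at h1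
  exact conj_eq_iff_im.mp (by simpa using h1)

lemma FF_zc {θ : ℝ} (h : θ ∈ Ioo 0 π) : (FF (zc θ)).re = (FF z1).re := by
  have h1 := FF_invol G0_W7a z1_im z1_fix (zc_im_pos h)
  rw [zc_refl, FF_add_int, FF_neg_conj (zc_im_pos h)] at h1
  have := congrArg Complex.re h1
  simp at this
  linarith

lemma hasDerivAt_re {T : ℝ → ℂ} {T' : ℂ} {x : ℝ} (h : HasDerivAt T T' x) :
    HasDerivAt (fun y => (T y).re) T'.re x :=
  reCLM.hasFDerivAt.comp_hasDerivAt x h

lemma hasDerivAt_im {T : ℝ → ℂ} {T' : ℂ} {x : ℝ} (h : HasDerivAt T T' x) :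
    HasDerivAt (fun y => (T y).im) T'.im x :=
  imCLM.hasFDerivAt.comp_hasDerivAt x h

lemma deriv_zero_of_const {u : ℝ → ℝ} {u' x c : ℝ} (h : HasDerivAt u u' x) (hx : x ∈ Ioo 0 π)
    (hc : ∀ y ∈ Ioo 0 π, u y = c) : u' = 0 :=
  h.unique ((hasDerivAt_const x c).congr_of_eventuallyEq
    (by filter_upwards [isOpen_Ioo.mem_nhds hx] with y hy using hc y hy))

lemma deriv_tt_z1 : deriv tt z1 = 0 := by
  have h := G0_W7a.deriv_tt z1_im
  have h2 : ((14 : ℤ) * z1 + (-7 : ℤ) : ℂ) ^ 2 = -7 := by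
    simpa [z1] using (W7_fix (a := 1) (b := -4) (c := 1) (by norm_num) (by norm_num)).2.1
  rw [z1_fix, h2] at h
  simp only [Bool.false_eq_true, if_false] at h
  push_cast at h
  linear_combination (-1 / 2 : ℂ) * h

lemma good_V : Good 4 (-3) 14 (-10) 1 1 := by simpa using good_W2i.mul (good_T (-1))

lemma finite_zeros {K : Set ℂ} (hK : IsCompact K) (hs : K ⊆ {z : ℂ | 0 < z.im}) :
    (K \ {z | deriv tt z ≠ 0}).Finite := by
  have ha : AnalyticOnNhd ℂ (deriv tt) {z : ℂ | 0 < z.im} := fun z hz => (tt_analytic hz).deriv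
  rcases ha.eqOn_zero_or_eventually_ne_zero_of_preconnected isPreconnected_H with h | h
  · exfalso
    have hI : 0 < I.im := by simp
    have h1 : tt (mob 0 (-1) 14 0 I) = tt I := isOpen_H.is_const_of_deriv_eq_zero isPreconnected_H
      (fun x hx => (tt_diffAt hx).differentiableWithinAt) h (mob_im_pos (by norm_num) hI) hI
    have h2 := G0_W14.ht I hI
    rw [h1] at h2
    simp only [if_true] at h2
    have h3 : tt I ^ 2 = 8 := by rw [sq]; exact (eq_div_iff (tt_ne hI)).mp h2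
    have h4 := ode hI
    rw [h hI] at h4
    have h5 := pow_ne_zero 2 (mul_ne_zero two_pi_I_ne (ff_ne hI))
    have h6 : (tt I + 8) * (tt I + 1) * (tt I ^ 2 + 5 * tt I + 8) = 0 := by
      apply mul_left_cancel₀ h5; rw [← h4]; simp
    have h7 : 224 * tt I + 616 = 0 := by
      linear_combination h6 - (tt I ^ 2 + 14 * tt I + 69) * h3
    have h8 : tt I = -11 / 4 := by linear_combination h7 / 224
    rw [h8] at h3
    norm_num at h3
  · exact hK.finite_sdiff_of_mem_codiscreteWithin (codiscreteWithin_mono hs h)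

theorem beta_eq : ∃ k : ℤ, ¬ 3 ∣ k ∧ beta = k * I7 := by
  set b : ℝ := π - Real.arcsin (1 / 8) with hb
  have hα0 : 0 < Real.arcsin (1 / 8) := Real.arcsin_pos.mpr (by norm_num)
  have hα1 : Real.arcsin (1 / 8) < π / 2 := Real.arcsin_lt_pi_div_two.mpr (by norm_num)
  have hsub : Icc (π / 2) b ⊆ Ioo 0 π := fun x hx =>
    ⟨by linarith [hx.1, Real.pi_pos], by linarith [hx.2]⟩
  have ea : zc (π / 2) = z1 := by
    rw [zc_eq, z1]; simp; ring
  have eb : zc b = mob 4 (-3) 14 (-10) z1 := by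
    have hs : Real.sin b = 1 / 8 := by
      rw [hb, Real.sin_pi_sub, Real.sin_arcsin (by norm_num) (by norm_num)]
    have hc : Real.cos b = -(3 * √7 / 8) := by
      rw [hb, Real.cos_pi_sub, Real.cos_arcsin]
      congr 1
      rw [Real.sqrt_eq_iff_mul_self_eq (by norm_num) (by positivity)]
      linear_combination (-9 / 64) * Real.mul_self_sqrt (show (0 : ℝ) ≤ 7 by norm_num)
    have hd := den_ne good_V.g0.choose_spec.det z1_im
    rw [zc_eq, hs, hc, mob, eq_div_iff hd, z1]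
    push_cast
    linear_combination (9 / 112 - 3 / 112 * √7 * I + I ^ 2 / 112 : ℂ) * s7_sq + (1 / 16) * I_sq
  have hT : ∀ x ∈ Ioo 0 π, HasDerivAt (fun y => tt (zc y)) (deriv tt (zc x) * zc' x) x :=
    fun x hx => (tt_diffAt (zc_im_pos hx)).hasDerivAt.scomp x (hasDerivAt_zc x) |>.congr_deriv
      (by simp [mul_comm])
  have hF : ∀ x ∈ Ioo 0 π, HasDerivAt (fun y => FF (zc y)) (2 * π * I * ff (zc x) * zc' x) x :=
    fun x hx => (hasDerivAt_FF (zc_im_pos hx)).scomp x (hasDerivAt_zc x) |>.congr_deriv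
      (by simp [mul_comm])
  have hT0 : ∀ x ∈ Ioo 0 π, (deriv tt (zc x) * zc' x).im = 0 := fun x hx =>
    deriv_zero_of_const (hasDerivAt_im (hT x hx)) hx fun y hy => tt_zc hy
  have hF0 : ∀ x ∈ Ioo 0 π, (2 * π * I * ff (zc x) * zc' x).re = 0 := fun x hx =>
    deriv_zero_of_const (hasDerivAt_re (hF x hx)) hx fun y hy => FF_zc hy
  obtain ⟨k, hk0, hk⟩ := winding (a := π / 2) (b := b) (j := fun y => (tt (zc y)).re)
    (φ := fun y => (FF (zc y)).im) (j' := fun x => (deriv tt (zc x) * zc' x).re)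
    (φ' := fun x => (2 * π * I * ff (zc x) * zc' x).im) (by linarith)
    (fun x hx => hasDerivAt_re (hT x (hsub hx))) (fun x hx => hasDerivAt_im (hF x (hsub hx)))
    (fun x hx => ContinuousAt.continuousWithinAt (continuous_re.continuousAt.comp
      (((tt_analytic (zc_im_pos (hsub hx))).deriv.continuousAt.comp zc_cont.continuousAt).mul
        zc'_cont.continuousAt)))
    (fun x hx => ContinuousAt.continuousWithinAt (continuous_im.continuousAt.comp
      ((continuousAt_const.mul ((ff_diffAt (zc_im_pos (hsub hx))).continuousAt.comp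
        zc_cont.continuousAt)).mul zc'_cont.continuousAt)))
    (fun x hx h0 => mul_ne_zero (mul_ne_zero two_pi_I_ne (ff_ne (zc_im_pos (hsub hx)))) (zc'_ne x)
      (Complex.ext (hF0 x (hsub hx)) h0))
    (fun x hx => by
      have h1 := ode (zc_im_pos (hsub hx))
      have e1 : deriv tt (zc x) * zc' x = ((deriv tt (zc x) * zc' x).re : ℂ) :=
        Complex.ext (by simp only [ofReal_re]) (by simp only [ofReal_im, hT0 x (hsub hx)])
      have e2 : 2 * π * I * ff (zc x) * zc' x = ((2 * π * I * ff (zc x) * zc' x).im : ℂ) * I :=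
        Complex.ext (by rw [hF0 x (hsub hx)]; simp only [mul_re, ofReal_re, I_re, ofReal_im, I_im]; ring)
          (by simp only [mul_I_im, ofReal_re])
      have e3 : tt (zc x) = ((tt (zc x)).re : ℂ) :=
        Complex.ext (by simp only [ofReal_re]) (by simp only [ofReal_im, tt_zc (hsub hx)])
      have h2 : (deriv tt (zc x) * zc' x) ^ 2 = (2 * π * I * ff (zc x) * zc' x) ^ 2 *
          ((tt (zc x) + 8) * (tt (zc x) + 1) * (tt (zc x) ^ 2 + 5 * tt (zc x) + 8)) := by
        rw [mul_pow, h1]; ring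
      rw [e1, e2, e3, mul_pow, I_sq] at h2
      apply ofReal_injective
      simp only [negQ]
      push_cast
      linear_combination h2)
    (by
      have h1 := finite_zeros (isCompact_Icc.image zc_cont : IsCompact (zc '' Icc (π / 2) b))
        (by rintro _ ⟨x, hx, rfl⟩; exact zc_im_pos (hsub hx))
      refine Set.Finite.of_finite_image (f := zc) (h1.subset ?_) ?_
      · rintro _ ⟨x, ⟨hx, h0⟩, rfl⟩
        refine ⟨⟨x, hx, rfl⟩, fun hne => ?_⟩
        exact mul_ne_zero hne (zc'_ne x) (Complex.ext h0 (hT0 x (hsub hx)))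
      · intro x hx y hy hxy
        have h2 := congrArg Complex.re hxy
        rw [zc_re, zc_re] at h2
        have h3 : (√7 / 14 : ℝ) ≠ 0 := by positivity
        exact Real.injOn_cos (Ioo_subset_Icc_self (hsub hx.1)) (Ioo_subset_Icc_self (hsub hy.1))
          (mul_left_cancel₀ h3 (by linarith)))
    (by simp [ea, deriv_tt_z1])
    (by
      obtain ⟨σ, hσ⟩ := good_V.g0
      have h1 := hσ.deriv_tt z1_im
      have h2 : deriv tt (mob 4 (-3) 14 (-10) z1) = 0 := by
        have h3 := div_ne_zero (show ((4 * -10 - -3 * 14 : ℤ) : ℂ) ≠ 0 by norm_num)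
          (pow_ne_zero 2 (den_ne hσ.det z1_im))
        apply mul_right_cancel₀ h3
        rw [h1, deriv_tt_z1]; simp
      simp [eb, h2])
  simp only [ea, eb, good_V.hF z1 z1_im] at hk
  have hβ : beta = k * I7 := by push_cast at hk; linarith
  refine ⟨k, fun ⟨m, hm⟩ => ?_, hβ⟩
  have h1 := abs_beta_lt
  have h2 := I7_gt
  rw [hβ, abs_mul, abs_of_pos (show 0 < I7 by linarith)] at h1
  have h3 : (3 : ℝ) ≤ |(k : ℝ)| := by
    have : (3 : ℤ) ≤ |k| := by
      rcases lt_trichotomy m 0 with h | h | h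
      · rw [abs_of_neg (by omega)]; omega
      · omega
      · rw [abs_of_pos (by omega)]; omega
    exact_mod_cast this
  nlinarith

end Pool.Agent.Lib.MP_b18d48_nt
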