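import Pool.Agent.Lib.MP_b18d48_nt.Form

/-!
Integrals of `f` along vertical lines ending at a cusp.
-/

namespace Pool.Agent.Lib.MP_b18d48_nt

open Complex hiding eta
open Filter Topology Asymptotics Metric Set MeasureTheory
open scoped Real ComplexConjugate

lemma ff_bound {δ : ℝ} (hδ : 0 < δ) :
    ∃ K : ℝ, 0 ≤ K ∧ ∀ z : ℂ, δ ≤ z.im → ‖ff z‖ ≤ K * Real.exp (-2 * π * z.im) := by
  have hπ := Real.pi_pos
  set r := Real.exp (-2 * π * δ) with hr
  refine ⟨Real.exp (r / (1 - r) + r ^ 2 / (1 - r ^ 2) + r ^ 7 / (1 - r ^ 7) +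
      r ^ 14 / (1 - r ^ 14)), (Real.exp_pos _).le, fun z hz => ?_⟩
  rw [ff, norm_mul, norm_qq, mul_comm]
  refine mul_le_mul_of_nonneg_right (norm_phi_le ?_ ?_) (Real.exp_pos _).le
  · rw [norm_qq]; exact Real.exp_le_exp.mpr (by nlinarith)
  · rw [Real.exp_lt_one_iff]; nlinarith

lemma sq_mul_exp_le {y : ℝ} (hy : 0 ≤ y) : y ^ 2 * Real.exp (-2 * π * y) ≤ 2 := by
  have h1 := Real.quadratic_le_exp_of_nonneg hy
  have h2 : Real.exp (-2 * π * y) ≤ Real.exp (-y) :=
    Real.exp_le_exp.mpr (by nlinarith [Real.pi_gt_three])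
  calc y ^ 2 * Real.exp (-2 * π * y) ≤ (2 * Real.exp y) * Real.exp (-y) := by
        gcongr; linarith
    _ = 2 := by rw [mul_assoc, ← Real.exp_add]; simp

theorem Good.cusp {a b c d ε m : ℤ} (h : Good a b c d ε m) (hc : c ≠ 0) {x : ℝ}
    (hx : x * c = a) : IntegrableOn (fun t : ℝ => ff (x + t * I)) (Ioi 0) ∧
      (2 * π * ∫ t in Ioi (0 : ℝ), ff (x + t * I)).im = m * beta := by
  obtain ⟨σ, g⟩ := h.g0
  have hc' : (c : ℝ) ≠ 0 := by exact_mod_cast hc
  have hcc : (c : ℂ) ≠ 0 := by exact_mod_cast hc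
  have hD : (0 : ℝ) < (a * d - b * c : ℤ) := by exact_mod_cast g.det
  have hDc : ((a * d - b * c : ℤ) : ℂ) ≠ 0 := by exact_mod_cast g.det.ne'
  have hxc : (x : ℂ) * c = a := by exact_mod_cast hx
  set y : ℝ → ℝ := fun t => (a * d - b * c : ℤ) / (c ^ 2 * t) with hy
  set w : ℝ → ℂ := fun t => ((-d / c : ℝ) : ℂ) + y t * I with hw
  have w_im : ∀ t, (w t).im = y t := fun t => by
    simp only [hw, add_im, ofReal_im, mul_I_im, ofReal_re, zero_add]
  have y_pos : ∀ t, 0 < t → 0 < y t := fun t ht => by simp only [hy]; positivity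
  have w_den : ∀ t, (c * w t + d : ℂ) = c * y t * I := fun t => by
    simp only [hw]; push_cast; field_simp; ring
  have w_mob : ∀ t, 0 < t → mob a b c d (w t) = x + t * I := fun t ht => by
    have ht' : (t : ℂ) ≠ 0 := by exact_mod_cast ht.ne'
    have e : (y t : ℂ) * (c ^ 2 * t) = a * d - b * c := by
      simp only [hy]; push_cast; field_simp
    have hy0 : (y t : ℂ) ≠ 0 := by exact_mod_cast (y_pos t ht).ne'
    rw [mob, w_den, div_eq_iff (mul_ne_zero (mul_ne_zero hcc hy0) I_ne_zero)]
    apply mul_left_cancel₀ hcc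
    simp only [hw]; push_cast; field_simp
    linear_combination e - (c * y t * I) * hxc - (c ^ 2 * y t * t) * I_sq
  have im_z : ∀ t : ℝ, ((x : ℂ) + t * I).im = t := fun t => by simp
  have hcont : ContinuousOn (fun t : ℝ => ff (x + t * I)) (Ioi 0) := fun t ht =>
    ((ff_diffAt (z := x + t * I) (by rw [im_z]; exact ht)).continuousAt.comp
      (f := fun t : ℝ => (x : ℂ) + t * I) (by fun_prop)).continuousWithinAt
  have hint : IntegrableOn (fun t : ℝ => ff (x + t * I)) (Ioi 0) := by
    rw [← Ioc_union_Ioi_eq_Ioi zero_le_one]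
    refine IntegrableOn.union ?_ ?_
    · obtain ⟨K, hK0, hK⟩ := ff_bound (y_pos 1 one_pos)
      refine ⟨(hcont.mono Ioc_subset_Ioi_self).aestronglyMeasurable measurableSet_Ioc,
        .restrict_of_bounded (C := |(ε : ℝ)| * c ^ 2 * K * 2 / (a * d - b * c : ℤ)) (by simp) ?_⟩
      · refine (ae_restrict_iff' measurableSet_Ioc).mpr (Eventually.of_forall fun t ht => ?_)
        have h1 := congrArg norm (g.hf (w t) (by rw [w_im]; exact y_pos t ht.1))
        have h2 := hK (w t) (by
          rw [w_im]; simp only [hy]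
          gcongr
          exacts [mul_pos (by positivity) ht.1, ht.2])
        have h3 := sq_mul_exp_le (y_pos t ht.1).le
        rw [w_mob t ht.1, w_den] at h1
        rw [w_im] at h2
        simp only [norm_mul, norm_pow, norm_intCast, norm_real, norm_I, Real.norm_eq_abs,
          abs_of_pos hD, mul_one, mul_pow, sq_abs, one_pow] at h1
        rw [le_div_iff₀ hD, h1]
        calc |(ε : ℝ)| * (c ^ 2 * y t ^ 2) * ‖ff (w t)‖
            ≤ |(ε : ℝ)| * (c ^ 2 * y t ^ 2) * (K * Real.exp (-2 * π * y t)) := by gcongr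
          _ = |(ε : ℝ)| * c ^ 2 * K * (y t ^ 2 * Real.exp (-2 * π * y t)) := by ring
          _ ≤ |(ε : ℝ)| * c ^ 2 * K * 2 := by gcongr
    · obtain ⟨K, hK0, hK⟩ := ff_bound one_pos
      refine Integrable.mono' ((exp_neg_integrableOn_Ioi 1
        (show 0 < 2 * π by positivity)).const_mul K)
        ((hcont.mono (Ioi_subset_Ioi zero_le_one)).aestronglyMeasurable measurableSet_Ioi) ?_
      refine (ae_restrict_iff' measurableSet_Ioi).mpr (Eventually.of_forall fun t ht => ?_)
      have := hK (x + t * I) (by rw [im_z]; exact le_of_lt ht)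
      rw [im_z] at this
      simpa using this
  refine ⟨hint, ?_⟩
  have hI : 0 < I.im := by simp
  set C : ℂ := FF (mob a b c d I) - ε * FF I with hC
  have hCim : C.im = m * beta := by
    simp only [hC, sub_im, h.hF I hI, mul_im, intCast_re, intCast_im]; ring
  let H : ℝ → ℂ := fun t => if 0 < t then FF (x + t * I) else C
  have hH0 : H 0 = C := by simp [H]
  have hder : ∀ t ∈ Ioi (0 : ℝ), HasDerivAt H (-(2 * π) * ff (x + t * I)) t := by
    intro t ht
    have h1 : HasDerivAt (fun t : ℝ => (x : ℂ) + t * I) I t := by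
      simpa using (((hasDerivAt_id (t : ℂ)).mul_const I).const_add (x : ℂ)).comp_ofReal
    have h2 := (hasDerivAt_FF (z := x + t * I) (by rw [im_z]; exact ht)).scomp t h1
    refine (h2.congr_deriv ?_).congr_of_eventuallyEq ?_
    · simp only [smul_eq_mul]; linear_combination (2 * π * ff (x + t * I)) * I_sq
    · filter_upwards [Ioi_mem_nhds ht] with s hs
      simp only [H, if_pos (show 0 < s from hs), Function.comp_apply]
  have hc0 : ContinuousWithinAt H (Ici 0) 0 := by
    rw [← continuousWithinAt_Ioi_iff_Ici, ContinuousWithinAt, hH0]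
    have h1 : Tendsto w (𝓝[>] 0) atI := by
      rw [tendsto_comap_iff]
      have := tendsto_inv_nhdsGT_zero.const_mul_atTop
        (show (0 : ℝ) < (a * d - b * c : ℤ) / c ^ 2 by positivity)
      refine this.congr fun t => ?_
      simp only [Function.comp_apply, w_im, hy]
      rw [← div_div, div_eq_mul_inv _ t]
    have h2 := ((tendsto_FF.comp h1).const_mul (ε : ℂ)).add_const C
    rw [mul_zero, zero_add] at h2
    refine h2.congr' ?_
    filter_upwards [self_mem_nhdsWithin] with t ht
    have h3 := FF_mob g.det g.hf (z := w t) (by rw [w_im]; exact y_pos t ht) hI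
    rw [w_mob t ht] at h3
    simp only [H, if_pos (show 0 < t from ht), Function.comp_apply]
    linear_combination -h3
  have htop : Tendsto H atTop (𝓝 0) := by
    have h1 : Tendsto (fun t : ℝ => (x : ℂ) + t * I) atTop atI := by
      rw [tendsto_comap_iff]
      exact tendsto_id.congr fun t => (im_z t).symm
    refine (tendsto_FF.comp h1).congr' ?_
    filter_upwards [eventually_gt_atTop 0] with t ht
    simp only [H, if_pos ht, Function.comp_apply]
  have := integral_Ioi_of_hasDerivAt_of_tendsto hc0 hder (hint.const_mul _) htop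
  rw [integral_const_mul, hH0] at this
  rw [← hCim]
  congr 1
  linear_combination -this

end Pool.Agent.Lib.MP_b18d48_nt
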