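import Mathlib

/-!
Definitions for the Mazur-Tate rank zero leading term formula (problem MP_b18d48_nt).
-/

namespace Pool.Agent.Lib.MP_b18d48_nt

open scoped UpperHalfPlane

/-- The curve 126a1 : `y^2 + x y + y = x^3 - x^2 - 5 x - 7`, integral model. -/
def EZ : WeierstrassCurve ℤ := ⟨1, -1, 1, -5, -7⟩

/-- The curve 126a1 over the rationals. -/
def EQ : WeierstrassCurve ℚ := ⟨1, -1, 1, -5, -7⟩

/-- `a_p = p - #{affine points of the reduction mod p}` of an integral model. -/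
noncomputable def ap (W : WeierstrassCurve ℤ) (p : ℕ) : ℤ :=
  (p : ℤ) - Nat.card {P : ZMod p × ZMod p //
    (W.map (Int.castRingHom (ZMod p))).toAffine.Equation P.1 P.2}

/-- `a_(p^k)`, the coefficients of the inverse of the local polynomial at `p`. -/
noncomputable def apow (W : WeierstrassCurve ℤ) (p : ℕ) : ℕ → ℤ
  | 0 => 1
  | 1 => ap W p
  | k + 2 => ap W p * apow W p (k + 1) - (if (p : ℤ) ∣ W.Δ then 0 else (p : ℤ)) * apow W p k

/-- `a_n`, the coefficients of the Hasse-Weil L-series of a global minimal model. -/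
noncomputable def an (W : WeierstrassCurve ℤ) (n : ℕ) : ℤ :=
  if n = 0 then 0 else n.factorization.prod (apow W)

/-- `(2y + a₁x + a₃)^2 = 4x^3 + b₂x^2 + 2b₄x + b₆` as a function of the real variable `x`. -/
noncomputable def psi (W : WeierstrassCurve ℚ) (x : ℝ) : ℝ :=
  4 * x ^ 3 + (W.b₂ : ℝ) * x ^ 2 + 2 * (W.b₄ : ℝ) * x + (W.b₆ : ℝ)

/-- Half of the integral of `|dx / (2y + a₁x + a₃)|` over the real points: over each `x` with
`psi x > 0` there are two real points, each with density `1 / sqrt (psi x)`. -/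
noncomputable def Omega (W : WeierstrassCurve ℚ) : ℝ :=
  ∫ x in {x : ℝ | 0 < psi W x}, 1 / Real.sqrt (psi W x)

/-- The integral of `g(z) dz` from `i∞` to the real point `x` along the vertical line. -/
noncomputable def vint (g : ℍ → ℂ) (x : ℝ) : ℂ :=
  -Complex.I * ∫ t in Set.Ioi (0 : ℝ), g (UpperHalfPlane.ofComplex ((x : ℂ) + t * Complex.I))

/-- The modular symbol `λ(a,b)` for `x = a / b`. -/
noncomputable def lam (Ω : ℝ) (g : ℍ → ℂ) (x : ℝ) : ℂ :=
  (Real.pi * Complex.I / Ω) * (vint g x + vint g (-x))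

/-- `G_M = (ℤ/M)ˣ / ⟨-1⟩`. -/
abbrev GM (M : ℕ) : Type := (ZMod M)ˣ ⧸ Subgroup.zpowers (-1 : (ZMod M)ˣ)

/-- The augmentation ideal of `R[G]`. -/
noncomputable def augIdeal (R G : Type) [CommRing R] [CommGroup G] : Ideal (MonoidAlgebra R G) :=
  RingHom.ker (MonoidAlgebra.lift R R G (1 : G →* R))

/-- `v ∈ (ℤ/M)ˣ` is the image of `u ∈ ℤ_pˣ` under `ℤ_pˣ → (ℤ/p^e)ˣ ↪ (ℤ/M)ˣ`, for `M = p^e * m`
with `m` prime to `p`: `v` is `u` modulo `p^e` and `1` modulo `m`. -/
def IsImage (M p e m : ℕ) [Fact p.Prime] (u : ℤ_[p]ˣ) (v : (ZMod M)ˣ) : Prop :=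
  ((v : ZMod M).cast : ZMod (p ^ e)) = PadicInt.toZModPow e (u : ℤ_[p]) ∧
    ((v : ZMod M).cast : ZMod m) = 1

/-- The quartic attached to the Hauptmodul of `Γ₀(14)+7`, with a minus sign. -/
noncomputable def negQ (t : ℝ) : ℝ := (t + 8) * (-1 - t) * (t ^ 2 + 5 * t + 8)

/-- The half period of `dt / sqrt (negQ t)`. -/
noncomputable def I7 : ℝ := ∫ t in (-8 : ℝ)..(-1), 1 / Real.sqrt (negQ t)

end Pool.Agent.Lib.MP_b18d48_nt
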