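import Pool.Agent.Lib.MP_b18d48_nt.Defs

/-!
The eta product `f` of level 14 and the Hauptmodul `t` of `Γ₀(14)+7`: product formulas,
holomorphy, bounds, truncations.
-/

namespace Pool.Agent.Lib.MP_b18d48_nt

open Complex hiding eta
open ModularForm Filter Topology Asymptotics Metric
open scoped Real ComplexConjugate

noncomputable def qq (z : ℂ) : ℂ := cexp (2 * π * I * z)

noncomputable def PP (q : ℂ) : ℂ := ∏' n : ℕ, (1 - q ^ (n + 1))

noncomputable def phi (q : ℂ) : ℂ := PP q * PP (q ^ 2) * PP (q ^ 7) * PP (q ^ 14)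

noncomputable def tau (q : ℂ) : ℂ := (PP q * PP (q ^ 7) / (PP (q ^ 2) * PP (q ^ 14))) ^ 3

noncomputable def ff (z : ℂ) : ℂ := qq z * phi (qq z)

noncomputable def tt (z : ℂ) : ℂ := tau (qq z) / qq z

lemma qq_ne (z : ℂ) : qq z ≠ 0 := Complex.exp_ne_zero _

lemma norm_qq (z : ℂ) : ‖qq z‖ = Real.exp (-2 * π * z.im) := by
  simp [qq, Complex.norm_exp]

lemma norm_qq_lt {z : ℂ} (hz : 0 < z.im) : ‖qq z‖ < 1 := by
  rw [norm_qq, Real.exp_lt_one_iff]
  have := Real.pi_pos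
  nlinarith

lemma qq_mul (d : ℕ) (z : ℂ) : qq (d * z) = qq z ^ d := by
  rw [qq, qq, ← Complex.exp_nat_mul]; congr 1; ring

lemma qq_add (z w : ℂ) : qq (z + w) = qq z * qq w := by
  rw [qq, qq, qq, ← Complex.exp_add]; congr 1; ring

lemma qq_int (n : ℤ) : qq n = 1 := by
  rw [qq, show 2 * π * I * (n : ℂ) = n * (2 * π * I) by ring]
  exact Complex.exp_int_mul_two_pi_mul_I n

lemma qq_add_int (z : ℂ) (n : ℤ) : qq (z + n) = qq z := by rw [qq_add, qq_int, mul_one]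

lemma qq_neg_conj (z : ℂ) : qq (-conj z) = conj (qq z) := by
  rw [qq, qq, ← Complex.exp_conj]; congr 1; simp [map_ofNat]

lemma hasDerivAt_qq (z : ℂ) : HasDerivAt qq (2 * π * I * qq z) z := by
  have := ((hasDerivAt_id z).const_mul (2 * π * I : ℂ)).cexp
  rw [show 2 * π * I * qq z = cexp (2 * π * I * id z) * (2 * π * I * 1) by simp [qq, mul_comm]]
  exact this

lemma eta_eq (z : ℂ) : eta z = cexp (2 * π * I * z / 24) * PP (qq z) := by
  simp [eta, PP, qq, Function.Periodic.qParam, eta_q]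

lemma norm_pow_lt {q : ℂ} (hq : ‖q‖ < 1) {d : ℕ} (hd : d ≠ 0) : ‖q ^ d‖ < 1 := by
  rw [norm_pow]; exact pow_lt_one₀ (norm_nonneg _) hq hd

lemma PP_ne {q : ℂ} (hq : ‖q‖ < 1) : PP q ≠ 0 := by
  have := tprod_one_add_ne_zero_of_summable (f := fun n : ℕ => -q ^ (n + 1)) (fun i => ?_) ?_
  · simpa [PP, sub_eq_add_neg] using this
  · intro h
    have h1 : q ^ (i + 1) = 1 := by linear_combination -h
    have := norm_pow_lt hq (Nat.succ_ne_zero i)
    rw [h1] at this; simp at this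
  · simpa using (summable_nat_add_iff 1).mpr (summable_geometric_of_lt_one (norm_nonneg _) hq)

lemma PP_diffOn : DifferentiableOn ℂ PP (ball 0 1) := differentiableOn_tprod_one_sub_pow

lemma PP_diffAt {q : ℂ} (hq : ‖q‖ < 1) : DifferentiableAt ℂ PP q :=
  PP_diffOn.differentiableAt (isOpen_ball.mem_nhds (by simpa using hq))

lemma PP_pow_diffAt {q : ℂ} (hq : ‖q‖ < 1) {d : ℕ} (hd : d ≠ 0) :
    DifferentiableAt ℂ (fun q => PP (q ^ d)) q :=
  (PP_diffAt (norm_pow_lt hq hd)).comp q (differentiableAt_pow d)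

lemma phi_diffAt {q : ℂ} (hq : ‖q‖ < 1) : DifferentiableAt ℂ phi q :=
  (((PP_diffAt hq).mul (PP_pow_diffAt hq two_ne_zero)).mul
    (PP_pow_diffAt hq (by norm_num))).mul (PP_pow_diffAt hq (by norm_num))

lemma tau_diffAt {q : ℂ} (hq : ‖q‖ < 1) : DifferentiableAt ℂ tau q := by
  refine DifferentiableAt.pow (DifferentiableAt.div ((PP_diffAt hq).mul
    (PP_pow_diffAt hq (by norm_num))) ((PP_pow_diffAt hq two_ne_zero).mul
    (PP_pow_diffAt hq (by norm_num))) ?_) 3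
  exact mul_ne_zero (PP_ne (norm_pow_lt hq two_ne_zero)) (PP_ne (norm_pow_lt hq (by norm_num)))

lemma phi_ne {q : ℂ} (hq : ‖q‖ < 1) : phi q ≠ 0 :=
  mul_ne_zero (mul_ne_zero (mul_ne_zero (PP_ne hq) (PP_ne (norm_pow_lt hq two_ne_zero)))
    (PP_ne (norm_pow_lt hq (by norm_num)))) (PP_ne (norm_pow_lt hq (by norm_num)))

lemma tau_ne {q : ℂ} (hq : ‖q‖ < 1) : tau q ≠ 0 :=
  pow_ne_zero _ (div_ne_zero (mul_ne_zero (PP_ne hq) (PP_ne (norm_pow_lt hq (by norm_num))))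
    (mul_ne_zero (PP_ne (norm_pow_lt hq two_ne_zero)) (PP_ne (norm_pow_lt hq (by norm_num)))))

lemma ff_ne {z : ℂ} (hz : 0 < z.im) : ff z ≠ 0 :=
  mul_ne_zero (qq_ne z) (phi_ne (norm_qq_lt hz))

lemma tt_ne {z : ℂ} (hz : 0 < z.im) : tt z ≠ 0 :=
  div_ne_zero (tau_ne (norm_qq_lt hz)) (qq_ne z)

lemma ff_diffAt {z : ℂ} (hz : 0 < z.im) : DifferentiableAt ℂ ff z :=
  (hasDerivAt_qq z).differentiableAt.mul
    ((phi_diffAt (norm_qq_lt hz)).comp z (hasDerivAt_qq z).differentiableAt)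

lemma tt_diffAt {z : ℂ} (hz : 0 < z.im) : DifferentiableAt ℂ tt z :=
  ((tau_diffAt (norm_qq_lt hz)).comp z (hasDerivAt_qq z).differentiableAt).div
    (hasDerivAt_qq z).differentiableAt (qq_ne z)

lemma PP_conj {q : ℂ} (hq : ‖q‖ < 1) : PP (conj q) = conj (PP q) := by
  have := (multipliable_one_sub_pow hq).map_tprod (starRingEnd ℂ) continuous_conj
  simpa [PP] using this.symm

lemma PP_pow_conj {q : ℂ} (hq : ‖q‖ < 1) {d : ℕ} (hd : d ≠ 0) :
    PP (conj q ^ d) = conj (PP (q ^ d)) := by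
  rw [← map_pow, PP_conj (norm_pow_lt hq hd)]

lemma phi_conj {q : ℂ} (hq : ‖q‖ < 1) : phi (conj q) = conj (phi q) := by
  simp only [phi, map_mul, PP_conj hq, PP_pow_conj hq two_ne_zero,
    PP_pow_conj hq (show 7 ≠ 0 by norm_num), PP_pow_conj hq (show 14 ≠ 0 by norm_num)]

lemma tau_conj {q : ℂ} (hq : ‖q‖ < 1) : tau (conj q) = conj (tau q) := by
  simp only [tau, map_mul, map_pow, map_div₀, PP_conj hq, PP_pow_conj hq two_ne_zero,
    PP_pow_conj hq (show 7 ≠ 0 by norm_num), PP_pow_conj hq (show 14 ≠ 0 by norm_num)]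

lemma tt_neg_conj {z : ℂ} (hz : 0 < z.im) : tt (-conj z) = conj (tt z) := by
  simp only [tt, qq_neg_conj, tau_conj (norm_qq_lt hz), map_div₀]

lemma ff_add_int (z : ℂ) (n : ℤ) : ff (z + n) = ff z := by simp only [ff, qq_add_int]

lemma tt_add_int (z : ℂ) (n : ℤ) : tt (z + n) = tt z := by simp only [tt, qq_add_int]

lemma eta_mul_eq (d : ℕ) (z : ℂ) :
    eta (d * z) = cexp (2 * π * I * z / 24) ^ d * PP (qq z ^ d) := by
  rw [eta_eq, qq_mul, ← Complex.exp_nat_mul]; congr 2; ring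

lemma qq_eq_pow (z : ℂ) : qq z = cexp (2 * π * I * z / 24) ^ 24 := by
  rw [qq, ← Complex.exp_nat_mul]; congr 1; push_cast; ring

lemma ff_eq (z : ℂ) : ff z = eta z * eta (2 * z) * eta (7 * z) * eta (14 * z) := by
  have h2 := eta_mul_eq 2 z
  have h7 := eta_mul_eq 7 z
  have h14 := eta_mul_eq 14 z
  push_cast at h2 h7 h14
  rw [h2, h7, h14, eta_eq, ff, phi]
  nth_rewrite 1 [qq_eq_pow]
  ring

lemma tt_eq {z : ℂ} (hz : 0 < z.im) :
    tt z = (eta z * eta (7 * z) / (eta (2 * z) * eta (14 * z))) ^ 3 := by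
  have h2 := eta_mul_eq 2 z
  have h7 := eta_mul_eq 7 z
  have h14 := eta_mul_eq 14 z
  push_cast at h2 h7 h14
  have n2 := PP_ne (norm_pow_lt (norm_qq_lt hz) two_ne_zero)
  have n14 := PP_ne (norm_pow_lt (norm_qq_lt hz) (show 14 ≠ 0 by norm_num))
  have ne : cexp (2 * π * I * z / 24) ≠ 0 := Complex.exp_ne_zero _
  rw [h2, h7, h14, eta_eq, tt, tau]
  nth_rewrite 5 [qq_eq_pow]
  field_simp

/-! ### Tails of the product -/

noncomputable def tl (m : ℕ) (q : ℂ) : ℂ := ∏' n : ℕ, (1 - q ^ (n + m + 1))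

lemma summable_tl {q : ℂ} (hq : ‖q‖ < 1) (m : ℕ) :
    Summable fun n : ℕ => ‖-q ^ (n + m + 1)‖ := by
  simpa [add_assoc] using
    (summable_nat_add_iff (m + 1)).mpr (summable_geometric_of_lt_one (norm_nonneg _) hq)

lemma multipliable_tl {q : ℂ} (hq : ‖q‖ < 1) (m : ℕ) :
    Multipliable fun n : ℕ => 1 - q ^ (n + m + 1) := by
  simpa [sub_eq_add_neg] using multipliable_one_add_of_summable (summable_tl hq m)

lemma PP_eq_tl {q : ℂ} (hq : ‖q‖ < 1) (m : ℕ) :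
    PP q = (∏ n ∈ Finset.range m, (1 - q ^ (n + 1))) * tl m q :=
  (Multipliable.prod_mul_tprod_nat_mul' (f := fun n => 1 - q ^ (n + 1))
    (multipliable_tl hq m)).symm

lemma norm_tl_sub_one {q : ℂ} (hq : ‖q‖ < 1) (m : ℕ) :
    ‖tl m q - 1‖ ≤ Real.exp (‖q‖ ^ (m + 1) / (1 - ‖q‖)) - 1 := by
  have h1 := ((multipliable_tl hq m).tendsto_prod_tprod_nat.sub_const 1).norm
  refine le_of_tendsto' h1 fun N => ?_
  have h2 := Finset.norm_prod_one_add_sub_one_le (Finset.range N) fun n => -q ^ (n + m + 1)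
  simp only [← sub_eq_add_neg] at h2
  refine h2.trans (sub_le_sub_right (Real.exp_le_exp.mpr ?_) 1)
  refine ((summable_tl hq m).sum_le_tsum _ fun _ _ => norm_nonneg _).trans (le_of_eq ?_)
  simp only [norm_neg, norm_mul, norm_pow, add_assoc, pow_add _ _ (m + 1)]
  rw [tsum_mul_right, tsum_geometric_of_lt_one (norm_nonneg _) hq]
  field_simp

lemma norm_PP_le {q : ℂ} (hq : ‖q‖ < 1) : ‖PP q‖ ≤ Real.exp (‖q‖ / (1 - ‖q‖)) := by
  have h := norm_tl_sub_one hq 0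
  have h0 : tl 0 q = PP q := by simp [tl, PP]
  rw [h0] at h
  have := norm_le_norm_sub_add (PP q) 1
  simp only [zero_add, pow_one, norm_one] at h this
  linarith

lemma norm_PP_le' {q : ℂ} {r : ℝ} (hq : ‖q‖ ≤ r) (hr : r < 1) :
    ‖PP q‖ ≤ Real.exp (r / (1 - r)) := by
  refine (norm_PP_le (hq.trans_lt hr)).trans (Real.exp_le_exp.mpr ?_)
  have := norm_nonneg q
  gcongr
  linarith

lemma norm_phi_le {q : ℂ} {r : ℝ} (hq : ‖q‖ ≤ r) (hr : r < 1) :
    ‖phi q‖ ≤ Real.exp (r / (1 - r) + r ^ 2 / (1 - r ^ 2) + r ^ 7 / (1 - r ^ 7) +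
      r ^ 14 / (1 - r ^ 14)) := by
  have hr0 : 0 ≤ r := (norm_nonneg _).trans hq
  have key : ∀ d : ℕ, d ≠ 0 → ‖PP (q ^ d)‖ ≤ Real.exp (r ^ d / (1 - r ^ d)) := fun d hd =>
    norm_PP_le' (by rw [norm_pow]; gcongr) (pow_lt_one₀ hr0 hr hd)
  simp only [phi, norm_mul, Real.exp_add]
  gcongr
  · exact norm_PP_le' hq hr
  · exact key 2 (by norm_num)
  · exact key 7 (by norm_num)
  · exact key 14 (by norm_num)

lemma tl_isBigO (m : ℕ) : (fun q => tl m q - 1) =O[𝓝 0] fun q : ℂ => q ^ (m + 1) := by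
  refine IsBigO.of_bound 4 ?_
  filter_upwards [ball_mem_nhds (0 : ℂ) (show (0 : ℝ) < 1 / 2 by norm_num)] with q hq
  have hq' : ‖q‖ < 1 / 2 := by simpa using hq
  have h0 := norm_nonneg q
  have h1 : ‖q‖ ^ (m + 1) ≤ 1 / 2 := by
    calc ‖q‖ ^ (m + 1) = ‖q‖ ^ m * ‖q‖ := pow_succ _ _
      _ ≤ 1 * (1 / 2) := by
        gcongr
        exact pow_le_one₀ h0 (by linarith)
      _ = 1 / 2 := by norm_num
  have h2 : ‖q‖ ^ (m + 1) / (1 - ‖q‖) ≤ 2 * ‖q‖ ^ (m + 1) := by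
    rw [div_le_iff₀ (by linarith)]
    have : 0 ≤ ‖q‖ ^ (m + 1) := by positivity
    nlinarith
  have h3 : 0 ≤ ‖q‖ ^ (m + 1) / (1 - ‖q‖) := div_nonneg (by positivity) (by linarith)
  have h4 := Real.abs_exp_sub_one_le (x := ‖q‖ ^ (m + 1) / (1 - ‖q‖))
    (by rw [abs_of_nonneg h3]; linarith)
  rw [abs_of_nonneg h3] at h4
  refine (norm_tl_sub_one (by linarith) m).trans ?_
  rw [norm_pow]
  linarith [le_abs_self (Real.exp (‖q‖ ^ (m + 1) / (1 - ‖q‖)) - 1)]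

end Pool.Agent.Lib.MP_b18d48_nt
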