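import Pool.Agent.Lib.MP_b18d48_nt.Eta

/-!
Congruences of germs at `0` modulo `q ^ K`, and truncations of the products.
-/

namespace Pool.Agent.Lib.MP_b18d48_nt

open Complex hiding eta
open Filter Topology Asymptotics Metric

def Cong (K : ℕ) (a b : ℂ → ℂ) : Prop := (fun q => a q - b q) =O[𝓝 0] fun q : ℂ => q ^ K

namespace Cong

variable {K : ℕ} {a b c d : ℂ → ℂ}

lemma refl (a : ℂ → ℂ) : Cong K a a := by simpa [Cong] using isBigO_zero _ _

lemma symm (h : Cong K a b) : Cong K b a := IsBigO.symm h

lemma trans (h : Cong K a b) (h' : Cong K b c) : Cong K a c := IsBigO.triangle h h'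

lemma add (h : Cong K a b) (h' : Cong K c d) :
    Cong K (fun q => a q + c q) fun q => b q + d q :=
  (IsBigO.add h h').congr_left fun q => by ring

lemma sub (h : Cong K a b) (h' : Cong K c d) :
    Cong K (fun q => a q - c q) fun q => b q - d q :=
  (IsBigO.sub h h').congr_left fun q => by ring

lemma mul_right (h : Cong K a b) (hc : ContinuousAt c 0) :
    Cong K (fun q => a q * c q) fun q => b q * c q := by
  have := IsBigO.mul h (hc.tendsto.isBigO_one ℂ)
  exact this.congr (fun q => by ring) fun q => by ring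

lemma mul_left (h : Cong K a b) (hc : ContinuousAt c 0) :
    Cong K (fun q => c q * a q) fun q => c q * b q := by
  simpa only [mul_comm] using h.mul_right hc

lemma mul (h : Cong K a b) (h' : Cong K c d) (hb : ContinuousAt b 0) (hc : ContinuousAt c 0) :
    Cong K (fun q => a q * c q) fun q => b q * d q :=
  (h.mul_right hc).trans (h'.mul_left hb)

lemma of_eq {r : ℂ → ℂ} (hr : ContinuousAt r 0) (h : ∀ q, a q = b q + q ^ K * r q) :
    Cong K a b := by
  have := IsBigO.mul (isBigO_refl (fun q : ℂ => q ^ K) (𝓝 0)) (hr.tendsto.isBigO_one ℂ)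
  exact this.congr (fun q => by rw [h]; ring) fun q => by ring

lemma of_eventuallyEq (h : a =ᶠ[𝓝 0] b) : Cong K a b :=
  (refl (K := K) b).congr' (by filter_upwards [h] with q hq; rw [hq]) EventuallyEq.rfl

lemma mono {K' : ℕ} (h : Cong K a b) (hK : K' ≤ K) : Cong K' a b := by
  refine IsBigO.trans h ?_
  obtain ⟨m, rfl⟩ := Nat.exists_eq_add_of_le hK
  have := IsBigO.mul (isBigO_refl (fun q : ℂ => q ^ K') (𝓝 0))
    ((continuous_pow m).continuousAt (x := (0 : ℂ)).tendsto.isBigO_one ℂ)
  exact this.congr (fun q => by ring) fun q => by ring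

lemma comp_pow (h : Cong K a b) {e : ℕ} (he : e ≠ 0) :
    Cong (e * K) (fun q => a (q ^ e)) fun q => b (q ^ e) := by
  have ht : Tendsto (fun q : ℂ => q ^ e) (𝓝 0) (𝓝 0) := by
    simpa [he] using (continuous_pow e).tendsto (0 : ℂ)
  exact (IsBigO.comp_tendsto h ht).congr_right fun q => by simp [pow_mul]

lemma comp_mul (h : Cong K a b) (w : ℂ) :
    Cong K (fun q => a (w * q)) fun q => b (w * q) := by
  have ht : Tendsto (fun q : ℂ => w * q) (𝓝 0) (𝓝 0) := by
    simpa using (continuous_const_mul w).tendsto (0 : ℂ)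
  refine (IsBigO.comp_tendsto h ht).trans ?_
  simpa [Function.comp_def, mul_pow] using (isBigO_refl (fun q : ℂ => q ^ K) (𝓝 0)).const_mul_left _

lemma mul_id (h : Cong K a b) : Cong (K + 1) (fun q => q * a q) fun q => q * b q :=
  (IsBigO.mul (isBigO_refl (fun q : ℂ => q) (𝓝 0)) h).congr (fun q => by ring) fun q => by ring

lemma mul_deriv (h : Cong K a b) (ha : ∀ q : ℂ, ‖q‖ < 1 → DifferentiableAt ℂ a q)
    (hb : ∀ q : ℂ, ‖q‖ < 1 → DifferentiableAt ℂ b q) :
    Cong K (fun q => q * deriv a q) fun q => q * deriv b q := by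
  obtain ⟨C, hC0, hC⟩ := h.exists_nonneg
  obtain ⟨δ, hδ, hC⟩ := Metric.eventually_nhds_iff.mp hC.bound
  refine IsBigO.of_bound (C * 2 ^ K) ?_
  filter_upwards [ball_mem_nhds (0 : ℂ) (show 0 < min δ 1 / 2 by positivity)] with q hq
  have hq' : ‖q‖ < min δ 1 / 2 := by simpa using hq
  have h1 : 2 * ‖q‖ < δ := by linarith [min_le_left δ 1]
  have h2 : 2 * ‖q‖ < 1 := by linarith [min_le_right δ 1]
  rcases eq_or_ne q 0 with rfl | hq0
  · simp only [zero_mul, sub_zero, norm_zero]; positivity
  have hn : 0 < ‖q‖ := norm_pos_iff.mpr hq0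
  have hle : ∀ w ∈ closedBall q ‖q‖, ‖w‖ ≤ 2 * ‖q‖ := fun w hw => by
    have := norm_le_norm_sub_add w q
    rw [mem_closedBall, dist_eq_norm] at hw
    linarith
  have h3 := norm_deriv_le_of_forall_mem_sphere_norm_le (f := fun q => a q - b q) (c := q)
    (C := C * (2 * ‖q‖) ^ K) hn
    (DifferentiableOn.diffContOnCl_ball (U := ball 0 1) (fun w hw =>
      ((ha w (by simpa using hw)).sub (hb w (by simpa using hw))).differentiableWithinAt)
      fun w hw => by simpa using (hle w hw).trans_lt h2)
    fun w hw => by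
      have h4 := hle w (sphere_subset_closedBall hw)
      refine (hC (by simpa using h4.trans_lt h1)).trans ?_
      rw [norm_pow]; gcongr
  rw [deriv_fun_sub (ha q (by linarith)) (hb q (by linarith)), le_div_iff₀ hn] at h3
  rw [← mul_sub, norm_mul, norm_pow, mul_comm]
  refine h3.trans (le_of_eq ?_)
  ring

end Cong

lemma PP_contAt (e : ℕ) (he : e ≠ 0) : ContinuousAt (fun q => PP (q ^ e)) 0 :=
  (PP_pow_diffAt (by simp) he).continuousAt

lemma cong_PP (m : ℕ) : Cong (m + 1) PP fun q => ∏ n ∈ Finset.range m, (1 - q ^ (n + 1)) := by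
  have h1 : Cong (m + 1) (tl m) fun _ => 1 := tl_isBigO m
  have h2 := h1.mul_left (c := fun q => ∏ n ∈ Finset.range m, (1 - q ^ (n + 1))) (by fun_prop)
  simp only [mul_one] at h2
  refine Cong.trans (Cong.of_eventuallyEq ?_) h2
  filter_upwards [ball_mem_nhds (0 : ℂ) one_pos] with q hq
  exact PP_eq_tl (by simpa using hq) m

lemma cong_PP_pow {K : ℕ} (e m : ℕ) (he : e ≠ 0) (hK : K ≤ e * (m + 1)) :
    Cong K (fun q => PP (q ^ e)) fun q => ∏ n ∈ Finset.range m, (1 - q ^ (e * (n + 1))) := by
  simpa only [pow_mul] using ((cong_PP m).comp_pow he).mono hK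

/-! ### Truncated products as lists of coefficients -/

noncomputable def evalL : List ℤ → ℂ → ℂ
  | [], _ => 0
  | c :: l, q => c + q * evalL l q

lemma evalL_cont (l : List ℤ) : Continuous (evalL l) := by
  induction l with
  | nil => exact continuous_const
  | cons c l ih => exact continuous_const.add (continuous_id.mul ih)

def subL : List ℤ → List ℤ → List ℤ
  | [], _ => []
  | c :: l, [] => c :: l
  | c :: l, d :: l' => (c - d) :: subL l l'

lemma length_subL (l l' : List ℤ) : (subL l l').length = l.length := by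
  induction l generalizing l' with
  | nil => rfl
  | cons c l ih => cases l' <;> simp [subL, ih]

lemma cong_subL (l l' : List ℤ) :
    Cong l.length (fun q => evalL l q - evalL l' q) (evalL (subL l l')) := by
  induction l generalizing l' with
  | nil =>
    exact Cong.of_eq (r := fun q => -evalL l' q) (evalL_cont l').neg.continuousAt
      fun q => by simp [evalL, subL]
  | cons c l ih =>
    cases l' with
    | nil => simpa [evalL, subL] using Cong.refl _
    | cons d l' =>
      exact IsBigO.congr_left (ih l').mul_id fun q => by simp only [evalL, subL]; push_cast; ring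

lemma evalL_replicate (m : ℕ) (l : List ℤ) (q : ℂ) :
    evalL (List.replicate m 0 ++ l) q = q ^ m * evalL l q := by
  induction m with
  | zero => simp
  | succ m ih => simp only [List.replicate_succ, List.cons_append, evalL, ih]; push_cast; ring

def prodL (l : List ℤ) : List ℕ → List ℤ
  | [] => l
  | m :: ms => let r := prodL l ms; subL r (List.replicate m 0 ++ r)

lemma length_prodL (l : List ℤ) (ms : List ℕ) : (prodL l ms).length = l.length := by
  induction ms with
  | nil => rfl
  | cons m ms ih => simp [prodL, length_subL, ih]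

lemma cong_prodL (l : List ℤ) (ms : List ℕ) :
    Cong l.length (fun q => (ms.map fun m => 1 - q ^ m).prod * evalL l q) (evalL (prodL l ms)) := by
  induction ms with
  | nil => simpa [prodL] using Cong.refl _
  | cons m ms ih =>
    have h1 := ih.mul_left (c := fun q => 1 - q ^ m) (by fun_prop)
    have h2 := cong_subL (prodL l ms) (List.replicate m 0 ++ prodL l ms)
    rw [length_prodL] at h2
    refine Cong.trans (IsBigO.congr_left h1 fun q => ?_) h2
    simp only [List.map_cons, List.prod_cons, evalL_replicate]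
    ring

lemma evalL_eq_sum (l : List ℤ) (q : ℂ) :
    evalL l q = ∑ n ∈ Finset.range l.length, (l.getD n 0 : ℂ) * q ^ n := by
  induction l with
  | nil => simp [evalL]
  | cons c l ih =>
    rw [List.length_cons, Finset.sum_range_succ', evalL, ih, Finset.mul_sum, add_comm]
    simp only [List.getD_cons_succ, List.getD_cons_zero, pow_zero, mul_one]
    congr 1
    exact Finset.sum_congr rfl fun n _ => by ring

def phiL : List ℤ := [1, -1, -2, 1, 0, 2, 1, -1, 1, 0, 0, -2, -4, -1, 0, 1, 6, -1, 2, 0, -2, 0, 0,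
  2, -5, 4, 4, 1, -6, 0, -4, -1, 0, -6, 0, 1, 2, -2, 8, 0, 6, 2, 8, 0, 0, 0, -12, -2]

def expo (e m : ℕ) : List ℕ := (List.range m).map fun n => e * (n + 1)

lemma prod_expo (e m : ℕ) (q : ℂ) : ((expo e m).map fun k => 1 - q ^ k).prod =
    ∏ n ∈ Finset.range m, (1 - q ^ (e * (n + 1))) := by
  induction m with
  | zero => simp [expo]
  | succ m ih =>
    rw [Finset.prod_range_succ, ← ih]
    simp [expo, List.range_succ]

lemma cong_phi : Cong 48 phi (evalL phiL) := by
  have h1 := cong_PP_pow (K := 48) 1 47 (by norm_num) (by norm_num)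
  have h2 := cong_PP_pow (K := 48) 2 23 (by norm_num) (by norm_num)
  have h7 := cong_PP_pow (K := 48) 7 6 (by norm_num) (by norm_num)
  have h14 := cong_PP_pow (K := 48) 14 3 (by norm_num) (by norm_num)
  have h := ((h1.mul h2 (by fun_prop) (PP_contAt 2 (by norm_num))).mul h7 (by fun_prop)
    (PP_contAt 7 (by norm_num))).mul h14 (by fun_prop) (PP_contAt 14 (by norm_num))
  have h3 := cong_prodL (1 :: List.replicate 47 0)
    (expo 1 47 ++ expo 2 23 ++ expo 7 6 ++ expo 14 3)
  have h4 : prodL (1 :: List.replicate 47 0) (expo 1 47 ++ expo 2 23 ++ expo 7 6 ++ expo 14 3) =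
      phiL := by decide +kernel
  have h5 : ∀ q, evalL (1 :: List.replicate 47 0) q = 1 := fun q => by
    have := evalL_replicate 47 [] q
    rw [List.append_nil] at this
    simp [evalL, this, -List.reduceReplicate]
  rw [h4] at h3
  simp only [List.map_append, List.prod_append, prod_expo, h5, mul_one] at h3
  simp only [pow_one] at h
  exact Cong.trans h h3

end Pool.Agent.Lib.MP_b18d48_nt
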