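import Pool.Agent.Lib.MP_b18d48_nt.Group

/-!
Building cusp forms from functions on `ℂ`, and behaviour at the cusps.
-/

namespace Pool.Agent.Lib.MP_b18d48_nt

open Complex hiding eta
open ModularForm Filter Topology Asymptotics Metric CongruenceSubgroup
open scoped Real ComplexConjugate MatrixGroups UpperHalfPlane

/-- The filter `im z → ∞` on `ℂ`. -/
abbrev atI : Filter ℂ := comap Complex.im atTop

lemma slash_eq (h : ℂ → ℂ) (k : ℤ) (γ : SL(2, ℤ)) (τ : ℍ) :
    ((fun τ : ℍ => h τ) ∣[k] γ) τ = h (mob (γ 0 0) (γ 0 1) (γ 1 0) (γ 1 1) τ) *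
      ((γ 1 0 : ℂ) * τ + γ 1 1) ^ (-k) := by
  rw [SL_slash_apply, UpperHalfPlane.coe_specialLinearGroup_apply, ModularGroup.denom_apply]
  simp [mob]

lemma det_SL (γ : SL(2, ℤ)) : γ 0 0 * γ 1 1 - γ 0 1 * γ 1 0 = 1 := by
  have := γ.det_coe
  rwa [Matrix.det_fin_two] at this

noncomputable def mkCusp (N : ℕ) [NeZero N] (k : ℤ) (h : ℂ → ℂ)
    (hd : ∀ z : ℂ, 0 < z.im → DifferentiableAt ℂ h z)
    (hi : ∀ a b c d : ℤ, a * d - b * c = 1 → (N : ℤ) ∣ c → ∀ z : ℂ, 0 < z.im →
      h (mob a b c d z) * (c * z + d) ^ (-k) = h z)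
    (hc : ∀ a b c d : ℤ, a * d - b * c = 1 →
      Tendsto (fun z : ℂ => h (mob a b c d z) * (c * z + d) ^ (-k)) atI (𝓝 0)) :
    CuspForm (Gamma0 N : Subgroup (GL (Fin 2) ℝ)) k where
  toFun := fun τ : ℍ => h τ
  slash_action_eq' A hA := by
    obtain ⟨γ, hγ, rfl⟩ := hA
    ext τ
    change ((fun τ : ℍ => h τ) ∣[k] γ) τ = _
    rw [slash_eq]
    exact hi _ _ _ _ (det_SL γ) ((ZMod.intCast_zmod_eq_zero_iff_dvd _ _).mp hγ) _ τ.im_pos
  holo' := by
    rw [UpperHalfPlane.mdifferentiable_iff]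
    refine DifferentiableOn.congr (f := h) (fun z hz => (hd z hz).differentiableWithinAt)
      fun z hz => ?_
    simp [UpperHalfPlane.ofComplex_apply_of_im_pos hz]
  zero_at_cusps' hcusp := by
    rw [Subgroup.IsArithmetic.isCusp_iff_isCusp_SL2Z] at hcusp
    rw [OnePoint.isZeroAt_iff_forall_SL2Z hcusp]
    intro γ _
    have := (hc _ _ _ _ (det_SL γ)).comp UpperHalfPlane.tendsto_coe_atImInfty
    exact this.congr fun τ => (slash_eq h k γ τ).symm

lemma eps_sq (D : ℤ) : eps D ^ 2 = 1 := by unfold eps; split_ifs <;> norm_num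

lemma exists_W {p q : ℤ} (h : IsCoprime p q) : ∃ D b c d : ℤ, 0 < D ∧ 14 * c = D * q ∧
    D * p * d - q * b = 1 ∧ G0 (D * p) b (14 * c) (D * d) (eps D) (sig D) := by
  have key : ∀ D D' c : ℤ, D * D' = 14 → 0 < D → q = D' * c → IsCoprime D q →
      ∃ D b c d : ℤ, 0 < D ∧ 14 * c = D * q ∧
        D * p * d - q * b = 1 ∧ G0 (D * p) b (14 * c) (D * d) (eps D) (sig D) := by
    intro D D' c hD h0 hq hc
    obtain ⟨u, v, huv⟩ := hc.mul_left h
    refine ⟨D, -v, c, u, h0, by rw [hq, ← hD]; ring, by linear_combination huv,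
      G0_all hD h0 ?_⟩
    rw [hq] at huv
    linear_combination huv
  have h2 : ¬ (2 : ℤ) ∣ q → IsCoprime 2 q := fun h => (Int.prime_two.coprime_iff_not_dvd).mpr h
  have h7 : ¬ (7 : ℤ) ∣ q → IsCoprime 7 q := fun h =>
    ((Int.prime_iff_natAbs_prime.mpr (by norm_num)).coprime_iff_not_dvd).mpr h
  by_cases c2 : (2 : ℤ) ∣ q <;> by_cases c7 : (7 : ℤ) ∣ q
  · exact key 1 14 (q / 14) (by norm_num) (by norm_num) (by omega) isCoprime_one_left
  · exact key 7 2 (q / 2) (by norm_num) (by norm_num) (by omega) (h7 c7)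
  · exact key 2 7 (q / 7) (by norm_num) (by norm_num) (by omega) (h2 c2)
  · exact key 14 1 q (by norm_num) (by norm_num) (by omega)
      (by simpa using (h2 c2).mul_left (h7 c7))

lemma cusp_decomp {p r q s : ℤ} (h : 0 < p * s - r * q) :
    ∃ (a b c d ε : ℤ) (σ : Bool) (g e k D : ℤ), G0 a b c d ε σ ∧ ε ^ 2 = 1 ∧ 0 < g ∧ 0 < k ∧
      0 < D ∧ ∀ z : ℂ, 0 < z.im → mob p r q s z = mob a b c d (mob g e 0 k z) ∧
        (c * mob g e 0 k z + d) * k = D * (q * z + s) := by
  have hg : 0 < Int.gcd p q := Int.gcd_pos_iff.mpr (by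
    by_contra hc
    push Not at hc
    simp [hc.1, hc.2] at h)
  obtain ⟨g, p', q', hg0, hcop, rfl, rfl⟩ := Int.exists_gcd_one' hg
  obtain ⟨D, b, c, d, hD, hc, hdet, hG⟩ := exists_W (Int.isCoprime_iff_gcd_eq_one.mpr hcop)
  have hg' : (0 : ℤ) < g := by exact_mod_cast hg0
  have hk : 0 < p' * s - r * q' := by
    have : p' * g * s - r * (q' * g) = g * (p' * s - r * q') := by ring
    rw [this] at h
    exact (pos_iff_pos_of_mul_pos h).mp hg'
  refine ⟨_, _, _, _, _, _, g, D * d * r - b * s, D * (p' * s - r * q'), D, hG, eps_sq D, hg',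
    by positivity, hD, fun z hz => ?_⟩
  have hden := den_ne (a := g) (b := D * d * r - b * s) (c := 0) (d := D * (p' * s - r * q'))
    (by simp only [mul_zero, sub_zero]; positivity) hz
  have e1 : D * p' * g + b * 0 = D * (p' * g) := by ring
  have e2 : D * p' * (D * d * r - b * s) + b * (D * (p' * s - r * q')) = D * r := by
    linear_combination D * r * hdet
  have e3 : 14 * c * g + D * d * 0 = D * (q' * g) := by rw [hc]; ring
  have e4 : 14 * c * (D * d * r - b * s) + D * d * (D * (p' * s - r * q')) = D * s := by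
    rw [hc]; linear_combination D * s * hdet
  constructor
  · rw [mob_mob _ _ _ _ hden, e1, e2, e3, e4, mob_scale hD.ne']
  · rw [mob_den _ _ hden, e3, e4]
    simp only [Int.cast_zero, zero_mul, zero_add] at hden ⊢
    rw [div_mul_cancel₀ _ hden]
    push_cast; ring

lemma eventually_im_pos : ∀ᶠ z in atI, 0 < z.im :=
  preimage_mem_comap (Ioi_mem_atTop 0)

lemma tendsto_mob_upper {g e k : ℤ} (hg : 0 < g) (hk : 0 < k) : Tendsto (mob g e 0 k) atI atI := by
  rw [tendsto_comap_iff]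
  have hg' : (0 : ℝ) < g := by exact_mod_cast hg
  have hk' : (0 : ℝ) < k := by exact_mod_cast hk
  have : Tendsto (fun z : ℂ => (g / k : ℝ) * z.im) atI atTop :=
    tendsto_comap.const_mul_atTop (by positivity)
  refine this.congr fun z => ?_
  simp only [Function.comp_apply, mob_im]
  simp
  field_simp

lemma tendsto_qq : Tendsto qq atI (𝓝 0) := by
  rw [tendsto_zero_iff_norm_tendsto_zero]
  simp only [norm_qq]
  refine Real.tendsto_exp_atBot.comp ?_
  exact tendsto_comap.const_mul_atTop_of_neg (by have := Real.pi_pos; linarith)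

lemma phi_contAt : ContinuousAt phi 0 := (phi_diffAt (by simp)).continuousAt

lemma tendsto_ff : Tendsto ff atI (𝓝 0) := by
  have := tendsto_qq.mul (phi_contAt.tendsto.comp tendsto_qq)
  rw [zero_mul] at this
  exact this

lemma tendsto_FF : Tendsto FF atI (𝓝 0) := by
  have := (hasDerivAt_Psi (q := 0) (by simp)).continuousAt.tendsto.comp tendsto_qq
  rwa [Psi_zero] at this

lemma tendsto_ff_mob {p r q s : ℤ} (h : 0 < p * s - r * q) :
    Tendsto (fun z : ℂ => ff (mob p r q s z) * (q * z + s) ^ (-2 : ℤ)) atI (𝓝 0) := by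
  obtain ⟨a, b, c, d, ε, σ, g, e, k, D, hG, -, hg, hk, hD, H⟩ := cusp_decomp h
  have h1 := (tendsto_ff.comp (tendsto_mob_upper (e := e) hg hk)).const_mul
    ((ε * D ^ 2 / (k ^ 2 * (a * d - b * c : ℤ))) : ℂ)
  rw [mul_zero] at h1
  refine h1.congr' ?_
  filter_upwards [eventually_im_pos] with z hz
  obtain ⟨H1, H2⟩ := H z hz
  have hw := mob_im_pos (a := g) (b := e) (c := 0) (d := k)
    (by simp only [mul_zero, sub_zero]; positivity) hz
  have h2 := hG.hf _ hw
  have n1 : ((a * d - b * c : ℤ) : ℂ) ≠ 0 := by exact_mod_cast hG.det.ne'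
  have n2 : (k : ℂ) ≠ 0 := by exact_mod_cast hk.ne'
  have n3 := den_ne h hz
  rw [H1, eq_div_of_mul_eq n1 h2, eq_div_of_mul_eq n2 H2]
  simp only [Function.comp_apply, zpow_neg, zpow_ofNat]
  generalize (q * z + s : ℂ) = j at n3
  generalize ((a * d - b * c : ℤ) : ℂ) = x at n1
  field_simp

end Pool.Agent.Lib.MP_b18d48_nt
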