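import Pool.Agent.Lib.MP_b18d48_nt.Trans

/-!
The normaliser of `Γ₀(14)` is generated by the elements treated in `Trans`; words in the
generators give the imaginary parts of the periods.
-/

namespace Pool.Agent.Lib.MP_b18d48_nt

open Complex hiding eta
open ModularForm Filter Topology Asymptotics Metric
open scoped Real ComplexConjugate MatrixGroups

def eps (D : ℤ) : ℤ := if 7 ∣ D then -1 else 1

def sig (D : ℤ) : Bool := decide (2 ∣ D)

lemma step_aux {α β γ δ k e1 e2 e3 a b c d : ℤ} (hk : 0 < k) (he1 : 0 < e1)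
    (hS : G0 (k * e1 * δ) (-β) (-(14 * γ)) (k * e1 * α) (eps (k * e1)) (sig (k * e1)))
    (hdet : k * e1 * α * δ - e2 * e3 * β * γ = 1) (h14 : k * e1 * e2 * e3 = 14)
    (he : eps (k * e1) * eps (e1 * e2) = eps (k * e2))
    (hs : xor (sig (k * e1)) (sig (e1 * e2)) = sig (k * e2))
    (IH : G0 (e1 * e2 * (k * α * a + e3 * β * c)) (e1 * α * b + e2 * β * d)
      (14 * (e2 * γ * a + e1 * δ * c)) (e1 * e2 * (e3 * γ * b + k * δ * d))
      (eps (e1 * e2)) (sig (e1 * e2))) :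
    G0 (k * e2 * a) b (14 * c) (k * e2 * d) (eps (k * e2)) (sig (k * e2)) := by
  have h := hS.mul IH
  rw [he, hs] at h
  refine G0.of_scale (k := e1) he1.ne' ?_
  convert h using 1
  · rw [← h14]; linear_combination -(e1 * k * e2 * a) * hdet
  · linear_combination -(e1 * b) * hdet
  · rw [← h14]; linear_combination -(e1 * (k * e1 * e2 * e3) * c) * hdet
  · rw [← h14]; linear_combination -(e1 * k * e2 * d) * hdet

lemma split_divisors {D D' DS DS' : ℤ} (hD : D * D' = 14) (h0 : 0 < D) (hS : DS * DS' = 14)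
    (hS0 : 0 < DS) : ∃ k e1 e2 e3 : ℤ, 0 < k ∧ 0 < e1 ∧ 0 < e2 ∧ 0 < e3 ∧ DS = k * e1 ∧
      D = k * e2 ∧ DS' = e2 * e3 ∧ D' = e1 * e3 ∧ k * e1 * e2 * e3 = 14 ∧
      eps (k * e1) * eps (e1 * e2) = eps (k * e2) ∧
      xor (sig (k * e1)) (sig (e1 * e2)) = sig (k * e2) := by
  have key : ∀ D D' : ℤ, D * D' = 14 → 0 < D →
      (D = 1 ∧ D' = 14) ∨ (D = 2 ∧ D' = 7) ∨ (D = 7 ∧ D' = 2) ∨ (D = 14 ∧ D' = 1) := by
    intro D D' h h0
    have h1 : D ≤ 14 := Int.le_of_dvd (by norm_num) ⟨D', h.symm⟩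
    interval_cases D <;> omega
  refine ⟨Int.gcd D DS, DS / Int.gcd D DS, D / Int.gcd D DS, Int.gcd D' DS', ?_⟩
  rcases key D D' hD h0 with ⟨rfl, rfl⟩ | ⟨rfl, rfl⟩ | ⟨rfl, rfl⟩ | ⟨rfl, rfl⟩ <;>
  rcases key DS DS' hS hS0 with ⟨rfl, rfl⟩ | ⟨rfl, rfl⟩ | ⟨rfl, rfl⟩ | ⟨rfl, rfl⟩ <;> decide

lemma step_gen {n : ℕ}
    (IH : ∀ D D' a b c d : ℤ, D * D' = 14 → 0 < D → D * a * d - D' * b * c = 1 →
      c ^ 2 * D' < n → G0 (D * a) b (14 * c) (D * d) (eps D) (sig D))
    {D D' a b c d : ℤ} (hD : D * D' = 14) (h0 : 0 < D) (hdet : D * a * d - D' * b * c = 1)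
    (hn : c ^ 2 * D' ≤ n) {DS DS' α β γ δ : ℤ} (hS : DS * DS' = 14) (hS0 : 0 < DS)
    (hdS : DS * α * δ - DS' * β * γ = 1)
    (hG : G0 (DS * δ) (-β) (-(14 * γ)) (DS * α) (eps DS) (sig DS))
    (hlt : (γ * (D * a) + DS * δ * c) ^ 2 < DS * c ^ 2) :
    G0 (D * a) b (14 * c) (D * d) (eps D) (sig D) := by
  obtain ⟨k, e1, e2, e3, hk, he1, he2, he3, rfl, rfl, rfl, rfl, h14, he, hs⟩ :=
    split_divisors hD h0 hS hS0
  refine step_aux hk he1 hG hdS h14 he hs (IH (e1 * e2) (k * e3) _ _ _ _ (by linarith)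
    (by positivity) ?_ (lt_of_lt_of_le ?_ hn))
  · linear_combination (k * e2 * a * d - e1 * e3 * b * c) * hdS + hdet
  · have h1 : k * ((e2 * γ * a + e1 * δ * c) ^ 2 * k) < k * (e1 * c ^ 2) := by
      convert hlt using 1 <;> ring
    have h2 := lt_of_mul_lt_mul_left h1 hk.le
    calc (e2 * γ * a + e1 * δ * c) ^ 2 * (k * e3) = (e2 * γ * a + e1 * δ * c) ^ 2 * k * e3 := by ring
      _ < e1 * c ^ 2 * e3 := by gcongr
      _ = c ^ 2 * (e1 * e3) := by ring

lemma G0.neg {a b c d ε : ℤ} {σ : Bool} (h : G0 a b c d ε σ) : G0 (-a) (-b) (-c) (-d) ε σ :=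
  G0.of_scale (k := -1) (by norm_num) (by simpa using h)

lemma G0_W7a : G0 7 (-4) 14 (-7) (-1) false := by
  simpa using G0_W7 (a := 1) (b := -4) (c := 1) (by norm_num) (by norm_num)

lemma G0_W7b : G0 (-7) (-4) 14 7 (-1) false := by
  simpa using G0_W7 (a := -1) (b := -4) (c := 1) (by norm_num) (by norm_num)

lemma G0_all_aux (n : ℕ) : ∀ D D' a b c d : ℤ, D * D' = 14 → 0 < D →
    D * a * d - D' * b * c = 1 → c ^ 2 * D' < n →
    G0 (D * a) b (14 * c) (D * d) (eps D) (sig D) := by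
  induction n with
  | zero =>
    intro D D' a b c d hD h0 _ hn
    have : 0 < D' := by nlinarith
    have : 0 ≤ c ^ 2 * D' := by positivity
    omega
  | succ n IH =>
    have main : ∀ D D' a b c d : ℤ, D * D' = 14 → 0 < D → D * a * d - D' * b * c = 1 →
        c ^ 2 * D' ≤ n → 0 < c → -(7 * c) ≤ D * a → D * a ≤ 7 * c →
        G0 (D * a) b (14 * c) (D * d) (eps D) (sig D) := by
      intro D D' a b c d hD h0 hdet hn hc h1 h2
      by_cases c1 : -(3 * c) ≤ D * a ∧ D * a ≤ 3 * c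
      · refine step_gen IH hD h0 hdet hn (DS := 14) (DS' := 1) (α := 0) (β := -1) (γ := 1) (δ := 0)
          (by norm_num) (by norm_num) (by norm_num) (by simpa [eps, sig] using G0_W14.neg) ?_
        nlinarith [c1.1, c1.2]
      by_cases c2 : 3 * c ≤ D * a ∧ D * a ≤ 5 * c
      · refine step_gen IH hD h0 hdet hn (DS := 2) (DS' := 7) (α := 2) (β := -1) (γ := -1) (δ := 2)
          (by norm_num) (by norm_num) (by norm_num) (by simpa [eps, sig] using G0_W2i) ?_
        nlinarith [c2.1, c2.2]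
      by_cases c3 : -(5 * c) ≤ D * a ∧ D * a ≤ -(3 * c)
      · refine step_gen IH hD h0 hdet hn (DS := 2) (DS' := 7) (α := 2) (β := 1) (γ := 1) (δ := 2)
          (by norm_num) (by norm_num) (by norm_num) (by simpa [eps, sig] using G0_W2) ?_
        nlinarith [c3.1, c3.2]
      by_cases c4 : 5 * c ≤ D * a
      · refine step_gen IH hD h0 hdet hn (DS := 7) (DS' := 2) (α := 1) (β := -4) (γ := 1) (δ := -1)
          (by norm_num) (by norm_num) (by norm_num) (by simpa [eps, sig] using G0_W7a.neg) ?_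
        nlinarith
      · have c5 : D * a ≤ -(5 * c) := by omega
        refine step_gen IH hD h0 hdet hn (DS := 7) (DS' := 2) (α := -1) (β := -4) (γ := 1) (δ := 1)
          (by norm_num) (by norm_num) (by norm_num) (by simpa [eps, sig] using G0_W7b.neg) ?_
        nlinarith
    have main2 : ∀ D D' a b c d : ℤ, D * D' = 14 → 0 < D → D * a * d - D' * b * c = 1 →
        c ^ 2 * D' ≤ n → 0 < c → G0 (D * a) b (14 * c) (D * d) (eps D) (sig D) := by
      intro D D' a b c d hD h0 hdet hn hc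
      set m := (D * a + 7 * c) / (14 * c) with hm
      have h1 := Int.emod_nonneg (D * a + 7 * c) (show 14 * c ≠ 0 by omega)
      have h2 := Int.emod_lt_of_pos (D * a + 7 * c) (show 0 < 14 * c by omega)
      have h3 := Int.mul_ediv_add_emod (D * a + 7 * c) (14 * c)
      rw [← hm] at h3
      have h4 : D * (a - m * D' * c) = D * a - 14 * c * m := by rw [← hD]; ring
      have h5 := main D D' (a - m * D' * c) (b - m * D * d) c d hD h0
        (by linear_combination hdet) hn hc (by omega) (by omega)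
      have h6 := (G0_T m).mul h5
      convert h6 using 1
      · rw [h4]; ring
      · ring
      · ring
      · ring
      · ring
      · simp
    intro D D' a b c d hD h0 hdet hn
    have hn' : c ^ 2 * D' ≤ n := by push_cast at hn; omega
    rcases lt_trichotomy c 0 with hc | rfl | hc
    · have := (main2 D D' (-a) (-b) (-c) (-d) hD h0 (by linear_combination hdet)
        (by simpa using hn') (by omega)).neg
      simpa using this
    · have h1 : D * (a * d) = 1 := by linear_combination hdet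
      have h2 : D = 1 := Int.eq_one_of_mul_eq_one_right h0.le h1
      subst h2
      rcases Int.eq_one_or_neg_one_of_mul_eq_one' (show a * d = 1 by linarith) with
        ⟨rfl, rfl⟩ | ⟨rfl, rfl⟩
      · simpa [eps, sig] using G0_T b
      · simpa [eps, sig] using (G0_T (-b)).neg
    · exact main2 D D' a b c d hD h0 hdet hn' hc

theorem G0_all {D D' a b c d : ℤ} (hD : D * D' = 14) (h0 : 0 < D)
    (h : D * a * d - D' * b * c = 1) : G0 (D * a) b (14 * c) (D * d) (eps D) (sig D) :=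
  G0_all_aux ((c ^ 2 * D').toNat + 1) D D' a b c d hD h0 h (by push_cast; omega)

theorem G0_gamma {a b c d : ℤ} (h : a * d - b * c = 1) (hc : 14 ∣ c) : G0 a b c d 1 false := by
  obtain ⟨c, rfl⟩ := hc
  simpa [eps, sig] using G0_all (D := 1) (D' := 14) (a := a) (b := b) (c := c) (d := d)
    (by norm_num) (by norm_num) (by linear_combination h)

/-! ### Imaginary parts of periods -/

noncomputable def beta : ℝ := (FF (mob 4 1 14 4 I) - FF I).im

structure Good (a b c d ε m : ℤ) : Prop where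
  g0 : ∃ σ, G0 a b c d ε σ
  hF : ∀ z : ℂ, 0 < z.im → (FF (mob a b c d z)).im = ε * (FF z).im + m * beta

lemma Good.mul {a b c d ε m a' b' c' d' ε' m' : ℤ} (h : Good a b c d ε m)
    (h' : Good a' b' c' d' ε' m') :
    Good (a * a' + b * c') (a * b' + b * d') (c * a' + d * c') (c * b' + d * d') (ε * ε')
      (m + ε * m') := by
  obtain ⟨σ, g⟩ := h.g0
  obtain ⟨σ', g'⟩ := h'.g0
  refine ⟨⟨_, g.mul g'⟩, fun z hz => ?_⟩
  rw [← mob_mob _ _ _ _ (den_ne g'.det hz), h.hF _ (mob_im_pos g'.det hz), h'.hF z hz]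
  push_cast; ring

lemma FF_im_zero {z : ℂ} (hz : 0 < z.im) {n : ℤ} (h : -conj z = z + n) : (FF z).im = 0 := by
  have h1 := FF_neg_conj hz
  rw [h, FF_add_int] at h1
  exact conj_eq_iff_im.mp h1.symm

lemma FF_invol {a b c d : ℤ} {σ : Bool} (g : G0 a b c d (-1) σ) {w : ℂ} (hw : 0 < w.im)
    (hfix : mob a b c d w = w) {z : ℂ} (hz : 0 < z.im) :
    FF (mob a b c d z) = 2 * FF w - FF z := by
  have := FF_mob g.det g.hf hz hw
  rw [hfix] at this
  push_cast at this
  linear_combination this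

lemma good_invol {a b c d : ℤ} {σ : Bool} (g : G0 a b c d (-1) σ) {w : ℂ} (hw : 0 < w.im)
    (hfix : mob a b c d w = w) {n : ℤ} (h : -conj w = w + n) : Good a b c d (-1) 0 :=
  ⟨⟨_, g⟩, fun z hz => by rw [FF_invol g hw hfix hz]; simp [FF_im_zero hw h]⟩

lemma good_T (n : ℤ) : Good 1 n 0 1 1 0 :=
  ⟨⟨_, G0_T n⟩, fun z _ => by simp [mob_T, FF_add_int]⟩

lemma good_W14 : Good 0 (-1) 14 0 (-1) 0 := by
  have s14 : ((√14 : ℝ) : ℂ) ^ 2 = 14 := by
    rw [← ofReal_pow, Real.sq_sqrt (by norm_num)]; norm_num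
  have s0 : ((√14 : ℝ) : ℂ) ≠ 0 := by intro h; rw [h] at s14; norm_num at s14
  refine good_invol G0_W14 (w := I / √14) (by rw [div_ofReal_im]; simp) ?_ (n := 0) ?_
  · rw [mob]; push_cast; field_simp; linear_combination -s14 - 14 * I_sq
  · simp [neg_div]

noncomputable def z1 : ℂ := (7 + √7 * I) / 14

lemma z1_im : 0 < z1.im := by simp [z1]

lemma z1_fix : mob 7 (-4) 14 (-7) z1 = z1 := by
  simpa [z1] using (W7_fix (a := 1) (b := -4) (c := 1) (by norm_num) (by norm_num)).2.2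

lemma z1_conj : -conj z1 = z1 + (-1 : ℤ) := by
  simp [z1, map_ofNat]; ring

lemma good_W7a : Good 7 (-4) 14 (-7) (-1) 0 := good_invol G0_W7a z1_im z1_fix z1_conj

lemma good_W2i : Good 4 1 14 4 1 1 :=
  ⟨⟨_, G0_W2i⟩, fun z hz => by
    have := congrArg Complex.im (FF_mob G0_W2i.det G0_W2i.hf hz (show 0 < I.im by simp))
    simp only [beta, Int.cast_one, one_mul, sub_im] at this ⊢
    linarith⟩

lemma good_W2 : Good 4 (-1) (-14) 4 1 (-1) :=
  ⟨⟨_, G0_W2⟩, fun z hz => by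
    have := good_W2i.hF _ (mob_im_pos G0_W2.det hz)
    rw [mob_mob _ _ _ _ (den_ne G0_W2.det hz)] at this
    have h2 : mob (4 * 4 + 1 * -14) (4 * -1 + 1 * 4) (14 * 4 + 4 * -14) (14 * -1 + 4 * 4) z = z := by
      simp [mob]
    rw [h2] at this
    push_cast at this ⊢
    linarith⟩

/-- Generators, coded by integers: `4 k` is `T ^ k`. -/
def gen (n : ℤ) : ℤ × ℤ × ℤ × ℤ × ℤ × ℤ :=
  if n = 1 then (0, -1, 14, 0, -1, 0) else if n = 2 then (7, -4, 14, -7, -1, 0)
  else if n = 3 then (4, 1, 14, 4, 1, 1) else if n = -3 then (4, -1, -14, 4, 1, -1)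
  else (1, n / 4, 0, 1, 1, 0)

def mulG (x y : ℤ × ℤ × ℤ × ℤ × ℤ × ℤ) : ℤ × ℤ × ℤ × ℤ × ℤ × ℤ :=
  match x, y with
  | (a, b, c, d, ε, m), (a', b', c', d', ε', m') =>
    (a * a' + b * c', a * b' + b * d', c * a' + d * c', c * b' + d * d', ε * ε', m + ε * m')

def word : List ℤ → ℤ × ℤ × ℤ × ℤ × ℤ × ℤ
  | [] => (1, 0, 0, 1, 1, 0)
  | n :: l => mulG (gen n) (word l)

def GoodT (x : ℤ × ℤ × ℤ × ℤ × ℤ × ℤ) : Prop :=
  Good x.1 x.2.1 x.2.2.1 x.2.2.2.1 x.2.2.2.2.1 x.2.2.2.2.2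

lemma good_gen (n : ℤ) : GoodT (gen n) := by
  unfold gen
  split_ifs
  exacts [good_W14, good_W7a, good_W2i, good_W2, good_T _]

lemma good_word (l : List ℤ) : GoodT (word l) := by
  induction l with
  | nil => exact good_T 0
  | cons n l ih => exact Good.mul (good_gen n) ih

end Pool.Agent.Lib.MP_b18d48_nt
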