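import Pool.Agent.Lib.MP_b18d48_nt.Defs

/-!
The table of the coefficients `a_n`, `n ≤ 48`, of the curve 126a1.
-/

namespace Pool.Agent.Lib.MP_b18d48_nt

theorem EZ_Δ : EZ.Δ = -20412 := by
  simp [EZ, WeierstrassCurve.Δ, WeierstrassCurve.b₂, WeierstrassCurve.b₄, WeierstrassCurve.b₆,
    WeierstrassCurve.b₈]

theorem EZ_c₄ : EZ.c₄ = 225 := by
  simp [EZ, WeierstrassCurve.c₄, WeierstrassCurve.b₂, WeierstrassCurve.b₄]

theorem ap_EZ (p : ℕ) [NeZero p] : ap EZ p = (p : ℤ) -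
    ((Finset.univ.filter fun P : ZMod p × ZMod p =>
      P.2 ^ 2 + P.1 * P.2 + P.2 = P.1 ^ 3 - P.1 ^ 2 - 5 * P.1 - 7).card : ℕ) := by
  classical
  unfold ap
  rw [Nat.card_eq_fintype_card, Fintype.card_subtype]
  congr 3
  ext P
  simp only [Finset.mem_filter, Finset.mem_univ, true_and]
  rw [WeierstrassCurve.Affine.equation_iff]
  simp only [EZ, WeierstrassCurve.map_a₁, WeierstrassCurve.map_a₂, WeierstrassCurve.map_a₃,
    WeierstrassCurve.map_a₄, WeierstrassCurve.map_a₆, eq_intCast]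
  push_cast
  constructor <;> intro h <;> linear_combination h

theorem an_pow_mul (W : WeierstrassCurve ℤ) {p k m : ℕ} (hp : p.Prime) (_hk : k ≠ 0) (hm : m ≠ 0)
    (hpm : Nat.Coprime p m) : an W (p ^ k * m) = apow W p k * an W m := by
  have h1 : p ^ k ≠ 0 := pow_ne_zero _ hp.ne_zero
  have hc : Nat.Coprime (p ^ k) m := Nat.Coprime.pow_left _ hpm
  unfold an
  rw [if_neg (mul_ne_zero h1 hm), if_neg hm, Nat.factorization_mul_of_coprime hc,
    Finsupp.prod_add_index_of_disjoint, hp.factorization_pow, Finsupp.prod_single_index]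
  · rfl
  · rw [Nat.support_factorization, Nat.support_factorization]
    exact hc.disjoint_primeFactors

theorem an_one (W : WeierstrassCurve ℤ) : an W 1 = 1 := by simp [an]

theorem an_zero (W : WeierstrassCurve ℤ) : an W 0 = 0 := by simp [an]

theorem ap_2 : ap EZ 2 = 1 := by
  rw [ap_EZ]
  have : (Finset.univ.filter fun P : ZMod 2 × ZMod 2 =>
      P.2 ^ 2 + P.1 * P.2 + P.2 = P.1 ^ 3 - P.1 ^ 2 - 5 * P.1 - 7).card = 1 := by decide +kernel
  rw [this]; norm_num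

theorem ap_3 : ap EZ 3 = 0 := by
  rw [ap_EZ]
  have : (Finset.univ.filter fun P : ZMod 3 × ZMod 3 =>
      P.2 ^ 2 + P.1 * P.2 + P.2 = P.1 ^ 3 - P.1 ^ 2 - 5 * P.1 - 7).card = 3 := by decide +kernel
  rw [this]; norm_num

theorem ap_5 : ap EZ 5 = 0 := by
  rw [ap_EZ]
  have : (Finset.univ.filter fun P : ZMod 5 × ZMod 5 =>
      P.2 ^ 2 + P.1 * P.2 + P.2 = P.1 ^ 3 - P.1 ^ 2 - 5 * P.1 - 7).card = 5 := by decide +kernel
  rw [this]; norm_num

theorem ap_7 : ap EZ 7 = 1 := by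
  rw [ap_EZ]
  have : (Finset.univ.filter fun P : ZMod 7 × ZMod 7 =>
      P.2 ^ 2 + P.1 * P.2 + P.2 = P.1 ^ 3 - P.1 ^ 2 - 5 * P.1 - 7).card = 6 := by decide +kernel
  rw [this]; norm_num

theorem ap_11 : ap EZ 11 = 0 := by
  rw [ap_EZ]
  have : (Finset.univ.filter fun P : ZMod 11 × ZMod 11 =>
      P.2 ^ 2 + P.1 * P.2 + P.2 = P.1 ^ 3 - P.1 ^ 2 - 5 * P.1 - 7).card = 11 := by decide +kernel
  rw [this]; norm_num

theorem ap_13 : ap EZ 13 = -4 := by
  rw [ap_EZ]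
  have : (Finset.univ.filter fun P : ZMod 13 × ZMod 13 =>
      P.2 ^ 2 + P.1 * P.2 + P.2 = P.1 ^ 3 - P.1 ^ 2 - 5 * P.1 - 7).card = 17 := by decide +kernel
  rw [this]; norm_num

theorem ap_17 : ap EZ 17 = -6 := by
  rw [ap_EZ]
  have : (Finset.univ.filter fun P : ZMod 17 × ZMod 17 =>
      P.2 ^ 2 + P.1 * P.2 + P.2 = P.1 ^ 3 - P.1 ^ 2 - 5 * P.1 - 7).card = 23 := by decide +kernel
  rw [this]; norm_num

theorem ap_19 : ap EZ 19 = 2 := by
  rw [ap_EZ]
  have : (Finset.univ.filter fun P : ZMod 19 × ZMod 19 =>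
      P.2 ^ 2 + P.1 * P.2 + P.2 = P.1 ^ 3 - P.1 ^ 2 - 5 * P.1 - 7).card = 17 := by decide +kernel
  rw [this]; norm_num

theorem ap_23 : ap EZ 23 = 0 := by
  rw [ap_EZ]
  have : (Finset.univ.filter fun P : ZMod 23 × ZMod 23 =>
      P.2 ^ 2 + P.1 * P.2 + P.2 = P.1 ^ 3 - P.1 ^ 2 - 5 * P.1 - 7).card = 23 := by decide +kernel
  rw [this]; norm_num

theorem ap_29 : ap EZ 29 = 6 := by
  rw [ap_EZ]
  have : (Finset.univ.filter fun P : ZMod 29 × ZMod 29 =>
      P.2 ^ 2 + P.1 * P.2 + P.2 = P.1 ^ 3 - P.1 ^ 2 - 5 * P.1 - 7).card = 23 := by decide +kernel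
  rw [this]; norm_num

theorem ap_31 : ap EZ 31 = -4 := by
  rw [ap_EZ]
  have : (Finset.univ.filter fun P : ZMod 31 × ZMod 31 =>
      P.2 ^ 2 + P.1 * P.2 + P.2 = P.1 ^ 3 - P.1 ^ 2 - 5 * P.1 - 7).card = 35 := by decide +kernel
  rw [this]; norm_num

theorem ap_37 : ap EZ 37 = 2 := by
  rw [ap_EZ]
  have : (Finset.univ.filter fun P : ZMod 37 × ZMod 37 =>
      P.2 ^ 2 + P.1 * P.2 + P.2 = P.1 ^ 3 - P.1 ^ 2 - 5 * P.1 - 7).card = 35 := by decide +kernel
  rw [this]; norm_num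

theorem ap_41 : ap EZ 41 = -6 := by
  rw [ap_EZ]
  have : (Finset.univ.filter fun P : ZMod 41 × ZMod 41 =>
      P.2 ^ 2 + P.1 * P.2 + P.2 = P.1 ^ 3 - P.1 ^ 2 - 5 * P.1 - 7).card = 47 := by decide +kernel
  rw [this]; norm_num

theorem ap_43 : ap EZ 43 = 8 := by
  rw [ap_EZ]
  have : (Finset.univ.filter fun P : ZMod 43 × ZMod 43 =>
      P.2 ^ 2 + P.1 * P.2 + P.2 = P.1 ^ 3 - P.1 ^ 2 - 5 * P.1 - 7).card = 35 := by decide +kernel
  rw [this]; norm_num

theorem ap_47 : ap EZ 47 = 12 := by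
  rw [ap_EZ]
  have : (Finset.univ.filter fun P : ZMod 47 × ZMod 47 =>
      P.2 ^ 2 + P.1 * P.2 + P.2 = P.1 ^ 3 - P.1 ^ 2 - 5 * P.1 - 7).card = 35 := by decide +kernel
  rw [this]; norm_num

theorem an_2 : an EZ 2 = 1 := by
  rw [show (2 : ℕ) = 2 ^ 1 * 1 by norm_num, an_pow_mul EZ (by norm_num) (by norm_num) (by norm_num)
    (by norm_num), an_one]
  norm_num [apow, ap_2, EZ_Δ]

theorem an_3 : an EZ 3 = 0 := by
  rw [show (3 : ℕ) = 3 ^ 1 * 1 by norm_num, an_pow_mul EZ (by norm_num) (by norm_num) (by norm_num)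
    (by norm_num), an_one]
  norm_num [apow, ap_3, EZ_Δ]

theorem an_4 : an EZ 4 = 1 := by
  rw [show (4 : ℕ) = 2 ^ 2 * 1 by norm_num, an_pow_mul EZ (by norm_num) (by norm_num) (by norm_num)
    (by norm_num), an_one]
  norm_num [apow, ap_2, EZ_Δ]

theorem an_5 : an EZ 5 = 0 := by
  rw [show (5 : ℕ) = 5 ^ 1 * 1 by norm_num, an_pow_mul EZ (by norm_num) (by norm_num) (by norm_num)
    (by norm_num), an_one]
  norm_num [apow, ap_5, EZ_Δ]

theorem an_6 : an EZ 6 = 0 := by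
  rw [show (6 : ℕ) = 2 ^ 1 * 3 by norm_num, an_pow_mul EZ (by norm_num) (by norm_num) (by norm_num)
    (by norm_num), an_3]
  norm_num [apow, ap_2, EZ_Δ]

theorem an_7 : an EZ 7 = 1 := by
  rw [show (7 : ℕ) = 7 ^ 1 * 1 by norm_num, an_pow_mul EZ (by norm_num) (by norm_num) (by norm_num)
    (by norm_num), an_one]
  norm_num [apow, ap_7, EZ_Δ]

theorem an_8 : an EZ 8 = 1 := by
  rw [show (8 : ℕ) = 2 ^ 3 * 1 by norm_num, an_pow_mul EZ (by norm_num) (by norm_num) (by norm_num)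
    (by norm_num), an_one]
  norm_num [apow, ap_2, EZ_Δ]

theorem an_9 : an EZ 9 = 0 := by
  rw [show (9 : ℕ) = 3 ^ 2 * 1 by norm_num, an_pow_mul EZ (by norm_num) (by norm_num) (by norm_num)
    (by norm_num), an_one]
  norm_num [apow, ap_3, EZ_Δ]

theorem an_10 : an EZ 10 = 0 := by
  rw [show (10 : ℕ) = 2 ^ 1 * 5 by norm_num, an_pow_mul EZ (by norm_num) (by norm_num) (by norm_num)
    (by norm_num), an_5]
  norm_num [apow, ap_2, EZ_Δ]

theorem an_11 : an EZ 11 = 0 := by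
  rw [show (11 : ℕ) = 11 ^ 1 * 1 by norm_num, an_pow_mul EZ (by norm_num) (by norm_num) (by norm_num)
    (by norm_num), an_one]
  norm_num [apow, ap_11, EZ_Δ]

theorem an_12 : an EZ 12 = 0 := by
  rw [show (12 : ℕ) = 2 ^ 2 * 3 by norm_num, an_pow_mul EZ (by norm_num) (by norm_num) (by norm_num)
    (by norm_num), an_3]
  norm_num [apow, ap_2, EZ_Δ]

theorem an_13 : an EZ 13 = -4 := by
  rw [show (13 : ℕ) = 13 ^ 1 * 1 by norm_num, an_pow_mul EZ (by norm_num) (by norm_num) (by norm_num)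
    (by norm_num), an_one]
  norm_num [apow, ap_13, EZ_Δ]

theorem an_14 : an EZ 14 = 1 := by
  rw [show (14 : ℕ) = 2 ^ 1 * 7 by norm_num, an_pow_mul EZ (by norm_num) (by norm_num) (by norm_num)
    (by norm_num), an_7]
  norm_num [apow, ap_2, EZ_Δ]

theorem an_15 : an EZ 15 = 0 := by
  rw [show (15 : ℕ) = 3 ^ 1 * 5 by norm_num, an_pow_mul EZ (by norm_num) (by norm_num) (by norm_num)
    (by norm_num), an_5]
  norm_num [apow, ap_3, EZ_Δ]

theorem an_16 : an EZ 16 = 1 := by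
  rw [show (16 : ℕ) = 2 ^ 4 * 1 by norm_num, an_pow_mul EZ (by norm_num) (by norm_num) (by norm_num)
    (by norm_num), an_one]
  norm_num [apow, ap_2, EZ_Δ]

theorem an_17 : an EZ 17 = -6 := by
  rw [show (17 : ℕ) = 17 ^ 1 * 1 by norm_num, an_pow_mul EZ (by norm_num) (by norm_num) (by norm_num)
    (by norm_num), an_one]
  norm_num [apow, ap_17, EZ_Δ]

theorem an_18 : an EZ 18 = 0 := by
  rw [show (18 : ℕ) = 2 ^ 1 * 9 by norm_num, an_pow_mul EZ (by norm_num) (by norm_num) (by norm_num)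
    (by norm_num), an_9]
  norm_num [apow, ap_2, EZ_Δ]

theorem an_19 : an EZ 19 = 2 := by
  rw [show (19 : ℕ) = 19 ^ 1 * 1 by norm_num, an_pow_mul EZ (by norm_num) (by norm_num) (by norm_num)
    (by norm_num), an_one]
  norm_num [apow, ap_19, EZ_Δ]

theorem an_20 : an EZ 20 = 0 := by
  rw [show (20 : ℕ) = 2 ^ 2 * 5 by norm_num, an_pow_mul EZ (by norm_num) (by norm_num) (by norm_num)
    (by norm_num), an_5]
  norm_num [apow, ap_2, EZ_Δ]

theorem an_21 : an EZ 21 = 0 := by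
  rw [show (21 : ℕ) = 3 ^ 1 * 7 by norm_num, an_pow_mul EZ (by norm_num) (by norm_num) (by norm_num)
    (by norm_num), an_7]
  norm_num [apow, ap_3, EZ_Δ]

theorem an_22 : an EZ 22 = 0 := by
  rw [show (22 : ℕ) = 2 ^ 1 * 11 by norm_num, an_pow_mul EZ (by norm_num) (by norm_num) (by norm_num)
    (by norm_num), an_11]
  norm_num [apow, ap_2, EZ_Δ]

theorem an_23 : an EZ 23 = 0 := by
  rw [show (23 : ℕ) = 23 ^ 1 * 1 by norm_num, an_pow_mul EZ (by norm_num) (by norm_num) (by norm_num)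
    (by norm_num), an_one]
  norm_num [apow, ap_23, EZ_Δ]

theorem an_24 : an EZ 24 = 0 := by
  rw [show (24 : ℕ) = 2 ^ 3 * 3 by norm_num, an_pow_mul EZ (by norm_num) (by norm_num) (by norm_num)
    (by norm_num), an_3]
  norm_num [apow, ap_2, EZ_Δ]

theorem an_25 : an EZ 25 = -5 := by
  rw [show (25 : ℕ) = 5 ^ 2 * 1 by norm_num, an_pow_mul EZ (by norm_num) (by norm_num) (by norm_num)
    (by norm_num), an_one]
  norm_num [apow, ap_5, EZ_Δ]

theorem an_26 : an EZ 26 = -4 := by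
  rw [show (26 : ℕ) = 2 ^ 1 * 13 by norm_num, an_pow_mul EZ (by norm_num) (by norm_num) (by norm_num)
    (by norm_num), an_13]
  norm_num [apow, ap_2, EZ_Δ]

theorem an_27 : an EZ 27 = 0 := by
  rw [show (27 : ℕ) = 3 ^ 3 * 1 by norm_num, an_pow_mul EZ (by norm_num) (by norm_num) (by norm_num)
    (by norm_num), an_one]
  norm_num [apow, ap_3, EZ_Δ]

theorem an_28 : an EZ 28 = 1 := by
  rw [show (28 : ℕ) = 2 ^ 2 * 7 by norm_num, an_pow_mul EZ (by norm_num) (by norm_num) (by norm_num)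
    (by norm_num), an_7]
  norm_num [apow, ap_2, EZ_Δ]

theorem an_29 : an EZ 29 = 6 := by
  rw [show (29 : ℕ) = 29 ^ 1 * 1 by norm_num, an_pow_mul EZ (by norm_num) (by norm_num) (by norm_num)
    (by norm_num), an_one]
  norm_num [apow, ap_29, EZ_Δ]

theorem an_30 : an EZ 30 = 0 := by
  rw [show (30 : ℕ) = 2 ^ 1 * 15 by norm_num, an_pow_mul EZ (by norm_num) (by norm_num) (by norm_num)
    (by norm_num), an_15]
  norm_num [apow, ap_2, EZ_Δ]

theorem an_31 : an EZ 31 = -4 := by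
  rw [show (31 : ℕ) = 31 ^ 1 * 1 by norm_num, an_pow_mul EZ (by norm_num) (by norm_num) (by norm_num)
    (by norm_num), an_one]
  norm_num [apow, ap_31, EZ_Δ]

theorem an_32 : an EZ 32 = 1 := by
  rw [show (32 : ℕ) = 2 ^ 5 * 1 by norm_num, an_pow_mul EZ (by norm_num) (by norm_num) (by norm_num)
    (by norm_num), an_one]
  norm_num [apow, ap_2, EZ_Δ]

theorem an_33 : an EZ 33 = 0 := by
  rw [show (33 : ℕ) = 3 ^ 1 * 11 by norm_num, an_pow_mul EZ (by norm_num) (by norm_num) (by norm_num)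
    (by norm_num), an_11]
  norm_num [apow, ap_3, EZ_Δ]

theorem an_34 : an EZ 34 = -6 := by
  rw [show (34 : ℕ) = 2 ^ 1 * 17 by norm_num, an_pow_mul EZ (by norm_num) (by norm_num) (by norm_num)
    (by norm_num), an_17]
  norm_num [apow, ap_2, EZ_Δ]

theorem an_35 : an EZ 35 = 0 := by
  rw [show (35 : ℕ) = 5 ^ 1 * 7 by norm_num, an_pow_mul EZ (by norm_num) (by norm_num) (by norm_num)
    (by norm_num), an_7]
  norm_num [apow, ap_5, EZ_Δ]

theorem an_36 : an EZ 36 = 0 := by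
  rw [show (36 : ℕ) = 2 ^ 2 * 9 by norm_num, an_pow_mul EZ (by norm_num) (by norm_num) (by norm_num)
    (by norm_num), an_9]
  norm_num [apow, ap_2, EZ_Δ]

theorem an_37 : an EZ 37 = 2 := by
  rw [show (37 : ℕ) = 37 ^ 1 * 1 by norm_num, an_pow_mul EZ (by norm_num) (by norm_num) (by norm_num)
    (by norm_num), an_one]
  norm_num [apow, ap_37, EZ_Δ]

theorem an_38 : an EZ 38 = 2 := by
  rw [show (38 : ℕ) = 2 ^ 1 * 19 by norm_num, an_pow_mul EZ (by norm_num) (by norm_num) (by norm_num)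
    (by norm_num), an_19]
  norm_num [apow, ap_2, EZ_Δ]

theorem an_39 : an EZ 39 = 0 := by
  rw [show (39 : ℕ) = 3 ^ 1 * 13 by norm_num, an_pow_mul EZ (by norm_num) (by norm_num) (by norm_num)
    (by norm_num), an_13]
  norm_num [apow, ap_3, EZ_Δ]

theorem an_40 : an EZ 40 = 0 := by
  rw [show (40 : ℕ) = 2 ^ 3 * 5 by norm_num, an_pow_mul EZ (by norm_num) (by norm_num) (by norm_num)
    (by norm_num), an_5]
  norm_num [apow, ap_2, EZ_Δ]

theorem an_41 : an EZ 41 = -6 := by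
  rw [show (41 : ℕ) = 41 ^ 1 * 1 by norm_num, an_pow_mul EZ (by norm_num) (by norm_num) (by norm_num)
    (by norm_num), an_one]
  norm_num [apow, ap_41, EZ_Δ]

theorem an_42 : an EZ 42 = 0 := by
  rw [show (42 : ℕ) = 2 ^ 1 * 21 by norm_num, an_pow_mul EZ (by norm_num) (by norm_num) (by norm_num)
    (by norm_num), an_21]
  norm_num [apow, ap_2, EZ_Δ]

theorem an_43 : an EZ 43 = 8 := by
  rw [show (43 : ℕ) = 43 ^ 1 * 1 by norm_num, an_pow_mul EZ (by norm_num) (by norm_num) (by norm_num)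
    (by norm_num), an_one]
  norm_num [apow, ap_43, EZ_Δ]

theorem an_44 : an EZ 44 = 0 := by
  rw [show (44 : ℕ) = 2 ^ 2 * 11 by norm_num, an_pow_mul EZ (by norm_num) (by norm_num) (by norm_num)
    (by norm_num), an_11]
  norm_num [apow, ap_2, EZ_Δ]

theorem an_45 : an EZ 45 = 0 := by
  rw [show (45 : ℕ) = 3 ^ 2 * 5 by norm_num, an_pow_mul EZ (by norm_num) (by norm_num) (by norm_num)
    (by norm_num), an_5]
  norm_num [apow, ap_3, EZ_Δ]

theorem an_46 : an EZ 46 = 0 := by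
  rw [show (46 : ℕ) = 2 ^ 1 * 23 by norm_num, an_pow_mul EZ (by norm_num) (by norm_num) (by norm_num)
    (by norm_num), an_23]
  norm_num [apow, ap_2, EZ_Δ]

theorem an_47 : an EZ 47 = 12 := by
  rw [show (47 : ℕ) = 47 ^ 1 * 1 by norm_num, an_pow_mul EZ (by norm_num) (by norm_num) (by norm_num)
    (by norm_num), an_one]
  norm_num [apow, ap_47, EZ_Δ]

theorem an_48 : an EZ 48 = 0 := by
  rw [show (48 : ℕ) = 2 ^ 4 * 3 by norm_num, an_pow_mul EZ (by norm_num) (by norm_num) (by norm_num)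
    (by norm_num), an_3]
  norm_num [apow, ap_2, EZ_Δ]

theorem an_table : ∀ n ≤ 48, an EZ n = [0,1,1,0,1,0,0,1,1,0,0,0,0,-4,1,0,1,-6,0,2,0,0,0,0,0,-5,-4,0,1,6,0,-4,1,0,-6,0,0,2,2,0,0,-6,0,8,0,0,0,12,0].getD n 0 := by
  intro n hn
  interval_cases n
  · exact an_zero _
  · exact an_one _
  · exact an_2
  · exact an_3
  · exact an_4
  · exact an_5
  · exact an_6
  · exact an_7
  · exact an_8
  · exact an_9
  · exact an_10
  · exact an_11
  · exact an_12
  · exact an_13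
  · exact an_14
  · exact an_15
  · exact an_16
  · exact an_17
  · exact an_18
  · exact an_19
  · exact an_20
  · exact an_21
  · exact an_22
  · exact an_23
  · exact an_24
  · exact an_25
  · exact an_26
  · exact an_27
  · exact an_28
  · exact an_29
  · exact an_30
  · exact an_31
  · exact an_32
  · exact an_33
  · exact an_34
  · exact an_35
  · exact an_36
  · exact an_37
  · exact an_38
  · exact an_39
  · exact an_40
  · exact an_41
  · exact an_42
  · exact an_43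
  · exact an_44
  · exact an_45
  · exact an_46
  · exact an_47
  · exact an_48

end Pool.Agent.Lib.MP_b18d48_nt
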