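import Pool.Agent.Lib.MP_b18d48_nt.Defs

/-!
The period integral `I7`: integrability, a lower bound, and its relation to the real period.
-/

namespace Pool.Agent.Lib.MP_b18d48_nt

open MeasureTheory Set

theorem negQ_pos {t : ℝ} (h1 : -8 < t) (h2 : t < -1) : 0 < negQ t :=
  mul_pos (mul_pos (by linarith) (by linarith)) (by nlinarith [sq_nonneg (2 * t + 5)])

theorem one_div_sqrt_eq {a : ℝ} (ha : 0 ≤ a) : 1 / Real.sqrt a = a ^ (-(1 / 2) : ℝ) := by
  rw [Real.sqrt_eq_rpow, Real.rpow_neg ha, one_div]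

theorem negQ_intervalIntegrable :
    IntervalIntegrable (fun t => 1 / Real.sqrt (negQ t)) MeasureTheory.volume (-8) (-1) := by
  have h1 : IntervalIntegrable (fun t : ℝ => (t + 8) ^ (-(1 / 2) : ℝ)) volume (-8) (-1) := by
    have := (intervalIntegral.intervalIntegrable_rpow' (a := 0) (b := 7) (r := -(1 / 2))
      (by norm_num)).comp_add_right 8
    norm_num at this ⊢
    exact this
  have h2 : IntervalIntegrable (fun t : ℝ => (-1 - t) ^ (-(1 / 2) : ℝ)) volume (-8) (-1) := by
    have := (intervalIntegral.intervalIntegrable_rpow' (a := 7) (b := 0) (r := -(1 / 2))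
      (by norm_num)).comp_sub_left (-1)
    norm_num at this ⊢
    exact this
  have hm : Measurable fun t => 1 / Real.sqrt (negQ t) := by
    unfold negQ
    fun_prop
  refine (h1.add h2).mono_fun' hm.aestronglyMeasurable ?_
  rw [uIoc_of_le (by norm_num), ← Measure.restrict_congr_set Ioo_ae_eq_Ioc]
  refine (ae_restrict_iff' measurableSet_Ioo).2 (Filter.Eventually.of_forall fun t ht => ?_)
  have ha : 0 < t + 8 := by linarith [ht.1]
  have hb : 0 < -1 - t := by linarith [ht.2]
  have hq : 1 ≤ t ^ 2 + 5 * t + 8 := by nlinarith [sq_nonneg (2 * t + 5)]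
  dsimp only
  rw [Real.norm_of_nonneg (by positivity), ← one_div_sqrt_eq ha.le, ← one_div_sqrt_eq hb.le]
  have key : ∀ a : ℝ, 0 < a → a ≤ negQ t → 1 / Real.sqrt (negQ t) ≤ 1 / Real.sqrt a :=
    fun a ha h => one_div_le_one_div_of_le (Real.sqrt_pos.2 ha) (Real.sqrt_le_sqrt h)
  rcases le_total t (-4) with h | h
  · refine (key _ ha ?_).trans (le_add_of_nonneg_right (by positivity))
    have : 1 ≤ (-1 - t) * (t ^ 2 + 5 * t + 8) := one_le_mul_of_one_le_of_one_le (by linarith) hq
    unfold negQ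
    nlinarith
  · refine (key _ hb ?_).trans (le_add_of_nonneg_left (by positivity))
    have : 1 ≤ (t + 8) * (t ^ 2 + 5 * t + 8) := one_le_mul_of_one_le_of_one_le (by linarith) hq
    unfold negQ
    nlinarith

theorem negQ_sub {a b : ℝ} (ha : -8 ≤ a) (hab : a ≤ b) (hb : b ≤ -1) :
    IntervalIntegrable (fun t => 1 / Real.sqrt (negQ t)) volume a b :=
  negQ_intervalIntegrable.mono_set (by
    rw [uIcc_of_le hab, uIcc_of_le (by norm_num)]
    exact Icc_subset_Icc ha hb)

theorem piece {a b c : ℝ} (ha : -8 ≤ a) (hab : a ≤ b) (hb : b ≤ -1) (hc : 0 < c)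
    (h : ∀ t, a < t → t < b → negQ t ≤ c ^ 2) :
    (b - a) / c ≤ ∫ t in a..b, 1 / Real.sqrt (negQ t) := by
  have := intervalIntegral.integral_mono_on_of_le_Ioo (f := fun _ => 1 / c) hab
    intervalIntegrable_const (negQ_sub ha hab hb) fun t ht =>
      one_div_le_one_div_of_le
        (Real.sqrt_pos.2 (negQ_pos (by linarith [ht.1]) (by linarith [ht.2])))
        (Real.sqrt_le_iff.2 ⟨hc.le, h t ht.1 ht.2⟩)
  rwa [intervalIntegral.integral_const, smul_eq_mul, mul_one_div] at this

theorem I7_gt : (0.95 : ℝ) < I7 := by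
  have p1 := piece (a := -8) (b := -5) (c := 25 / 2) (by norm_num) (by norm_num) (by norm_num)
    (by norm_num) fun t _ _ => by
      unfold negQ
      nlinarith [sq_nonneg (t ^ 2 + 7 * t + 4), sq_nonneg (t + 7)]
  have p2 := piece (a := -5) (b := -4) (c := 10) (by norm_num) (by norm_num) (by norm_num)
    (by norm_num) fun t h1 h2 => by
      have : negQ t ≤ 49 / 4 * 8 := mul_le_mul (by nlinarith [sq_nonneg (2 * t + 9)])
        (by nlinarith) (by nlinarith [sq_nonneg (2 * t + 5)]) (by norm_num)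
      linarith
  have p3 := piece (a := -4) (b := -3) (c := 7) (by norm_num) (by norm_num) (by norm_num)
    (by norm_num) fun t h1 h2 => by
      have : negQ t ≤ 12 * 4 := mul_le_mul (by nlinarith)
        (by nlinarith) (by nlinarith [sq_nonneg (2 * t + 5)]) (by norm_num)
      linarith
  have p4 := piece (a := -3) (b := -2) (c := 23 / 5) (by norm_num) (by norm_num) (by norm_num)
    (by norm_num) fun t h1 h2 => by
      have : negQ t ≤ 10 * 2 := mul_le_mul (by nlinarith)
        (by nlinarith) (by nlinarith [sq_nonneg (2 * t + 5)]) (by norm_num)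
      linarith
  have p5 := piece (a := -2) (b := -1) (c := 18 / 5) (by norm_num) (by norm_num) (by norm_num)
    (by norm_num) fun t h1 h2 => by
      have hu : 0 < t + 2 := by linarith
      have e : negQ t = 12 - (4 * (t + 2) + (t + 2) ^ 2 + 6 * (t + 2) ^ 3 + (t + 2) ^ 4) := by
        unfold negQ
        ring
      have : 0 ≤ 4 * (t + 2) + (t + 2) ^ 2 + 6 * (t + 2) ^ 3 + (t + 2) ^ 4 := by positivity
      linarith
  have s1 := intervalIntegral.integral_add_adjacent_intervals
    (negQ_sub (a := -8) (b := -5) (by norm_num) (by norm_num) (by norm_num))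
    (negQ_sub (a := -5) (b := -1) (by norm_num) (by norm_num) (by norm_num))
  have s2 := intervalIntegral.integral_add_adjacent_intervals
    (negQ_sub (a := -5) (b := -4) (by norm_num) (by norm_num) (by norm_num))
    (negQ_sub (a := -4) (b := -1) (by norm_num) (by norm_num) (by norm_num))
  have s3 := intervalIntegral.integral_add_adjacent_intervals
    (negQ_sub (a := -4) (b := -3) (by norm_num) (by norm_num) (by norm_num))
    (negQ_sub (a := -3) (b := -1) (by norm_num) (by norm_num) (by norm_num))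
  have s4 := intervalIntegral.integral_add_adjacent_intervals
    (negQ_sub (a := -3) (b := -2) (by norm_num) (by norm_num) (by norm_num))
    (negQ_sub (a := -2) (b := -1) (by norm_num) (by norm_num) (by norm_num))
  unfold I7
  linarith

theorem psi_EQ (x : ℝ) : psi EQ x = (x - 3) * (4 * x ^ 2 + 9 * x + 9) := by
  simp only [psi, EQ, WeierstrassCurve.b₂, WeierstrassCurve.b₄, WeierstrassCurve.b₆]
  push_cast
  ring

theorem psi_pos_iff (x : ℝ) : 0 < psi EQ x ↔ 3 < x := by
  have h : 0 < 4 * x ^ 2 + 9 * x + 9 := by nlinarith [sq_nonneg (8 * x + 9)]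
  rw [psi_EQ, mul_pos_iff_of_pos_right h, sub_pos]

/-- The substitution given by a 3-isogeny. -/
noncomputable def subT (x : ℝ) : ℝ := -1 - 21 * x ^ 2 / (x ^ 3 + 6 * x ^ 2 - 9 * x - 27)

/-- The derivative of the substitution. -/
noncomputable def subT' (x : ℝ) : ℝ :=
  21 * x * (x ^ 3 + 9 * x + 54) / (x ^ 3 + 6 * x ^ 2 - 9 * x - 27) ^ 2

theorem den_pos {x : ℝ} (hx : 3 ≤ x) : 0 < x ^ 3 + 6 * x ^ 2 - 9 * x - 27 := by
  have : 0 < x ^ 3 := by positivity
  nlinarith

theorem hasDerivAt_subT {x : ℝ} (hx : 3 < x) : HasDerivAt subT (subT' x) x := by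
  have hD := (den_pos hx.le).ne'
  have h1 : HasDerivAt (fun x : ℝ => 21 * x ^ 2) (42 * x) x := by
    refine ((hasDerivAt_pow 2 x).const_mul 21).congr_deriv ?_
    norm_num
    ring
  have h2 : HasDerivAt (fun x : ℝ => x ^ 3 + 6 * x ^ 2 - 9 * x - 27) (3 * x ^ 2 + 12 * x - 9) x := by
    refine ((((hasDerivAt_pow 3 x).add ((hasDerivAt_pow 2 x).const_mul 6)).sub
      ((hasDerivAt_id x).const_mul 9)).sub_const 27).congr_deriv ?_
    norm_num
    ring
  refine ((h1.div h2 hD).const_sub (-1)).congr_deriv ?_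
  unfold subT'
  field_simp
  ring

theorem injOn_subT : InjOn subT (Ioi 3) := by
  intro x hx y hy h
  have hx' : (3 : ℝ) < x := hx
  have hy' : (3 : ℝ) < y := hy
  have h1 : 21 * x ^ 2 / (x ^ 3 + 6 * x ^ 2 - 9 * x - 27) =
      21 * y ^ 2 / (y ^ 3 + 6 * y ^ 2 - 9 * y - 27) := by
    unfold subT at h
    linarith
  rw [div_eq_div_iff (den_pos hx'.le).ne' (den_pos hy'.le).ne'] at h1
  have h2 : (y - x) * (x ^ 2 * y ^ 2 + 9 * (x * y) + 27 * (x + y)) = 0 := by
    linear_combination h1 / 21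
  have h3 : 0 < x ^ 2 * y ^ 2 + 9 * (x * y) + 27 * (x + y) := by positivity
  linarith [(mul_eq_zero.1 h2).resolve_right h3.ne']

theorem image_subT : subT '' Ioi 3 = Ioo (-8) (-1) := by
  ext t
  constructor
  · rintro ⟨x, hx, rfl⟩
    have hx' : (3 : ℝ) < x := hx
    have hD := den_pos hx'.le
    have h1 : 21 * x ^ 2 / (x ^ 3 + 6 * x ^ 2 - 9 * x - 27) < 7 := by
      rw [div_lt_iff₀ hD]
      nlinarith [mul_pos (sub_pos.2 hx') (show 0 < (x + 3) ^ 2 by positivity)]
    have h2 : 0 < 21 * x ^ 2 / (x ^ 3 + 6 * x ^ 2 - 9 * x - 27) := by positivity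
    unfold subT
    exact ⟨by linarith, by linarith⟩
  · rintro ⟨h1, h2⟩
    set s := -1 - t with hs
    have hs0 : 0 < s := by linarith
    have hX : (3 : ℝ) ≤ 3 + 21 / s := le_add_of_nonneg_right (by positivity)
    have hc : ContinuousOn (fun x : ℝ => s * (x ^ 3 + 6 * x ^ 2 - 9 * x - 27) - 21 * x ^ 2)
        (Icc 3 (3 + 21 / s)) := by fun_prop
    obtain ⟨x, hx, e⟩ := intermediate_value_Ioo hX hc (show (0 : ℝ) ∈ _ from ⟨by
      linarith, by
      set X := 3 + 21 / s with hXd
      have e1 : s * X = 3 * s + 21 := by rw [hXd]; field_simp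
      have e2 : 0 ≤ s * (6 * X ^ 2 - 9 * X - 27) := mul_nonneg hs0.le (by nlinarith)
      have e3 : 0 < s * X ^ 2 := by positivity
      have e4 : s * X ^ 3 = (3 * s + 21) * X ^ 2 := by rw [← e1]; ring
      nlinarith⟩)
    refine ⟨x, hx.1, ?_⟩
    have hD := den_pos hx.1.le
    have e' : 21 * x ^ 2 / (x ^ 3 + 6 * x ^ 2 - 9 * x - 27) = s := by
      rw [div_eq_iff hD.ne']
      dsimp only at e
      linarith
    rw [subT, e', hs]
    ring

theorem negQ_subT {x : ℝ} (hx : 3 < x) : negQ (subT x) = psi EQ x * subT' x ^ 2 / 3 := by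
  have hD := (den_pos hx.le).ne'
  rw [psi_EQ]
  unfold negQ subT subT'
  obtain ⟨D, hDd⟩ : ∃ D, D = x ^ 3 + 6 * x ^ 2 - 9 * x - 27 := ⟨_, rfl⟩
  rw [← hDd] at hD ⊢
  field_simp
  rw [hDd]
  ring

theorem I7_eq : I7 = Real.sqrt 3 * Omega EQ := by
  have hset : {x : ℝ | 0 < psi EQ x} = Ioi 3 := Set.ext psi_pos_iff
  rw [I7, intervalIntegral.integral_of_le (by norm_num), integral_Ioc_eq_integral_Ioo,
    ← image_subT, integral_image_eq_integral_abs_deriv_smul measurableSet_Ioi
      (fun x hx => (hasDerivAt_subT hx).hasDerivWithinAt) injOn_subT, Omega, hset,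
    ← integral_const_mul]
  refine setIntegral_congr_fun measurableSet_Ioi fun x hx => ?_
  have hx' : (3 : ℝ) < x := hx
  have hD := den_pos hx'.le
  have hp : 0 < subT' x := by
    unfold subT'
    positivity
  have h3 : 0 < Real.sqrt 3 := by positivity
  have h4 : 0 < Real.sqrt (psi EQ x) := Real.sqrt_pos.2 ((psi_pos_iff x).2 hx')
  rw [negQ_subT hx', Real.sqrt_div' _ (by norm_num), Real.sqrt_mul' _ (by positivity),
    Real.sqrt_sq hp.le, abs_of_pos hp, smul_eq_mul]
  field_simp

end Pool.Agent.Lib.MP_b18d48_nt
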