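import Pool.Agent.Lib.MP_b18d48_nt.Reduction

/-!
The coefficients of the L-function of the curve 126a1 in the sense of Mathlib.
-/

namespace Pool.Agent.Lib.MP_b18d48_nt

open WeierstrassCurve IsLocalRing IsDiscreteValuationRing IsDedekindDomain NumberField

section Local

variable {R : Type*} [CommRing R] [IsDomain R] [IsDiscreteValuationRing R]
  {K : Type*} [Field K] [Algebra R K] [IsFractionRing R K]
  {p : ℕ} [hp : Fact p.Prime]

theorem card_residue (e : ResidueField R ≃+* ZMod p) : Nat.card (ResidueField R) = p := by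
  rw [Nat.card_congr e.toEquiv, Nat.card_zmod]

theorem card_reduction (e : ResidueField R ≃+* ZMod p) (D : VariableChange R)
    [h : ((D • ER R).baseChange K).IsMinimal R] (hg : ¬ (p : ℤ) ∣ -20412) :
    (p : ℤ) + 1 - (Nat.card (((D • ER R).baseChange K).reduction R).toAffine.Point : ℤ)
      = ap EZ p := by
  have hE : (((D • ER R).baseChange K).reduction R).IsElliptic :=
    (hasGoodReduction_iff_isElliptic_reduction R).1 ((good_ER e D).2 hg)
  have hfin : Finite (ResidueField R) := Finite.of_equiv _ e.toEquiv.symm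
  have h1 : Nat.card (((D • ER R).baseChange K).reduction R).toAffine.Point
      = Nat.card {P : ResidueField R × ResidueField R //
          (((D • ER R).baseChange K).reduction R).toAffine.Equation P.1 P.2} + 1 := by
    rw [Nat.card_congr (Affine.pointEquiv _)]
    exact Finite.card_option
  have h2 : ((D • ER R).baseChange K).reduction R
      = (D.map (residue R)) • ((ER R).map (residue R)) := by
    rw [reduction, integralModel_baseChange, map_variableChange]
  have h3 : ((ER R).map (residue R)).map (e : ResidueField R →+* ZMod p)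
      = EZ.map (Int.castRingHom (ZMod p)) := by
    rw [ER, WeierstrassCurve.map_map, WeierstrassCurve.map_map]
    congr 1
    exact RingHom.ext_int _ _
  rw [h1, h2, card_equation_change, card_equation_equiv e, h3, ap]
  push_cast
  ring

open Polynomial in
theorem localPolynomial_eq [Algebra ℚ K] (e : ResidueField R ≃+* ZMod p)
    (hi : Irreducible (p : R)) :
    (EQ.baseChange K).localPolynomial R
      = 1 - C (ap EZ p) * X + C (if (p : ℤ) ∣ EZ.Δ then 0 else (p : ℤ)) * X ^ 2 := by
  have hΔ : (ER R).Δ ≠ 0 := by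
    intro h0
    rw [ER_Δ] at h0
    have h1 := pow_dvd_intCast e hi 15 (-20412) (h0 ▸ dvd_zero _)
    have h3 : p ^ 15 ∣ 20412 := by
      have := Int.natAbs_dvd_natAbs.2 h1
      rwa [Int.natAbs_pow] at this
    have h4 := Nat.le_of_dvd (by norm_num) h3
    have h5 : 2 ^ 15 ≤ p ^ 15 := Nat.pow_le_pow_left hp.out.two_le 15
    omega
  have hm := isMinimal_ER (K := K) e hi
  rw [EQ_baseChange (R := R)]
  have hm2 : ((((ER R).baseChange K).exists_isMinimal R).choose •
      (ER R).baseChange K).IsMinimal R := (((ER R).baseChange K).exists_isMinimal R).choose_spec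
  obtain ⟨D, hD⟩ := exists_integral_change (ER R) hΔ
    (((ER R).baseChange K).exists_isMinimal R).choose
  have hW : ((ER R).baseChange K).minimal R = (D • ER R).baseChange K := by
    rw [minimal, ← hD]
    exact map_variableChange _ _ _
  have aux : ∀ (W' : WeierstrassCurve K) [W'.IsMinimal R], W' = (D • ER R).baseChange K →
      (open Classical in
      (if W'.HasGoodReduction R then 1 - C ((Nat.card (ResidueField R) : ℤ) + 1
          - (Nat.card (W'.reduction R).toAffine.Point : ℤ)) * X
          + C (Nat.card (ResidueField R) : ℤ) * X ^ 2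
        else if W'.HasSplitMultiplicativeReduction R then 1 - X
        else if W'.HasMultiplicativeReduction R then 1 + X
        else 1 : ℤ[X]))
      = 1 - C (ap EZ p) * X + C (if (p : ℤ) ∣ EZ.Δ then 0 else (p : ℤ)) * X ^ 2 := by
    intro W' hW' h
    subst h
    rw [EZ_Δ]
    by_cases hg : (p : ℤ) ∣ -20412
    · rw [if_neg (fun h => (good_ER e D).1 h hg), if_pos hg]
      have h237 : p = 2 ∨ p = 3 ∨ p = 7 := by
        have h1 : p ∣ 2 ^ 2 * 3 ^ 6 * 7 := by
          have := Int.natAbs_dvd_natAbs.2 hg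
          simpa using this
        rcases (Nat.Prime.dvd_mul hp.out).1 h1 with h2 | h2
        · rcases (Nat.Prime.dvd_mul hp.out).1 h2 with h3 | h3
          · exact Or.inl ((Nat.prime_dvd_prime_iff_eq hp.out Nat.prime_two).1
              (hp.out.dvd_of_dvd_pow h3))
          · exact Or.inr (Or.inl ((Nat.prime_dvd_prime_iff_eq hp.out Nat.prime_three).1
              (hp.out.dvd_of_dvd_pow h3)))
        · exact Or.inr (Or.inr ((Nat.prime_dvd_prime_iff_eq hp.out (by norm_num)).1 h2))
      rcases h237 with h | h | h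
      · rw [if_pos (split_ER e (Or.inl h) D), h, ap_2]; simp
      · have hn : ¬ ((D • ER R).baseChange K).HasMultiplicativeReduction R := by
          rw [mult_ER e, h]; norm_num
        rw [if_neg (fun h => hn h.toHasMultiplicativeReduction), if_neg hn, h, ap_3]; simp
      · rw [if_pos (split_ER e (Or.inr h) D), h, ap_7]; simp
    · rw [if_pos ((good_ER e D).2 hg), if_neg hg, card_residue e, card_reduction e D hg]
  exact aux _ hW

end Local

open PowerSeries in
theorem coeff_inv (W : WeierstrassCurve ℤ) (p k : ℕ) :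
    coeff k (PowerSeries.invOfUnit
      ((1 - Polynomial.C (ap W p) * Polynomial.X
        + Polynomial.C (if (p : ℤ) ∣ W.Δ then 0 else (p : ℤ)) * Polynomial.X ^ 2 : Polynomial ℤ) :
          PowerSeries ℤ) 1) = apow W p k := by
  set φ : PowerSeries ℤ := ((1 - Polynomial.C (ap W p) * Polynomial.X
        + Polynomial.C (if (p : ℤ) ∣ W.Δ then 0 else (p : ℤ)) * Polynomial.X ^ 2 : Polynomial ℤ) :
          PowerSeries ℤ) with hφ
  have hφ' : φ = 1 - C (ap W p) * X + C (if (p : ℤ) ∣ W.Δ then 0 else (p : ℤ)) * X ^ 2 := by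
    rw [hφ]
    simp only [Polynomial.coe_add, Polynomial.coe_sub, Polynomial.coe_mul, Polynomial.coe_pow,
      Polynomial.coe_C, Polynomial.coe_X, Polynomial.coe_one]
  have h1 : φ * invOfUnit φ 1 = 1 := mul_invOfUnit φ 1 (by
    rw [hφ']; split_ifs <;> simp)
  have h2 : φ * PowerSeries.mk (apow W p) = 1 := by
    rw [hφ']
    ext n
    have : (1 - C (ap W p) * X + C (if (p : ℤ) ∣ W.Δ then 0 else (p : ℤ)) * X ^ 2)
        * PowerSeries.mk (apow W p) = PowerSeries.mk (apow W p)
          - C (ap W p) * (X * PowerSeries.mk (apow W p))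
          + C (if (p : ℤ) ∣ W.Δ then 0 else (p : ℤ)) * (X * (X * PowerSeries.mk (apow W p))) := by
      ring
    rw [this, map_add, map_sub, coeff_C_mul, coeff_C_mul]
    rcases n with _ | _ | n
    · simp [apow]
    · simp [apow, coeff_succ_X_mul, coeff_one]
    · simp only [coeff_succ_X_mul, coeff_mk, coeff_one, apow]
      simp
  have h3 : invOfUnit φ 1 = PowerSeries.mk (apow W p) := by
    calc invOfUnit φ 1 = invOfUnit φ 1 * (φ * PowerSeries.mk (apow W p)) := by rw [h2, mul_one]
      _ = (φ * invOfUnit φ 1) * PowerSeries.mk (apow W p) := by ring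
      _ = _ := by rw [h1, one_mul]
  rw [h3, coeff_mk]

section Euler

open ArithmeticFunction

theorem mul_pow_congr {p : ℕ} (hp : p.Prime) {F F' G G' : ArithmeticFunction ℤ}
    (hF : ∀ j, F (p ^ j) = F' (p ^ j)) (hG : ∀ j, G (p ^ j) = G' (p ^ j)) (j : ℕ) :
    (F * G) (p ^ j) = (F' * G') (p ^ j) := by
  rw [mul_apply, mul_apply]
  refine Finset.sum_congr rfl fun x hx => ?_
  have h := (Nat.mem_divisorsAntidiagonal.1 hx).1
  obtain ⟨a, -, ha⟩ := (Nat.dvd_prime_pow hp).1 (Dvd.intro _ h)
  obtain ⟨b, -, hb⟩ := (Nat.dvd_prime_pow hp).1 (Dvd.intro_left _ h)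
  rw [ha, hb, hF, hG]

theorem ofPowerSeries_other {p q : ℕ} (hp : p.Prime) (hq : q.Prime) (hpq : q ≠ p)
    (f : PowerSeries ℤ) (hf : f.constantCoeff = 1) (j : ℕ) :
    ofPowerSeries q f (p ^ j) = (1 : ArithmeticFunction ℤ) (p ^ j) := by
  rcases j with _ | j
  · simp [hf]
  · rw [ofPowerSeries_apply hq.one_lt, Function.extend_apply', Pi.zero_apply, one_apply_ne]
    · exact (Nat.one_lt_pow (Nat.succ_ne_zero j) hp.one_lt).ne'
    · rintro ⟨i, hi⟩
      have h1 : p ∣ q ^ i := hi ▸ dvd_pow_self p (Nat.succ_ne_zero j)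
      exact hpq ((Nat.prime_dvd_prime_iff_eq hp hq).1 (hp.dvd_of_dvd_pow h1)).symm

theorem eulerProduct_prime_pow {ι : Type*} (q : ι ≃ Nat.Primes) (f : ι → PowerSeries ℤ)
    (hf : ∀ i, (f i).constantCoeff = 1) (i : ι) (k : ℕ) :
    eulerProduct (fun i => ofPowerSeries (q i : ℕ) (f i)) ((q i : ℕ) ^ k)
      = PowerSeries.coeff k (f i) := by
  classical
  have hN : Northcott (fun i => (q i : ℕ)) := ⟨fun b =>
    (Set.finite_Iic b).preimage ((Subtype.val_injective.comp q.injective).injOn)⟩
  have h1 := tendsTo_eulerProduct_ofPowerSeries (fun i => (q i : ℕ)) f hf ((q i : ℕ) ^ k)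
  obtain ⟨s, hs, his⟩ := (h1.and (Filter.eventually_ge_atTop ({i} : Finset ι))).exists
  have hi : i ∈ s := his (Finset.mem_singleton_self i)
  have h2 : ∀ t : Finset ι, i ∉ t → ∀ j, (∏ l ∈ t, ofPowerSeries (q l : ℕ) (f l)) ((q i : ℕ) ^ j)
      = (1 : ArithmeticFunction ℤ) ((q i : ℕ) ^ j) := by
    intro t
    induction t using Finset.induction_on with
    | empty => simp
    | insert l t hl ih =>
      intro hit j
      rw [Finset.mem_insert, not_or] at hit
      rw [Finset.prod_insert hl, mul_pow_congr (q i).2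
        (ofPowerSeries_other (q i).2 (q l).2 ?_ (f l) (hf l)) (ih hit.2), mul_one]
      intro h
      exact hit.1 (q.injective (Subtype.ext h)).symm
  rw [← hs, ← Finset.mul_prod_erase s _ hi, mul_pow_congr (q i).2 (fun _ => rfl)
    (h2 _ (Finset.notMem_erase i s)), mul_one, ofPowerSeries_apply_pow (q i).2.one_lt]

end Euler

theorem local_data (v : HeightOneSpectrum (𝓞 ℚ)) :
    Nonempty (ResidueField (v.adicCompletionIntegers ℚ) ≃+*
        ZMod (Rat.HeightOneSpectrum.primesEquiv v : ℕ)) ∧
      Irreducible (((Rat.HeightOneSpectrum.primesEquiv v : ℕ) : v.adicCompletionIntegers ℚ)) := by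
  have : Fact (Rat.HeightOneSpectrum.primesEquiv v : ℕ).Prime :=
    ⟨(Rat.HeightOneSpectrum.primesEquiv v).2⟩
  let e : v.adicCompletionIntegers ℚ ≃+* ℤ_[Rat.HeightOneSpectrum.primesEquiv v] :=
    (Rat.HeightOneSpectrum.adicCompletionIntegers.padicIntEquiv v).toAlgEquiv.toRingEquiv
  refine ⟨⟨(ResidueField.mapEquiv e).trans PadicInt.residueField⟩, ?_⟩
  rw [← MulEquiv.irreducible_iff e, map_natCast]
  exact PadicInt.irreducible_p

theorem lfun_all (n : ℕ) : EQ.LFunction n = an EZ n := by
  let q : HeightOneSpectrum (𝓞 ℚ) ≃ Nat.Primes := Rat.HeightOneSpectrum.primesEquiv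
  let f : HeightOneSpectrum (𝓞 ℚ) → PowerSeries ℤ := fun v => PowerSeries.mk (apow EZ (q v))
  have hf : ∀ v, (f v).constantCoeff = 1 := fun v => by simp [f, apow]
  have hL : EQ.LFunction = ArithmeticFunction.eulerProduct
      (fun v => ArithmeticFunction.ofPowerSeries (q v : ℕ) (f v)) := by
    unfold LFunction
    congr 1
    funext v
    obtain ⟨⟨e⟩, hi⟩ := local_data v
    have : Fact (q v : ℕ).Prime := ⟨(q v).2⟩
    rw [localEulerFactor, card_residue e, localPowerSeries, localPolynomial_eq e hi]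
    congr 1
    ext k
    rw [coeff_inv, PowerSeries.coeff_mk]
  have hM : EQ.LFunction.IsMultiplicative := by
    rw [hL]
    exact ArithmeticFunction.isMultiplicative_eulerProduct _ fun v =>
      ArithmeticFunction.isMultiplicative_ofPowerSeries_of_isPrimePow _ (q v).2.isPrimePow _ (hf v)
  rcases eq_or_ne n 0 with rfl | hn
  · simp [an]
  rw [hM.multiplicative_factorization _ hn, an, if_neg hn]
  refine Finset.prod_congr rfl fun p hp => ?_
  have hp' : p.Prime := Nat.prime_of_mem_primeFactors hp
  obtain ⟨v, hv⟩ := q.surjective ⟨p, hp'⟩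
  have hv' : (q v : ℕ) = p := by rw [hv]
  have := eulerProduct_prime_pow q f hf v (n.factorization p)
  rw [hv'] at this
  rw [PowerSeries.coeff_mk, hv', ← hL] at this
  exact this

theorem lfun (n : ℕ) (_hn : n ≤ 48) : EQ.LFunction n = an EZ n := lfun_all n

end Pool.Agent.Lib.MP_b18d48_nt
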