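import Pool.Agent.Lib.MP_b18d48_nt.Form
import Pool.Agent.Lib.MP_b18d48_nt.Expand

/-!
The differential equation `(t' / 2 π i) ^ 2 = f ^ 2 Q(t)`.
-/

namespace Pool.Agent.Lib.MP_b18d48_nt

open Complex hiding eta
open ModularForm Filter Topology Asymptotics Metric CongruenceSubgroup
open scoped Real ComplexConjugate MatrixGroups UpperHalfPlane

lemma cong_phi3 : Cong 3 phi fun q => 1 - q - 2 * q ^ 2 := by
  refine (cong_phi.mono (by norm_num)).trans
    (Cong.of_eq (r := evalL (phiL.drop 3)) (evalL_cont _).continuousAt fun q => ?_)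
  have : phiL = 1 :: -1 :: -2 :: phiL.drop 3 := by decide
  nth_rewrite 1 [this]
  simp only [evalL]
  push_cast; ring

lemma tau_contAt : ContinuousAt tau 0 := (tau_diffAt (by simp)).continuousAt

lemma cong_tau3 : Cong 3 tau fun q => (1 - q) ^ 3 := by
  have h1 : Cong 3 PP fun q => (1 - q) * (1 - q ^ 2) := by
    simpa [Finset.prod_range_succ] using cong_PP 2
  have h2 : Cong 3 (fun q => PP (q ^ 2)) fun q => 1 - q ^ 2 := by
    simpa using cong_PP_pow (K := 3) 2 1 (by norm_num) (by norm_num)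
  have h7 : Cong 3 (fun q => PP (q ^ 7)) fun _ => 1 := by
    simpa using cong_PP_pow (K := 3) 7 0 (by norm_num) (by norm_num)
  have h14 : Cong 3 (fun q => PP (q ^ 14)) fun _ => 1 := by
    simpa using cong_PP_pow (K := 3) 14 0 (by norm_num) (by norm_num)
  have c2 := PP_contAt 2 (by norm_num)
  have c7 := PP_contAt 7 (by norm_num)
  have c14 := PP_contAt 14 (by norm_num)
  have c1 : ContinuousAt PP 0 := by simpa using PP_contAt 1 (by norm_num)
  have n0 : PP ((0 : ℂ) ^ 2) * PP ((0 : ℂ) ^ 14) ≠ 0 :=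
    mul_ne_zero (PP_ne (by simp)) (PP_ne (by simp))
  have hn := h1.mul h7 (by fun_prop) c7
  have hd := (h2.mul h14 (by fun_prop) c14).mul_left (c := fun q => 1 - q) (by fun_prop)
  have h3 : Cong 3 (fun q => PP q * PP (q ^ 7)) fun q => (1 - q) * (PP (q ^ 2) * PP (q ^ 14)) :=
    hn.trans (by simpa using hd.symm)
  have h4 := h3.mul_right (c := fun q => (PP (q ^ 2) * PP (q ^ 14))⁻¹) ((c2.mul c14).inv₀ n0)
  have h5 : Cong 3 (fun q => PP q * PP (q ^ 7) / (PP (q ^ 2) * PP (q ^ 14))) fun q => 1 - q := by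
    refine Cong.trans h4 (Cong.of_eventuallyEq ?_)
    filter_upwards [(c2.mul c14).eventually_ne n0] with q hq
    exact mul_inv_cancel_right₀ hq _
  have c5 : ContinuousAt (fun q => PP q * PP (q ^ 7) / (PP (q ^ 2) * PP (q ^ 14))) 0 :=
    (c1.mul c7).div (c2.mul c14) n0
  have h6 := (h5.mul h5 (by fun_prop) c5).mul h5 (by fun_prop) c5
  exact IsBigO.congr_left h6 fun q => by simp only [tau]; ring

lemma cong_dtau3 : Cong 3 (fun q => q * deriv tau q) fun q => q * (-3 * (1 - q) ^ 2) := by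
  have h := cong_tau3.mul_deriv (fun q hq => tau_diffAt hq) fun q _ => by fun_prop
  have h2 : ∀ q : ℂ, deriv (fun q : ℂ => (1 - q) ^ 3) q = -3 * (1 - q) ^ 2 := fun q => by
    have := (((hasDerivAt_id q).const_sub 1).fun_pow 3).deriv
    simp only [id] at this
    rw [this]; push_cast; ring
  simpa only [h2] using h

lemma tau_analytic {q : ℂ} (hq : ‖q‖ < 1) : AnalyticAt ℂ tau q :=
  DifferentiableOn.analyticAt (s := ball 0 1)
    (fun w hw => (tau_diffAt (by simpa using hw)).differentiableWithinAt)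
    (isOpen_ball.mem_nhds (by simpa using hq))

noncomputable def NN (q : ℂ) : ℂ := (q * deriv tau q - tau q) ^ 2 -
  phi q ^ 2 * (tau q ^ 2 + 9 * q * tau q + 8 * q ^ 2) * (tau q ^ 2 + 5 * q * tau q + 8 * q ^ 2)

lemma cong_NN : Cong 3 NN fun _ => 0 := by
  have ct := tau_contAt
  have cp := phi_contAt
  have cd : ContinuousAt (deriv tau) 0 := (tau_analytic (by simp)).deriv.continuousAt
  have a1 := cong_dtau3.sub cong_tau3
  have a2 := a1.mul a1 (by fun_prop) (by fun_prop)
  have b1 := cong_phi3.mul cong_phi3 (by fun_prop) cp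
  have t2 := cong_tau3.mul cong_tau3 (by fun_prop) ct
  have c1 := (t2.add (cong_tau3.mul_left (c := fun q => 9 * q) (by fun_prop))).add
    (Cong.refl fun q => 8 * q ^ 2)
  have d1 := (t2.add (cong_tau3.mul_left (c := fun q => 5 * q) (by fun_prop))).add
    (Cong.refl fun q => 8 * q ^ 2)
  have e := a2.sub ((b1.mul c1 (by fun_prop) (by fun_prop)).mul d1 (by fun_prop) (by fun_prop))
  refine IsBigO.congr_left (e.trans (c := fun _ => 0) ?_) fun q => by simp only [NN]; ring
  exact (Cong.of_eq (r := fun q => (-22) * q ^ 0 + (98) * q ^ 1 + (-98) * q ^ 2 + (-21) * q ^ 3 +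
      (204) * q ^ 4 + (-327) * q ^ 5 + (48) * q ^ 6 + (-8) * q ^ 7 +
      (-446) * q ^ 8 + (299) * q ^ 9 + (134) * q ^ 10 + (-157) * q ^ 11 +
      (44) * q ^ 12 + (-4) * q ^ 13) (by fun_prop) fun q => by ring)

noncomputable def RR (z : ℂ) : ℂ := (deriv tt z / (2 * π * I * ff z * tt z)) ^ 2 -
  (tt z + 8 / tt z + 9) * (tt z + 8 / tt z + 5)

lemma two_pi_I_ne : (2 * π * I : ℂ) ≠ 0 := Complex.two_pi_I_ne_zero

lemma deriv_tt {z : ℂ} (hz : 0 < z.im) :
    deriv tt z = 2 * π * I * (qq z * deriv tau (qq z) - tau (qq z)) / qq z := by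
  have h := (((tau_diffAt (norm_qq_lt hz)).hasDerivAt.comp z (hasDerivAt_qq z)).div
    (hasDerivAt_qq z) (qq_ne z)).deriv
  have h0 := qq_ne z
  refine Eq.trans h ?_
  simp only [Function.comp_apply]
  field_simp

lemma RR_eq {z : ℂ} (hz : 0 < z.im) :
    RR z = NN (qq z) / qq z ^ 2 * ((phi (qq z) * tau (qq z)) ^ 2)⁻¹ := by
  have h0 := qq_ne z
  have h1 := phi_ne (norm_qq_lt hz)
  have h2 := tau_ne (norm_qq_lt hz)
  have h3 := two_pi_I_ne
  rw [RR, deriv_tt hz, NN, ff, tt]
  generalize (2 * π * I : ℂ) = c at h3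
  field_simp
  ring

lemma tendsto_RR : Tendsto RR atI (𝓝 0) := by
  have h1 : Tendsto (fun q => NN q / q ^ 2) (𝓝 0) (𝓝 0) := by
    have h2 : NN =O[𝓝 0] fun q : ℂ => q ^ 3 := by simpa [Cong] using cong_NN
    exact (h2.trans_isLittleO (isLittleO_pow_pow (by norm_num))).tendsto_div_nhds_zero
  have h2 : ContinuousAt (fun q => ((phi q * tau q) ^ 2)⁻¹) 0 :=
    ((phi_contAt.mul tau_contAt).pow 2).inv₀
      (pow_ne_zero 2 (mul_ne_zero (phi_ne (by simp)) (tau_ne (by simp))))
  have h3 := (h1.mul h2.tendsto).comp tendsto_qq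
  rw [zero_mul] at h3
  refine h3.congr' ?_
  filter_upwards [eventually_im_pos] with z hz
  exact (RR_eq hz).symm

lemma tt_analytic {z : ℂ} (hz : 0 < z.im) : AnalyticAt ℂ tt z :=
  DifferentiableOn.analyticAt (s := {z : ℂ | 0 < z.im})
    (fun _ hw => (tt_diffAt hw).differentiableWithinAt) (isOpen_H.mem_nhds hz)

lemma G0.deriv_tt {a b c d ε : ℤ} {σ : Bool} (h : G0 a b c d ε σ) {z : ℂ} (hz : 0 < z.im) :
    deriv tt (mob a b c d z) * ((a * d - b * c : ℤ) / (c * z + d) ^ 2) =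
      if σ then -8 * deriv tt z / tt z ^ 2 else deriv tt z := by
  have h1 := (tt_diffAt (mob_im_pos h.det hz)).hasDerivAt.comp z (hasDerivAt_mob (den_ne h.det hz))
  have h2 : tt ∘ mob a b c d =ᶠ[𝓝 z] fun z => if σ then 8 / tt z else tt z := by
    filter_upwards [isOpen_H.mem_nhds hz] with w hw using h.ht w hw
  rw [← h1.deriv, h2.deriv_eq]
  cases σ
  · rfl
  · have := ((hasDerivAt_const z (8 : ℂ)).fun_div (tt_diffAt hz).hasDerivAt (tt_ne hz)).deriv
    simp only [if_true]
    rw [this]; ring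

lemma G0.RR_eq {a b c d ε : ℤ} {σ : Bool} (h : G0 a b c d ε σ) (he : ε ^ 2 = 1) {z : ℂ}
    (hz : 0 < z.im) : RR (mob a b c d z) = RR z := by
  have n1 : ((a * d - b * c : ℤ) : ℂ) ≠ 0 := by exact_mod_cast h.det.ne'
  have n2 := den_ne h.det hz
  have n3 := ff_ne hz
  have n4 := tt_ne hz
  have n5 := two_pi_I_ne
  have he' : (ε : ℂ) ^ 2 = 1 := by exact_mod_cast he
  have n6 : (ε : ℂ) ≠ 0 := by intro h0; rw [h0] at he'; norm_num at he'
  rw [RR, RR, eq_div_of_mul_eq n1 (h.hf z hz),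
    eq_div_of_mul_eq (div_ne_zero n1 (pow_ne_zero 2 n2)) (h.deriv_tt hz), h.ht z hz]
  generalize (c * z + d : ℂ) = j at n2
  generalize ((a * d - b * c : ℤ) : ℂ) = x at n1
  generalize (2 * π * I : ℂ) = c at n5
  cases σ
  · simp only [Bool.false_eq_true, if_false]
    congr 1
    field_simp
    rw [he', mul_one]
  · simp only [if_true]
    congr 1
    · field_simp
      rw [he', mul_one]
    · field_simp
      ring

lemma RR_diffAt {z : ℂ} (hz : 0 < z.im) : DifferentiableAt ℂ RR z := by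
  have h1 := tt_diffAt hz
  have h2 := ff_diffAt hz
  have h3 := (tt_analytic hz).deriv.differentiableAt
  have n3 := ff_ne hz
  have n4 := tt_ne hz
  have n5 := mul_ne_zero (mul_ne_zero two_pi_I_ne n3) n4
  unfold RR
  fun_prop (disch := assumption)

noncomputable def RRform : CuspForm (Gamma0 14 : Subgroup (GL (Fin 2) ℝ)) 0 :=
  mkCusp 14 0 RR (fun _ hz => RR_diffAt hz)
    (fun a b c d h hc z hz => by simpa using (G0_gamma h hc).RR_eq (by norm_num) hz)
    (fun p r q s h => by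
      obtain ⟨a, b, c, d, ε, σ, g, e, k, D, hG, he, hg, hk, hD, H⟩ :=
        cusp_decomp (p := p) (r := r) (q := q) (s := s) (by rw [h]; norm_num)
      refine (tendsto_RR.comp (tendsto_mob_upper (e := e) hg hk)).congr' ?_
      filter_upwards [eventually_im_pos] with z hz
      have hw := mob_im_pos (a := g) (b := e) (c := 0) (d := k)
        (by simp only [mul_zero, sub_zero]; positivity) hz
      simp [(H z hz).1, hG.RR_eq he hw])

lemma RR_zero {z : ℂ} (hz : 0 < z.im) : RR z = 0 := by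
  obtain ⟨c, hc⟩ := ModularForm.eq_const_of_weight_zero (ModularFormClass.modularForm RRform)
  have h1 : ∀ τ : ℍ, RR τ = c := fun τ => congrFun hc τ
  have h2 := tendsto_RR.comp UpperHalfPlane.tendsto_coe_atImInfty
  have h3 : c = 0 := tendsto_nhds_unique (tendsto_const_nhds.congr fun τ => (h1 τ).symm) h2
  rw [← h3]
  exact h1 ⟨z, hz⟩

theorem ode {z : ℂ} (hz : 0 < z.im) : deriv tt z ^ 2 =
    (2 * π * I * ff z) ^ 2 * ((tt z + 8) * (tt z + 1) * (tt z ^ 2 + 5 * tt z + 8)) := by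
  have h := RR_zero hz
  have n3 := mul_ne_zero two_pi_I_ne (ff_ne hz)
  have n4 := tt_ne hz
  rw [RR, sub_eq_zero] at h
  generalize (2 * π * I * ff z : ℂ) = c at n3 h
  field_simp at h
  linear_combination h

end Pool.Agent.Lib.MP_b18d48_nt
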