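import Pool.Agent.Lib.MP_b18d48_nt.Defs

/-!
The curve 126a1 has exactly two rational points: descent by a 2-isogeny.
-/

namespace Pool.Agent.Lib.MP_b18d48_nt

namespace Pts

theorem sq_int {r : ℚ} {k : ℤ} (h : r ^ 2 = k) : ∃ c : ℤ, r = c ∧ k = c ^ 2 := by
  obtain ⟨c, rfl⟩ := Rat.isSquare_intCast_iff.1 (⟨r, by rw [← h, sq]⟩ : IsSquare (k : ℚ))
  push_cast at h
  rcases sq_eq_sq_iff_eq_or_eq_neg.1 (h.trans (sq _).symm) with e | e
  · exact ⟨c, e, by ring⟩
  · exact ⟨-c, by simpa using e, by ring⟩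

/-- The first coordinate of a point is a square up to a divisor of `b`. -/
theorem desc {a b : ℤ} {r : ℕ} (hb : b ∣ (r : ℤ) ^ 5) {X Y : ℚ} (hX : 0 < X)
    (h : Y ^ 2 = X * (X ^ 2 + a * X + b)) : ∃ d : ℕ, d ∣ r ∧ ∃ u : ℚ, X = d * u ^ 2 := by
  have hm : 0 < X.num := Rat.num_pos.2 hX
  have hn : (0 : ℤ) < X.den := by exact_mod_cast X.den_pos
  have hc : IsCoprime X.num (X.den : ℤ) := Int.isCoprime_iff_gcd_eq_one.2 X.reduced
  have e : X = X.num / (X.den : ℤ) := by simp [Rat.num_div_den]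
  generalize X.num = m at *
  generalize (X.den : ℤ) = n at *
  have n0 : (n : ℚ) ≠ 0 := by exact_mod_cast hn.ne'
  obtain ⟨c, -, h1⟩ := sq_int (r := Y * n ^ 2) (k := m * n * (m ^ 2 + a * m * n + b * n ^ 2)) (by
    rw [mul_pow, h, e]; push_cast; field_simp)
  have g0 : 0 < Int.gcd (m * n) (m ^ 2 + a * m * n + b * n ^ 2) :=
    Int.gcd_pos_of_ne_zero_left _ (mul_pos hm hn).ne'
  obtain ⟨A, B, h2, h3, h4⟩ := Int.exists_gcd_one g0
  generalize Int.gcd (m * n) (m ^ 2 + a * m * n + b * n ^ 2) = g at *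
  have g1 : (g : ℚ) ≠ 0 := by exact_mod_cast g0.ne'
  have g2 : IsCoprime (g : ℤ) n := by
    have : IsCoprime (m ^ 2 + (a * m + b * n) * n) n := hc.pow_left.add_mul_right_left _
    exact IsCoprime.of_mul_left_right (x := B) (by rw [← h4]; convert this using 1; ring)
  have g3 : (g : ℤ) ∣ m := g2.dvd_of_dvd_mul_right ⟨A, by rw [h3, mul_comm]⟩
  have g4 : (g : ℤ) ∣ b := by
    obtain ⟨k, hk⟩ := g3
    refine (g2.pow_right (n := 2)).dvd_of_dvd_mul_right ⟨B - k * m - a * k * n, ?_⟩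
    linear_combination h4 - (m + a * n) * hk
  obtain ⟨s, -, h5⟩ := sq_int (r := c / g) (k := A * B) (by
    rw [h3, h4] at h1
    have : ((A * g * (B * g) : ℤ) : ℚ) = (c ^ 2 : ℤ) := congrArg _ h1
    push_cast at this ⊢
    field_simp
    linear_combination -this)
  obtain ⟨d, t, h6, h7⟩ := Nat.sq_mul_squarefree g
  refine ⟨d, (h7.dvd_pow_iff_dvd (n := 5) (by norm_num)).1 ?_, ?_⟩
  · exact_mod_cast ((Int.natCast_dvd_natCast.2 (Dvd.intro_left _ h6)).trans g4).trans hb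
  · obtain ⟨M, h8 | h8⟩ := Int.sq_of_gcd_eq_one h2 h5
    · refine ⟨M * t / n, ?_⟩
      have : ((m * n : ℤ) : ℚ) = (M ^ 2 * (t ^ 2 * d : ℕ) : ℤ) := by rw [h3, h8, h6]
      push_cast at this
      rw [e]
      field_simp
      linear_combination this
    · have : (0 : ℤ) < g := by exact_mod_cast g0
      nlinarith [mul_pos hm hn, mul_nonneg (sq_nonneg M) this.le]

theorem quartic {A B C : ℤ} {u v : ℚ} (h : v ^ 2 = A * u ^ 4 + B * u ^ 2 + C) :
    ∃ M e N : ℤ, IsCoprime M e ∧ e ≠ 0 ∧ u = M / e ∧ v = N / e ^ 2 ∧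
      N ^ 2 = A * M ^ 4 + B * M ^ 2 * e ^ 2 + C * e ^ 4 := by
  have hn : (u.den : ℤ) ≠ 0 := by exact_mod_cast u.den_nz
  have hc : IsCoprime u.num (u.den : ℤ) := Int.isCoprime_iff_gcd_eq_one.2 u.reduced
  have e : u = u.num / (u.den : ℤ) := by simp [Rat.num_div_den]
  generalize u.num = m at *
  generalize (u.den : ℤ) = n at *
  have n0 : (n : ℚ) ≠ 0 := by exact_mod_cast hn
  obtain ⟨c, h1, h2⟩ := sq_int (r := v * n ^ 2) (k := A * m ^ 4 + B * m ^ 2 * n ^ 2 + C * n ^ 4) (by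
    rw [mul_pow, h, e]; push_cast; field_simp)
  exact ⟨m, n, c, hc, hn, e, by rw [← h1]; field_simp, h2.symm⟩

theorem zmod_iff {q c p : ℕ} (hq : q = c * p) (hc : c ≠ 0) (x : ℤ) :
    (c : ZMod q) * x = 0 ↔ (p : ℤ) ∣ x := by
  rw [← mul_dvd_mul_iff_left (a := (c : ℤ)) (by exact_mod_cast hc), ← Nat.cast_mul, ← hq,
    ← ZMod.intCast_zmod_eq_zero_iff_dvd]
  simp

/-- A local obstruction. -/
theorem no_sol {A B C : ℤ} (q c p : ℕ) (hq : q = c * p) (hc : c ≠ 0) (hp : p ≠ 1)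
    (H : ∀ N M e : ZMod q, N ^ 2 = A * M ^ 4 + B * M ^ 2 * e ^ 2 + C * e ^ 4 →
      c * M = 0 ∧ c * e = 0) {u v : ℚ} : v ^ 2 ≠ A * u ^ 4 + B * u ^ 2 + C := by
  intro h
  obtain ⟨M, e, N, h1, -, -, -, h2⟩ := quartic h
  obtain ⟨h3, h4⟩ := H N M e (by exact_mod_cast congrArg (Int.cast : ℤ → ZMod q) h2)
  have := Int.isUnit_iff_natAbs_eq.1
    (h1.isUnit_of_dvd' ((zmod_iff hq hc _).1 h3) ((zmod_iff hq hc _).1 h4))
  exact hp (by simpa using this)

theorem sq1 {X Y : ℚ} (hY : Y ≠ 0) (h : Y ^ 2 = X * (X ^ 2 + 33 * X + 288)) :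
    ∃ u : ℚ, u ≠ 0 ∧ (X = u ^ 2 ∨ X * u ^ 2 = 288) := by
  have hX : 0 < X := by
    have h1 : 0 < X ^ 2 + 33 * X + 288 := by nlinarith [sq_nonneg (X + 33 / 2)]
    exact (mul_pos_iff_of_pos_right h1).1 (h ▸ sq_pos_of_ne_zero hY)
  obtain ⟨d, hd, u, hu⟩ := desc (a := 33) (b := 288) (r := 6) (by norm_num) hX (by simpa using h)
  have u0 : u ≠ 0 := fun c => by simp [hu, c] at hX
  have : d = 1 ∨ d = 2 ∨ d = 3 ∨ d = 6 := by
    have := Nat.le_of_dvd (by norm_num) hd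
    interval_cases d <;> simp at hd ⊢
  rcases this with rfl | rfl | rfl | rfl <;> norm_num at hu
  · exact ⟨u, u0, Or.inl hu⟩
  · exact ⟨12 / u, by positivity, Or.inr (by rw [hu]; field_simp; norm_num)⟩
  · refine (no_sol (A := 3) (B := 33) (C := 96) 9 3 3 rfl (by norm_num) (by norm_num) (by decide)
      (u := u) (v := Y / (3 * u)) ?_).elim
    rw [div_pow, h, hu]
    push_cast
    field_simp
    ring
  · refine (no_sol (A := 6) (B := 33) (C := 48) 9 3 3 rfl (by norm_num) (by norm_num) (by decide)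
      (u := u) (v := Y / (6 * u)) ?_).elim
    rw [div_pow, h, hu]
    push_cast
    field_simp
    ring

theorem sq2 {X Y : ℚ} (hX : 0 < X) (h : Y ^ 2 = X * (X ^ 2 - 66 * X - 63)) :
    ∃ u : ℚ, X = u ^ 2 := by
  obtain ⟨d, hd, u, hu⟩ := desc (a := -66) (b := -63) (r := 21) (Y := Y) (by norm_num) hX
    (by rw [h]; push_cast; ring)
  have u0 : u ≠ 0 := fun c => by simp [hu, c] at hX
  have : d = 1 ∨ d = 3 ∨ d = 7 ∨ d = 21 := by
    have := Nat.le_of_dvd (by norm_num) hd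
    interval_cases d <;> simp at hd ⊢
  rcases this with rfl | rfl | rfl | rfl <;> norm_num at hu
  · exact ⟨u, hu⟩
  · refine (no_sol (A := 3) (B := -66) (C := -21) 9 3 3 rfl (by norm_num) (by norm_num) (by decide)
      (u := u) (v := Y / (3 * u)) ?_).elim
    rw [div_pow, h, hu]
    push_cast
    field_simp
    ring
  · refine (no_sol (A := 7) (B := -66) (C := -9) 16 8 2 rfl (by norm_num) (by norm_num)
      (by decide +kernel) (u := u) (v := Y / (7 * u)) ?_).elim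
    rw [div_pow, h, hu]
    push_cast
    field_simp
    ring
  · refine (no_sol (A := 21) (B := -66) (C := -3) 9 3 3 rfl (by norm_num) (by norm_num) (by decide)
      (u := u) (v := Y / (21 * u)) ?_).elim
    rw [div_pow, h, hu]
    push_cast
    field_simp
    ring

/-- Every solution is the double of another one. -/
theorem step {u v : ℚ} (h : v ^ 2 = u ^ 4 + 33 * u ^ 2 + 288) :
    ∃ x y : ℚ, x ≠ 0 ∧ y ^ 2 = x ^ 4 + 33 * x ^ 2 + 288 ∧ u * (2 * x * y) = x ^ 4 - 288 := by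
  wlog hv : 0 ≤ v generalizing v
  · exact this (v := -v) (by rw [← h]; ring) (by linarith)
  have hX : 0 < 2 * u ^ 2 + 33 + 2 * v := by positivity
  obtain ⟨w, hw⟩ := sq2 hX (Y := 2 * u * (2 * u ^ 2 + 33 + 2 * v))
    (by linear_combination (-4 * (2 * u ^ 2 + 33 + 2 * v)) * h)
  have w0 : w ≠ 0 := fun c => by simp [hw, c] at hX
  have h1 : (w ^ 2 - 33 + 2 * u * w) / 2 * ((w ^ 2 - 33 - 2 * u * w) / 2) = 288 := by
    have : w ^ 2 - 33 = 2 * u ^ 2 + 2 * v := by linarith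
    linear_combination h + (u ^ 2 - (w ^ 2 - 33 + 2 * u ^ 2 + 2 * v) / 4) * hw
  have h2 : (w ^ 2 - 33 + 2 * u * w) / 2 ≠ 0 := fun c => by simp [c] at h1
  obtain ⟨x, x0, hx | hx⟩ := sq1 (X := (w ^ 2 - 33 + 2 * u * w) / 2) (mul_ne_zero w0 h2)
    (by linear_combination ((w ^ 2 - 33 + 2 * u * w) / 2) * h1)
  · rw [hx] at h1
    exact ⟨x, w * x, x0, by linear_combination h1 + x ^ 2 * hx,
      by linear_combination x ^ 2 * hx - h1⟩
  · have hx' : (w ^ 2 - 33 - 2 * u * w) / 2 = x ^ 2 := mul_left_cancel₀ h2 (h1.trans hx.symm)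
    exact ⟨x, -(w * x), x0, by linear_combination hx + x ^ 2 * hx',
      by linear_combination x ^ 2 * hx' - hx⟩

theorem val_odd {k : ℤ} (h : k % 2 = 1) : padicValRat 2 k = 0 := by
  rw [padicValRat.of_int, padicValInt.eq_zero_of_not_dvd (by omega)]
  rfl

theorem val_int (k : ℤ) : 0 ≤ padicValRat 2 k := by
  rw [padicValRat.of_int]
  exact Nat.cast_nonneg _

theorem val_lt {u x y : ℚ} (hu : u ≠ 0) (hx : x ≠ 0) (h : y ^ 2 = x ^ 4 + 33 * x ^ 2 + 288)
    (h' : u * (2 * x * y) = x ^ 4 - 288) :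
    padicValRat 2 u < padicValRat 2 x ∧ padicValRat 2 x ≤ 2 := by
  obtain ⟨M, e, N, h1, e0, rfl, rfl, h2⟩ := quartic (A := 1) (B := 33) (C := 288) (v := y) (u := x)
    (by simpa using h)
  have e1 : (e : ℚ) ≠ 0 := by exact_mod_cast e0
  have M0 : (M : ℚ) ≠ 0 := fun c => hx (by simp [c])
  have N0 : (N : ℚ) ≠ 0 := fun c => by
    rw [c, zero_div, zero_pow two_ne_zero] at h
    exact absurd h (by positivity)
  have h3 : u * (2 * M * N * e) = M ^ 4 - 288 * e ^ 4 := by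
    field_simp at h'
    linear_combination h'
  have v2 : padicValRat 2 (2 : ℚ) = 1 := by simpa using padicValRat.self (p := 2) one_lt_two
  rw [padicValRat.div M0 e1]
  have a1 := val_int N
  have a2 := val_int e
  rcases Int.emod_two_eq_zero_or_one M with hM | hM
  · have he : e % 2 = 1 := (Int.emod_two_eq_zero_or_one e).resolve_left fun c => by
      have := Int.isUnit_iff_natAbs_eq.1 (h1.isUnit_of_dvd' (Int.dvd_of_emod_eq_zero hM)
        (Int.dvd_of_emod_eq_zero c))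
      norm_num at this
    have half : ∀ {N K : ℤ}, N ^ 2 = 4 * K → ∃ N', N = 2 * N' ∧ N' ^ 2 = K := fun {N K} h => by
      obtain ⟨N', rfl⟩ : 2 ∣ N := Int.prime_two.dvd_of_dvd_pow ⟨2 * K, by rw [h]; ring⟩
      exact ⟨N', rfl, by linarith⟩
    have H1 : ∀ N M e : ZMod 8, N ^ 2 = 4 * M ^ 4 + 33 * M ^ 2 * e ^ 2 + 72 * e ^ 4 →
        (4 : ℕ) * e = 0 ∨ (4 : ℕ) * M = 0 := by decide
    have H2 : ∀ N M e : ZMod 4, N ^ 2 = 16 * M ^ 4 + 33 * M ^ 2 * e ^ 2 + 18 * e ^ 4 →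
        (2 : ℕ) * M = 0 → (2 : ℕ) * e = 0 := by decide
    obtain ⟨M, rfl⟩ := Int.dvd_of_emod_eq_zero hM
    obtain ⟨N, rfl, h4⟩ := half (K := 4 * M ^ 4 + 33 * M ^ 2 * e ^ 2 + 72 * e ^ 4)
      (h2.trans (by ring))
    obtain ⟨M, rfl⟩ := (zmod_iff (p := 2) rfl (by norm_num) M).1
      ((H1 N M e (by exact_mod_cast congrArg (Int.cast : ℤ → ZMod 8) h4)).resolve_left fun c => by
        have := (zmod_iff (p := 2) rfl (by norm_num) e).1 c
        omega)
    obtain ⟨N, rfl, h5⟩ := half (K := 16 * M ^ 4 + 33 * M ^ 2 * e ^ 2 + 18 * e ^ 4)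
      (h4.trans (by ring))
    have hM' : M % 2 = 1 := (Int.emod_two_eq_zero_or_one M).resolve_left fun c => by
      have := (zmod_iff (p := 2) rfl (by norm_num) e).1
        (H2 N M e (by exact_mod_cast congrArg (Int.cast : ℤ → ZMod 4) h5)
          ((zmod_iff (p := 2) rfl (by norm_num) M).2 (Int.dvd_of_emod_eq_zero c)))
      omega
    push_cast at h3 M0 N0 ⊢
    have M1 : (M : ℚ) ≠ 0 := fun c => M0 (by simp [c])
    have N1 : (N : ℚ) ≠ 0 := fun c => N0 (by simp [c])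
    have h6 : u * (M * N * e) = (8 * M ^ 4 - 9 * e ^ 4 : ℤ) := by
      push_cast
      linear_combination h3 / 32
    have h7 := congrArg (padicValRat 2) h6
    rw [val_odd (k := 8 * M ^ 4 - 9 * e ^ 4) (by
        have := Int.odd_iff.1 ((Int.odd_iff.2 he).pow (n := 4))
        omega), padicValRat.mul hu (by positivity), padicValRat.mul (by positivity) e1,
      padicValRat.mul M1 N1, val_odd hM', val_odd he] at h7
    rw [padicValRat.mul two_ne_zero (by positivity), padicValRat.mul two_ne_zero M1, v2,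
      val_odd hM', val_odd he]
    constructor <;> linarith [val_int N]
  · have h4 := congrArg (padicValRat 2) h3
    have h5 : padicValRat 2 ((M : ℚ) ^ 4 - 288 * e ^ 4) = 0 := by
      have : (M ^ 4 - 288 * e ^ 4) % 2 = 1 := by
        have := Int.odd_iff.1 ((Int.odd_iff.2 hM).pow (n := 4))
        omega
      exact_mod_cast val_odd this
    rw [padicValRat.mul hu (by positivity), padicValRat.mul (by positivity) e1,
      padicValRat.mul (by positivity) N0, padicValRat.mul two_ne_zero M0, v2, val_odd hM, h5] at h4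
    rw [val_odd hM]
    constructor <;> linarith

theorem none {u v : ℚ} (hu : u ≠ 0) : v ^ 2 ≠ u ^ 4 + 33 * u ^ 2 + 288 := by
  induction hn : (2 - padicValRat 2 u).toNat using Nat.strong_induction_on generalizing u v with
  | _ n ih =>
  intro h
  obtain ⟨x, y, x0, h1, h2⟩ := step h
  obtain ⟨h3, h4⟩ := val_lt hu x0 h1 h2
  exact ih _ (by omega) x0 rfl h1

theorem y_zero {X Y : ℚ} (h : Y ^ 2 = X * (X ^ 2 + 33 * X + 288)) : Y = 0 := by
  by_contra hY
  obtain ⟨u, u0, rfl | hu⟩ := sq1 hY h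
  · exact none u0 (v := Y / u) (by rw [div_pow, h]; field_simp)
  · obtain rfl : X = 288 / u ^ 2 := by rw [← hu]; field_simp
    exact none u0 (v := Y * u ^ 3 / 288) (by rw [div_pow, mul_pow, h]; field_simp; ring)

end Pts

theorem card_points : Nat.card EQ.toAffine.Point = 2 := by
  have h0 : EQ.toAffine.Nonsingular 3 (-2) := by
    rw [WeierstrassCurve.Affine.nonsingular_iff]
    simp only [WeierstrassCurve.Affine.equation_iff, EQ]
    norm_num
  refine Nat.card_eq_two_iff.2 ⟨.zero, .some _ _ h0, nofun,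
    Set.eq_univ_of_forall fun P => ?_⟩
  rcases P with _ | ⟨x, y, h⟩
  · exact Or.inl rfl
  · have h1 := (WeierstrassCurve.Affine.equation_iff _ _).1 h.1
    simp only [EQ] at h1
    have h2 : (4 * (2 * y + x + 1)) ^ 2 =
        4 * (x - 3) * ((4 * (x - 3)) ^ 2 + 33 * (4 * (x - 3)) + 288) := by
      linear_combination 64 * h1
    have h3 := Pts.y_zero h2
    have h4 : 0 < (4 * (x - 3)) ^ 2 + 33 * (4 * (x - 3)) + 288 := by
      nlinarith [sq_nonneg (4 * (x - 3) + 33 / 2)]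
    rw [h3, zero_pow two_ne_zero] at h2
    obtain rfl : x = 3 := by linarith [(mul_eq_zero.1 h2.symm).resolve_right h4.ne']
    obtain rfl : y = -2 := by linarith
    exact Or.inr rfl

end Pool.Agent.Lib.MP_b18d48_nt
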