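import Pool.Agent.Lib.MP_b18d48_nt.Eta

/-!
Moebius maps with integer entries, the primitive `FF` of `2 π i f`, and the transformation of
`η ^ 24`.
-/

namespace Pool.Agent.Lib.MP_b18d48_nt

open Complex hiding eta
open ModularForm Filter Topology Asymptotics Metric
open scoped Real ComplexConjugate MatrixGroups

noncomputable def mob (a b c d : ℤ) (z : ℂ) : ℂ := (a * z + b) / (c * z + d)

lemma den_ne {a b c d : ℤ} (h : 0 < a * d - b * c) {z : ℂ} (hz : 0 < z.im) :
    (c : ℂ) * z + d ≠ 0 := by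
  intro h0
  have h1 := congrArg Complex.im h0
  have h2 := congrArg Complex.re h0
  simp at h1 h2
  rcases h1 with h1 | h1
  · subst h1
    simp at h2
    subst h2
    simp at h
  · exact hz.ne' h1

lemma mob_im (a b c d : ℤ) (z : ℂ) :
    (mob a b c d z).im = (a * d - b * c : ℤ) * z.im / normSq (c * z + d) := by
  rw [mob, Complex.div_im]
  simp
  ring

lemma mob_im_pos {a b c d : ℤ} (h : 0 < a * d - b * c) {z : ℂ} (hz : 0 < z.im) :
    0 < (mob a b c d z).im := by
  rw [mob_im]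
  have := normSq_pos.mpr (den_ne h hz)
  have h' : (0 : ℝ) < (a * d - b * c : ℤ) := by exact_mod_cast h
  positivity

lemma mob_den {a' b' c' d' : ℤ} (c d : ℤ) {z : ℂ} (h : (c' : ℂ) * z + d' ≠ 0) :
    (c : ℂ) * mob a' b' c' d' z + d =
      (((c * a' + d * c' : ℤ) : ℂ) * z + (c * b' + d * d' : ℤ)) / (c' * z + d') := by
  rw [mob, eq_div_iff h, add_mul, mul_assoc, div_mul_cancel₀ _ h]; push_cast; ring

lemma mob_mob {a' b' c' d' : ℤ} (a b c d : ℤ) {z : ℂ} (h : (c' : ℂ) * z + d' ≠ 0) :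
    mob a b c d (mob a' b' c' d' z) =
      mob (a * a' + b * c') (a * b' + b * d') (c * a' + d * c') (c * b' + d * d') z := by
  conv_lhs => rw [mob]
  rw [mob_den c d h, mob_den a b h, mob, div_div_div_cancel_right₀ h]

lemma mob_scale {k : ℤ} (hk : k ≠ 0) (a b c d : ℤ) (z : ℂ) :
    mob (k * a) (k * b) (k * c) (k * d) z = mob a b c d z := by
  have hk' : (k : ℂ) ≠ 0 := by exact_mod_cast hk
  rw [mob, mob, ← mul_div_mul_left (a * z + b : ℂ) _ hk']
  push_cast; congr 1 <;> ring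

lemma hasDerivAt_mob {a b c d : ℤ} {z : ℂ} (h : (c : ℂ) * z + d ≠ 0) :
    HasDerivAt (mob a b c d) ((a * d - b * c : ℤ) / (c * z + d) ^ 2) z := by
  have h1 : HasDerivAt (fun z : ℂ => (a : ℂ) * z + b) a z := by
    simpa using ((hasDerivAt_id z).const_mul (a : ℂ)).add_const (b : ℂ)
  have h2 : HasDerivAt (fun z : ℂ => (c : ℂ) * z + d) c z := by
    simpa using ((hasDerivAt_id z).const_mul (c : ℂ)).add_const (d : ℂ)
  have := h1.div h2 h
  rw [show ((a * d - b * c : ℤ) : ℂ) = a * (c * z + d) - (a * z + b) * c by push_cast; ring]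
  exact this

lemma eta_pow_mob {a b c d : ℤ} (h : a * d - b * c = 1) {z : ℂ} (hz : 0 < z.im) :
    eta (mob a b c d z) ^ 24 = (c * z + d) ^ 12 * eta z ^ 24 := by
  let γ : SL(2, ℤ) := ⟨!![a, b; c, d], by simp [Matrix.det_fin_two, h]⟩
  have h1 := SlashInvariantForm.slash_action_eqn'' (Γ := 𝒮ℒ) CuspForm.discriminant
    (γ := Matrix.SpecialLinearGroup.mapGL ℝ γ) ⟨γ, rfl⟩ ⟨z, hz⟩
  have h2 : ((γ • (⟨z, hz⟩ : UpperHalfPlane) : UpperHalfPlane) : ℂ) = mob a b c d z := by
    rw [UpperHalfPlane.coe_specialLinearGroup_apply]; simp [γ, mob]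
  have h3 : UpperHalfPlane.denom (Matrix.SpecialLinearGroup.mapGL ℝ γ) z = c * z + d := by
    simp [UpperHalfPlane.denom, γ, Matrix.SpecialLinearGroup.mapGL]
  change eta ((γ • (⟨z, hz⟩ : UpperHalfPlane) : UpperHalfPlane) : ℂ) ^ 24 =
    UpperHalfPlane.denom (Matrix.SpecialLinearGroup.mapGL ℝ γ) z ^ (12 : ℤ) * eta z ^ 24 at h1
  rw [h2, h3] at h1
  exact_mod_cast h1

lemma isPreconnected_H : IsPreconnected {z : ℂ | 0 < z.im} :=
  (convex_halfSpace_im_gt 0).isPreconnected

lemma isOpen_H : IsOpen {z : ℂ | 0 < z.im} := UpperHalfPlane.isOpen_upperHalfPlaneSet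

lemma const_of_pow {u : ℂ → ℂ} {n : ℕ} (hn : n ≠ 0) {c : ℂ}
    (hu : ∀ z : ℂ, 0 < z.im → ContinuousAt u z) (h : ∀ z : ℂ, 0 < z.im → u z ^ n = c)
    {z w : ℂ} (hz : 0 < z.im) (hw : 0 < w.im) : u z = u w := by
  classical
  refine isPreconnected_H.constant_of_mapsTo (T := ((Polynomial.nthRoots n c).toFinset : Set ℂ))
    (Set.Finite.isDiscrete (Finset.finite_toSet _))
    (fun x hx => (hu x hx).continuousWithinAt) (fun x hx => ?_) hz hw
  simpa [Polynomial.mem_nthRoots (Nat.pos_of_ne_zero hn)] using h x hx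

/-! ### The primitive -/

lemma exists_Psi : ∃ g : ℂ → ℂ, g 0 = 0 ∧ ∀ q ∈ ball (0 : ℂ) 1, HasDerivAt g (phi q) q :=
  (DifferentiableOn.isExactOn_ball (f := phi) fun q hq =>
    (phi_diffAt (by simpa using hq)).differentiableWithinAt).with_val_at 0 0

noncomputable def Psi : ℂ → ℂ := exists_Psi.choose

lemma Psi_zero : Psi 0 = 0 := exists_Psi.choose_spec.1

lemma hasDerivAt_Psi {q : ℂ} (hq : ‖q‖ < 1) : HasDerivAt Psi (phi q) q :=
  exists_Psi.choose_spec.2 q (by simpa using hq)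

lemma Psi_conj {q : ℂ} (hq : ‖q‖ < 1) : Psi (conj q) = conj (Psi q) := by
  have h1 : ∀ q : ℂ, ‖q‖ < 1 → HasDerivAt (conj ∘ Psi ∘ conj) (phi q) q := fun q hq => by
    have := (hasDerivAt_Psi (q := conj q) (by simpa using hq)).conj_conj
    simpa [phi_conj hq] using this
  have := isOpen_ball.eqOn_of_deriv_eq (convex_ball (0 : ℂ) 1).isPreconnected
    (f := conj ∘ Psi ∘ conj) (g := Psi)
    (fun q hq => (h1 q (by simpa using hq)).differentiableAt.differentiableWithinAt)
    (fun q hq => (hasDerivAt_Psi (by simpa using hq)).differentiableAt.differentiableWithinAt)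
    (fun q hq => by
      rw [(h1 q (by simpa using hq)).deriv, (hasDerivAt_Psi (by simpa using hq)).deriv])
    (mem_ball_self one_pos) (by simp [Psi_zero])
  have h2 := this (show q ∈ ball (0 : ℂ) 1 by simpa using hq)
  simp only [Function.comp_apply] at h2
  rw [← h2, conj_conj]

noncomputable def FF (z : ℂ) : ℂ := Psi (qq z)

lemma hasDerivAt_FF {z : ℂ} (hz : 0 < z.im) : HasDerivAt FF (2 * π * I * ff z) z := by
  have := (hasDerivAt_Psi (norm_qq_lt hz)).comp z (hasDerivAt_qq z)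
  rw [show 2 * π * I * ff z = phi (qq z) * (2 * π * I * qq z) by rw [ff]; ring]
  exact this

lemma FF_neg_conj {z : ℂ} (hz : 0 < z.im) : FF (-conj z) = conj (FF z) := by
  rw [FF, qq_neg_conj, Psi_conj (norm_qq_lt hz), FF]

lemma FF_add_int (z : ℂ) (n : ℤ) : FF (z + n) = FF z := by simp only [FF, qq_add_int]

lemma FF_mob {a b c d : ℤ} (h : 0 < a * d - b * c) {ε : ℂ}
    (hf : ∀ z : ℂ, 0 < z.im →
      ff (mob a b c d z) * (a * d - b * c : ℤ) = ε * (c * z + d) ^ 2 * ff z)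
    {z w : ℂ} (hz : 0 < z.im) (hw : 0 < w.im) :
    FF (mob a b c d z) - ε * FF z = FF (mob a b c d w) - ε * FF w := by
  have key : ∀ z : ℂ, 0 < z.im → HasDerivAt (fun z => FF (mob a b c d z) - ε * FF z) 0 z := by
    intro z hz
    have h1 := ((hasDerivAt_FF (mob_im_pos h hz)).comp z (hasDerivAt_mob (den_ne h hz))).sub
      ((hasDerivAt_FF hz).const_mul ε)
    have h2 : 2 * π * I * ff (mob a b c d z) * ((a * d - b * c : ℤ) / (c * z + d) ^ 2) -
        ε * (2 * π * I * ff z) = 0 := by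
      have := pow_ne_zero 2 (den_ne h hz)
      rw [← mul_div_assoc, mul_assoc, hf z hz, sub_eq_zero, div_eq_iff this]
      ring
    rw [h2] at h1
    exact h1
  exact isOpen_H.is_const_of_deriv_eq_zero isPreconnected_H
    (fun x hx => (key x hx).differentiableAt.differentiableWithinAt)
    (fun x hx => (key x hx).deriv) hz hw

end Pool.Agent.Lib.MP_b18d48_nt
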