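import Pool.Agent.Lib.MP_b18d48_nt.H7Table

/-!
Reduction theory of the curve 126a1 over a discrete valuation ring with uniformiser `p` and
residue field with `p` elements.
-/

namespace Pool.Agent.Lib.MP_b18d48_nt

open WeierstrassCurve IsLocalRing IsDiscreteValuationRing IsDedekindDomain.HeightOneSpectrum

section General

variable {R : Type*} [CommRing R] [IsDomain R] [IsDiscreteValuationRing R]
  {K : Type*} [Field K] [Algebra R K] [IsFractionRing R K]

omit [IsDomain R] [IsDiscreteValuationRing R] in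
theorem integralModel_baseChange (V : WeierstrassCurve R) [h : (V.baseChange K).IsIntegral R] :
    integralModel R (V.baseChange K) = V := by
  have := baseChange_integralModel_eq R (V.baseChange K)
  exact WeierstrassCurve.map_injective (IsFractionRing.injective R K) this

omit [IsDomain R] [IsDiscreteValuationRing R] [IsFractionRing R K] in
theorem isIntegral_baseChange (V : WeierstrassCurve R) : (V.baseChange K).IsIntegral R :=
  ⟨V, rfl⟩

theorem val_eq_one_iff (x : R) :
    valuation K (IsDiscreteValuationRing.maximalIdeal R) (algebraMap R K x) = 1 ↔ IsUnit x := by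
  have h1 := valuation_lt_one_iff_mem (K := K) (IsDiscreteValuationRing.maximalIdeal R) x
  have h2 := valuation_le_one (K := K) (IsDiscreteValuationRing.maximalIdeal R) x
  have h3 : x ∈ (IsDiscreteValuationRing.maximalIdeal R).asIdeal ↔ ¬ IsUnit x := by
    change x ∈ IsLocalRing.maximalIdeal R ↔ _
    simp
  rw [h3] at h1
  constructor
  · intro h
    by_contra hx
    exact (h1.2 hx).ne h
  · intro h
    rcases h2.lt_or_eq with h4 | h4
    · exact absurd h (h1.1 h4)
    · exact h4

theorem val_lt_one_iff (x : R) :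
    valuation K (IsDiscreteValuationRing.maximalIdeal R) (algebraMap R K x) < 1 ↔ ¬ IsUnit x := by
  rw [← val_eq_one_iff (K := K)]
  have h2 := valuation_le_one (K := K) (IsDiscreteValuationRing.maximalIdeal R) x
  exact ⟨fun h => h.ne, fun h => lt_of_le_of_ne h2 h⟩

/-- An integral equation whose discriminant is not divisible by the twelfth power of a non-unit
is minimal. -/
theorem isMinimal_of_not_dvd (V : WeierstrassCurve R)
    (hV : ∀ a : R, ¬ IsUnit a → ¬ a ^ 12 ∣ V.Δ) : (V.baseChange K).IsMinimal R := by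
  have := isIntegral_baseChange (K := K) V
  refine ⟨⟨by simpa using this, ?_⟩⟩
  intro C hC _
  have : (C • V.baseChange K).IsIntegral R := hC
  simp only [one_smul]
  rw [← Subtype.coe_le_coe, valuation_Δ_aux_eq_of_isIntegral, valuation_Δ_aux_eq_of_isIntegral,
    variableChange_Δ, map_mul, map_pow]
  have key : valuation K (IsDiscreteValuationRing.maximalIdeal R) (↑C.u⁻¹ : K) ≤ 1 := by
    rcases ValuationRing.isInteger_or_isInteger R (↑C.u⁻¹ : K) with ⟨a, ha⟩ | ⟨a, ha⟩
    · rw [← ha]; exact valuation_le_one _ _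
    · by_cases hu : IsUnit a
      · have h1 := (val_eq_one_iff (K := K) a).2 hu
        rw [ha, map_inv₀, inv_eq_one] at h1
        exact h1.le
      · exfalso
        apply hV a hu
        obtain ⟨d, hd⟩ := Δ_integral_of_isIntegral R (C • V.baseChange K)
        refine ⟨d, IsFractionRing.injective R K ?_⟩
        rw [map_mul, map_pow, ha, hd, variableChange_Δ, WeierstrassCurve.baseChange, map_Δ]
        have : (↑C.u⁻¹ : K) ≠ 0 := Units.ne_zero _
        field_simp
  exact mul_le_of_le_one_left' (pow_le_one' key _)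

/-- Two minimal equations differ by an integral change of variables. -/
theorem exists_integral_change (V : WeierstrassCurve R) (hΔ : V.Δ ≠ 0)
    [h1 : (V.baseChange K).IsMinimal R] (C : VariableChange K)
    [h2 : (C • V.baseChange K).IsMinimal R] :
    ∃ D : VariableChange R, D.map (algebraMap R K) = C := by
  have := isIntegral_baseChange (K := K) V
  have hI : (C • V.baseChange K).IsIntegral R := inferInstance
  have hle1 : valuation_Δ_aux R (C • V.baseChange K) = valuation_Δ_aux R (V.baseChange K) := by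
    have a1 := h1.val_Δ_maximal.2 (j := C) hI
    have a2 := h2.val_Δ_maximal.2 (j := C⁻¹) (by simpa using this)
    simp only [one_smul, inv_smul_smul] at a1 a2
    rcases le_total (valuation_Δ_aux R (C • V.baseChange K))
      (valuation_Δ_aux R (V.baseChange K)) with h | h
    · exact le_antisymm h (a2 h)
    · exact le_antisymm (a1 h) h
  have hv := congrArg Subtype.val hle1
  rw [valuation_Δ_aux_eq_of_isIntegral, valuation_Δ_aux_eq_of_isIntegral,
    variableChange_Δ, map_mul, map_pow] at hv
  have hne : valuation K (IsDiscreteValuationRing.maximalIdeal R) (V.baseChange K).Δ ≠ 0 := by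
    rw [Valuation.ne_zero_iff, WeierstrassCurve.baseChange, map_Δ]
    exact fun h => hΔ (IsFractionRing.injective R K (by simpa using h))
  have hu1 : valuation K (IsDiscreteValuationRing.maximalIdeal R) (↑C.u⁻¹ : K) = 1 := by
    have := (mul_eq_right₀ hne).1 hv
    exact (pow_eq_one_iff_of_nonneg zero_le (by norm_num)).1 this
  obtain ⟨u, hu⟩ : ∃ u : Rˣ, algebraMap R K u = C.u := by
    rcases ValuationRing.isInteger_or_isInteger R (↑C.u⁻¹ : K) with ⟨a, ha⟩ | ⟨a, ha⟩
    · obtain ⟨w, rfl⟩ := (val_eq_one_iff (K := K) a).1 (ha ▸ hu1)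
      refine ⟨w⁻¹, ?_⟩
      rw [map_units_inv, ha]; simp
    · have : valuation K (IsDiscreteValuationRing.maximalIdeal R) (algebraMap R K a) = 1 := by
        rw [ha, map_inv₀, hu1, inv_one]
      obtain ⟨w, rfl⟩ := (val_eq_one_iff (K := K) a).1 this
      exact ⟨w, by rw [ha]; simp⟩
  set I := integralModel R (C • V.baseChange K) with hI'
  have hu0 : (C.u : K) ≠ 0 := Units.ne_zero _
  have e6 := integralModel_b₆_eq R (C • V.baseChange K)
  have e8 := integralModel_b₈_eq R (C • V.baseChange K)
  have f2 := integralModel_a₂_eq R (C • V.baseChange K)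
  have f6 := integralModel_a₆_eq R (C • V.baseChange K)
  rw [← hI'] at e6 e8 f2 f6
  rw [variableChange_b₆] at e6
  rw [variableChange_b₈] at e8
  rw [variableChange_a₂] at f2
  rw [variableChange_a₆] at f6
  simp only [WeierstrassCurve.baseChange, map_b₂, map_b₄, map_b₆, map_b₈, map_a₁, map_a₂, map_a₃,
    map_a₄, map_a₆, Units.val_inv_eq_inv_val] at e6 e8 f2 f6
  field_simp at e6 e8 f2 f6
  obtain ⟨r, hr⟩ : ∃ r : R, algebraMap R K r = C.r := by
    apply IsIntegrallyClosed.algebraMap_eq_of_integral
    refine ⟨Polynomial.X ^ 4 + (- Polynomial.C V.b₄ * Polynomial.X ^ 2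
      - Polynomial.C (2 * V.b₆ + u ^ 6 * I.b₆) * Polynomial.X
      - Polynomial.C (V.b₈ - u ^ 8 * I.b₈)), ?_, ?_⟩
    · apply Polynomial.monic_X_pow_add
      apply lt_of_le_of_lt (b := 3) _ (by norm_num)
      compute_degree!
    · simp only [Polynomial.eval₂_add, Polynomial.eval₂_sub, Polynomial.eval₂_mul,
        Polynomial.eval₂_pow, Polynomial.eval₂_X, Polynomial.eval₂_C, Polynomial.eval₂_neg,
        map_add, map_mul, map_sub, map_pow, hu, map_ofNat, Polynomial.eval₂_ofNat]
      linear_combination e8 - C.r * e6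
  obtain ⟨s, hs⟩ : ∃ s : R, algebraMap R K s = C.s := by
    apply IsIntegrallyClosed.algebraMap_eq_of_integral
    refine ⟨Polynomial.X ^ 2 + (Polynomial.C V.a₁ * Polynomial.X
      + Polynomial.C (u ^ 2 * I.a₂ - V.a₂ - 3 * r)), ?_, ?_⟩
    · apply Polynomial.monic_X_pow_add
      apply lt_of_le_of_lt (b := 1) _ (by norm_num)
      compute_degree!
    · simp only [Polynomial.eval₂_add, Polynomial.eval₂_sub, Polynomial.eval₂_mul,
        Polynomial.eval₂_pow, Polynomial.eval₂_X, Polynomial.eval₂_C,
        map_mul, map_sub, map_pow, hu, hr, map_ofNat, Polynomial.eval₂_ofNat]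
      linear_combination f2
  obtain ⟨t, ht⟩ : ∃ t : R, algebraMap R K t = C.t := by
    apply IsIntegrallyClosed.algebraMap_eq_of_integral
    refine ⟨Polynomial.X ^ 2 + (Polynomial.C (V.a₃ + r * V.a₁) * Polynomial.X
      + Polynomial.C (u ^ 6 * I.a₆ - V.a₆ - r * V.a₄ - r ^ 2 * V.a₂ - r ^ 3)), ?_, ?_⟩
    · apply Polynomial.monic_X_pow_add
      apply lt_of_le_of_lt (b := 1) _ (by norm_num)
      compute_degree!
    · simp only [Polynomial.eval₂_add, Polynomial.eval₂_sub, Polynomial.eval₂_mul,
        Polynomial.eval₂_pow, Polynomial.eval₂_X, Polynomial.eval₂_C,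
        map_add, map_mul, map_sub, map_pow, hu, hr]
      linear_combination f6
  refine ⟨⟨u, r, s, t⟩, ?_⟩
  ext
  · simpa [VariableChange.map] using hu
  · simpa [VariableChange.map] using hr
  · simpa [VariableChange.map] using hs
  · simpa [VariableChange.map] using ht

/-- The splitting polynomial changes by an invertible affine substitution. -/
theorem split_of_roots (V : WeierstrassCurve R) (D : VariableChange R) (a b : R)
    (h1 : residue R (V.a₁ * V.c₄) = residue R (- V.c₄ * (a + b)))
    (h2 : residue R (54 * V.b₆ - 3 * V.b₂ * V.b₄ + V.a₂ * V.c₄) = residue R (- V.c₄ * (a * b))) :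
    Polynomial.Splits <| Polynomial.map (algebraMap R (ResidueField R)) <|
      Polynomial.C (D • V).c₄ * Polynomial.X ^ 2 + Polynomial.C ((D • V).a₁ * (D • V).c₄) * Polynomial.X
        - Polynomial.C (54 * (D • V).b₆ - 3 * (D • V).b₂ * (D • V).b₄ + (D • V).a₂ * (D • V).c₄) := by
  have hw : (D.u : R) * (↑D.u⁻¹ : R) = 1 := by simp
  have e1 : (D • V).a₁ * (D • V).c₄ = (↑D.u⁻¹ : R) ^ 5 * (V.a₁ * V.c₄ + 2 * D.s * V.c₄) := by
    rw [variableChange_a₁, variableChange_c₄]; ring
  have e2 : 54 * (D • V).b₆ - 3 * (D • V).b₂ * (D • V).b₄ + (D • V).a₂ * (D • V).c₄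
      = (↑D.u⁻¹ : R) ^ 6 * ((54 * V.b₆ - 3 * V.b₂ * V.b₄ + V.a₂ * V.c₄)
        - D.s * (V.a₁ * V.c₄) - D.s ^ 2 * V.c₄) := by
    rw [variableChange_a₂, variableChange_c₄, variableChange_b₂, variableChange_b₄,
      variableChange_b₆]
    simp only [WeierstrassCurve.c₄]
    ring
  have e3 : Polynomial.map (algebraMap R (ResidueField R))
      (Polynomial.C (D • V).c₄ * Polynomial.X ^ 2
        + Polynomial.C ((D • V).a₁ * (D • V).c₄) * Polynomial.X
        - Polynomial.C (54 * (D • V).b₆ - 3 * (D • V).b₂ * (D • V).b₄ + (D • V).a₂ * (D • V).c₄))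
      = Polynomial.C (residue R ((↑D.u⁻¹ : R) ^ 4 * V.c₄))
        * (Polynomial.X - Polynomial.C (residue R ((↑D.u⁻¹ : R) * (a - D.s))))
        * (Polynomial.X - Polynomial.C (residue R ((↑D.u⁻¹ : R) * (b - D.s)))) := by
    rw [e1, e2, variableChange_c₄]
    simp only [Polynomial.map_add, Polynomial.map_sub, Polynomial.map_mul, Polynomial.map_pow,
      Polynomial.map_C, Polynomial.map_X, IsLocalRing.ResidueField.algebraMap_eq]
    rw [map_mul (residue R) _ (_ + _), map_add (residue R), h1, map_mul (residue R) _ (_ - _ - _),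
      map_sub (residue R), map_sub (residue R), h2, map_mul (residue R) D.s (_ * _), h1]
    simp only [map_mul, map_add, map_sub, map_neg, map_pow, map_ofNat]
    ring
  rw [e3]
  exact ((Polynomial.Splits.C _).mul (Polynomial.Splits.X_sub_C _)).mul
    (Polynomial.Splits.X_sub_C _)

end General

/-- The number of affine points is invariant under a change of variables. -/
theorem card_equation_change {F : Type*} [Field F] (V : WeierstrassCurve F)
    (D : VariableChange F) :
    Nat.card {P : F × F // (D • V).toAffine.Equation P.1 P.2}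
      = Nat.card {P : F × F // V.toAffine.Equation P.1 P.2} := by
  have hu : (D.u : F) ≠ 0 := Units.ne_zero _
  let φ : F × F ≃ F × F :=
    { toFun := fun P => ((D.u : F) ^ 2 * P.1 + D.r,
        (D.u : F) ^ 3 * P.2 + (D.u : F) ^ 2 * D.s * P.1 + D.t)
      invFun := fun P => ((P.1 - D.r) / (D.u : F) ^ 2,
        (P.2 - D.s * (P.1 - D.r) - D.t) / (D.u : F) ^ 3)
      left_inv := fun P => by
        ext
        · simp only; field_simp; ring
        · simp only; field_simp; ring
      right_inv := fun P => by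
        ext
        · simp only; field_simp; ring
        · simp only; field_simp; ring }
  refine Nat.card_congr (φ.subtypeEquiv fun P => ?_)
  rw [Affine.equation_iff', Affine.equation_iff']
  simp only [φ, Equiv.coe_fn_mk, variableChange_a₁, variableChange_a₂, variableChange_a₃,
    variableChange_a₄, variableChange_a₆, Units.val_inv_eq_inv_val]
  rw [← mul_eq_zero_iff_left (pow_ne_zero 6 hu)]
  apply Eq.congr_left
  field_simp
  ring

theorem card_equation_equiv {F G : Type*} [Field F] [Field G] (e : F ≃+* G)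
    (V : WeierstrassCurve F) :
    Nat.card {P : F × F // V.toAffine.Equation P.1 P.2}
      = Nat.card {P : G × G // (V.map (e : F →+* G)).toAffine.Equation P.1 P.2} := by
  refine Nat.card_congr ((e.toEquiv.prodCongr e.toEquiv).subtypeEquiv fun P => ?_)
  exact (Affine.map_equation V.toAffine e.injective P.1 P.2).symm

section Special

variable {R : Type*} [CommRing R] [IsDomain R] [IsDiscreteValuationRing R]
  {K : Type*} [Field K] [Algebra R K] [IsFractionRing R K]
  {p : ℕ} [hp : Fact p.Prime]

/-- The integral model over a ring. -/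
def ER (R : Type*) [CommRing R] : WeierstrassCurve R := EZ.map (Int.castRingHom R)

omit [IsDomain R] [IsDiscreteValuationRing R] [IsFractionRing R K] in
theorem EQ_baseChange [Algebra ℚ K] : EQ.baseChange K = (ER R).baseChange K := by
  ext <;> simp [EQ, ER, EZ, WeierstrassCurve.baseChange, map_ofNat]

omit [IsDomain R] [IsDiscreteValuationRing R] in
theorem ER_Δ : (ER R).Δ = ((-20412 : ℤ) : R) := by
  rw [ER, map_Δ, EZ_Δ]; rfl

omit [IsDomain R] [IsDiscreteValuationRing R] in
theorem ER_c₄ : (ER R).c₄ = ((225 : ℤ) : R) := by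
  rw [ER, map_c₄, EZ_c₄]; rfl

theorem residue_intCast_eq_zero (e : ResidueField R ≃+* ZMod p) (n : ℤ) :
    residue R (n : R) = 0 ↔ (p : ℤ) ∣ n := by
  rw [← ZMod.intCast_zmod_eq_zero_iff_dvd, map_intCast, ← e.map_eq_zero_iff, map_intCast]

theorem isUnit_intCast (e : ResidueField R ≃+* ZMod p) (n : ℤ) :
    IsUnit (n : R) ↔ ¬ (p : ℤ) ∣ n := by
  rw [← residue_intCast_eq_zero e, residue_eq_zero_iff]
  simp

theorem pow_dvd_intCast (e : ResidueField R ≃+* ZMod p) (hi : Irreducible (p : R)) (k : ℕ) :
    ∀ n : ℤ, (p : R) ^ k ∣ (n : R) → (p : ℤ) ^ k ∣ n := by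
  induction k with
  | zero => simp
  | succ k ih =>
    intro n hn
    have h1 : (p : ℤ) ∣ n := by
      by_contra h
      have h2 := (isUnit_intCast e n).2 h
      exact hi.not_isUnit (isUnit_of_dvd_unit ((dvd_pow_self _ (Nat.succ_ne_zero k)).trans hn) h2)
    obtain ⟨m, rfl⟩ := h1
    rw [pow_succ', Int.cast_mul, Int.cast_natCast, mul_dvd_mul_iff_left hi.ne_zero] at hn
    rw [pow_succ']
    exact mul_dvd_mul_left _ (ih m hn)

theorem isMinimal_ER (e : ResidueField R ≃+* ZMod p) (hi : Irreducible (p : R)) :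
    ((ER R).baseChange K).IsMinimal R := by
  apply isMinimal_of_not_dvd
  intro a ha hd
  have h1 : (p : R) ∣ a := by
    rw [← Ideal.mem_span_singleton, ← hi.maximalIdeal_eq]
    exact ha
  rw [ER_Δ] at hd
  have h2 := pow_dvd_intCast e hi 12 _ ((pow_dvd_pow_of_dvd h1 12).trans hd)
  have h3 : p ^ 12 ∣ 20412 := by
    have := Int.natAbs_dvd_natAbs.2 h2
    simpa [Int.natAbs_pow] using this
  have h4 := Nat.le_of_dvd (by norm_num) h3
  have h5 : p < 3 := by
    by_contra h
    have : 3 ^ 12 ≤ p ^ 12 := Nat.pow_le_pow_left (not_lt.1 h) 12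
    omega
  have h6 := hp.out.two_le
  obtain rfl : p = 2 := by omega
  norm_num at h3

theorem mult_ER (e : ResidueField R ≃+* ZMod p) (D : VariableChange R)
    [h : ((D • ER R).baseChange K).IsMinimal R] :
    ((D • ER R).baseChange K).HasMultiplicativeReduction R ↔
      (p : ℤ) ∣ -20412 ∧ ¬ (p : ℤ) ∣ 225 := by
  rw [hasMultiplicativeReduction_iff, WeierstrassCurve.baseChange, map_Δ, map_c₄, val_eq_one_iff,
    val_lt_one_iff, variableChange_Δ, variableChange_c₄, ← Units.val_pow_eq_pow_val,
    ← Units.val_pow_eq_pow_val, Units.isUnit_units_mul, Units.isUnit_units_mul, ER_Δ, ER_c₄,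
    isUnit_intCast e, isUnit_intCast e, not_not]
  exact ⟨fun h => h.2, fun h' => ⟨h, h'⟩⟩

theorem good_ER (e : ResidueField R ≃+* ZMod p) (D : VariableChange R)
    [h : ((D • ER R).baseChange K).IsMinimal R] :
    ((D • ER R).baseChange K).HasGoodReduction R ↔ ¬ (p : ℤ) ∣ -20412 := by
  rw [hasGoodReduction_iff, WeierstrassCurve.baseChange, map_Δ, val_eq_one_iff,
    variableChange_Δ, ← Units.val_pow_eq_pow_val, Units.isUnit_units_mul, ER_Δ, isUnit_intCast e]
  exact ⟨fun h => h.2, fun h' => ⟨h, h'⟩⟩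

theorem split_ER (e : ResidueField R ≃+* ZMod p) (h27 : p = 2 ∨ p = 7) (D : VariableChange R)
    [h : ((D • ER R).baseChange K).IsMinimal R] :
    ((D • ER R).baseChange K).HasSplitMultiplicativeReduction R := by
  have hm : ((D • ER R).baseChange K).HasMultiplicativeReduction R := by
    rw [mult_ER e]
    rcases h27 with rfl | rfl <;> norm_num
  refine ⟨?_⟩
  rw [integralModel_baseChange]
  have key : ∀ m n : ℤ, (p : ℤ) ∣ m - n → residue R (m : R) = residue R (n : R) := by
    intro m n hmn
    rw [← sub_eq_zero, ← map_sub, ← Int.cast_sub, residue_intCast_eq_zero e]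
    exact hmn
  have c1 : (ER R).a₁ * (ER R).c₄ = ((225 : ℤ) : R) := by
    rw [ER_c₄]; simp [ER, EZ]
  have c2 : 54 * (ER R).b₆ - 3 * (ER R).b₂ * (ER R).b₄ + (ER R).a₂ * (ER R).c₄
      = ((-1764 : ℤ) : R) := by
    rw [ER_c₄]
    simp [ER, EZ, WeierstrassCurve.b₂, WeierstrassCurve.b₄, WeierstrassCurve.b₆]
    norm_num
  apply split_of_roots (ER R) D 0 (-1)
  · rw [c1, ER_c₄]; simp
  · rw [c2, ER_c₄, zero_mul, mul_zero, map_zero, residue_intCast_eq_zero e]
    rcases h27 with rfl | rfl <;> norm_num

end Special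

theorem isMinimal (p : ℕ) [Fact p.Prime] : (EQ.baseChange ℚ_[p]).IsMinimal ℤ_[p] := by
  rw [EQ_baseChange (R := ℤ_[p])]
  exact isMinimal_ER PadicInt.residueField PadicInt.irreducible_p

theorem split_padic (p : ℕ) [Fact p.Prime] (h27 : p = 2 ∨ p = 7) :
    (EQ.baseChange ℚ_[p]).HasSplitMultiplicativeReduction ℤ_[p] := by
  have h := isMinimal p
  rw [EQ_baseChange (R := ℤ_[p]), ← one_smul (VariableChange ℤ_[p]) (ER ℤ_[p])] at h ⊢
  exact split_ER PadicInt.residueField h27 1

theorem split2 : (EQ.baseChange ℚ_[2]).HasSplitMultiplicativeReduction ℤ_[2] :=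
  split_padic 2 (Or.inl rfl)

theorem split7 [Fact (Nat.Prime 7)] : (EQ.baseChange ℚ_[7]).HasSplitMultiplicativeReduction ℤ_[7] :=
  split_padic 7 (Or.inr rfl)

end Pool.Agent.Lib.MP_b18d48_nt
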