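import Pool.Agent.Lib.MP_b18d48_nt.Defs

/-!
The Sturm bound for weight two forms on `Γ₀(126)`.
-/

namespace Pool.Agent.Lib.MP_b18d48_nt

open UpperHalfPlane ModularForm CongruenceSubgroup Filter Asymptotics
open scoped MatrixGroups ModularForm

theorem sturm_index_le (q : ℕ) (R : Finset (ZMod q × ZMod q)) (t : ZMod q) (ht : t ≠ 0)
    (h1 : ∀ r ∈ R, r.1 = 1 ∨ r.2 = 1)
    (h2 : ∀ a c : ZMod q, (t * a = 0 ∧ t * c = 0) ∨ ∃ r ∈ R, a * r.2 = c * r.1) :
    (Gamma0 q).index ≤ R.card := by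
  have key : ∀ g : SL(2, ℤ), ∃ r : R, (g 0 0 : ZMod q) * r.1.2 = (g 1 0 : ZMod q) * r.1.1 := by
    intro g
    rcases h2 (g 0 0) (g 1 0) with h | ⟨r, hr, h⟩
    · have hd := g.det_coe
      rw [Matrix.det_fin_two] at hd
      have hd' := congrArg (Int.cast : ℤ → ZMod q) hd
      push_cast at hd'
      exact (ht (by linear_combination (-t) * hd' + (g 1 1 : ZMod q) * h.1 -
        (g 0 1 : ZMod q) * h.2)).elim
    · exact ⟨⟨r, hr⟩, h⟩
  choose φ hφ using key
  rw [← Nat.card_eq_finsetCard]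
  refine Nat.card_le_card_of_injective (fun x : SL(2, ℤ) ⧸ Gamma0 q => φ x.out) fun x y hxy => ?_
  rw [← x.out_eq, ← y.out_eq]
  refine QuotientGroup.eq.2 ?_
  have e1 := hφ x.out
  have e2 := hφ y.out
  simp only at hxy
  rw [hxy] at e1
  rw [Gamma0_mem]
  simp only [Matrix.SpecialLinearGroup.coe_mul, Matrix.SpecialLinearGroup.coe_inv,
    Matrix.adjugate_fin_two, Matrix.mul_apply, Fin.sum_univ_two]
  simp only [Matrix.of_apply, Matrix.cons_val', Matrix.cons_val_zero, Matrix.cons_val_one,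
    Matrix.cons_val_fin_one]
  push_cast
  rcases h1 _ (φ y.out).2 with h | h
  · rw [h] at e1 e2
    linear_combination (y.out 0 0 : ZMod q) * e1 - (x.out 0 0 : ZMod q) * e2
  · rw [h] at e1 e2
    linear_combination (y.out 1 0 : ZMod q) * e1 - (x.out 1 0 : ZMod q) * e2

theorem sturm_index_2 : (Gamma0 2).index ≤ 3 :=
  (sturm_index_le 2 {(1, 0), (1, 1), (0, 1)} 1 (by decide +kernel) (by decide +kernel)
    (by decide +kernel)).trans (by decide +kernel)

theorem sturm_index_7 : (Gamma0 7).index ≤ 8 :=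
  (sturm_index_le 7 {(1, 0), (1, 1), (1, 2), (1, 3), (1, 4), (1, 5), (1, 6), (0, 1)} 1
    (by decide +kernel) (by decide +kernel) (by decide +kernel)).trans (by decide +kernel)

theorem sturm_index_9 : (Gamma0 9).index ≤ 12 :=
  (sturm_index_le 9 {(1, 0), (1, 1), (1, 2), (1, 3), (1, 4), (1, 5), (1, 6), (1, 7), (1, 8),
    (0, 1), (3, 1), (6, 1)} 3 (by decide +kernel) (by decide +kernel)
    (by decide +kernel)).trans (by decide +kernel)

theorem sturm_index_126 : (Gamma0 126).index ≤ 288 := by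
  have hle : Gamma0 2 ⊓ Gamma0 7 ⊓ Gamma0 9 ≤ Gamma0 126 := by
    intro g hg
    simp only [Subgroup.mem_inf, Gamma0_mem, ZMod.intCast_zmod_eq_zero_iff_dvd] at hg ⊢
    omega
  refine (Subgroup.index_antitone hle).trans (Subgroup.index_inf_le.trans ?_)
  exact (Nat.mul_le_mul (Subgroup.index_inf_le.trans (Nat.mul_le_mul sturm_index_2 sturm_index_7))
    sturm_index_9).trans (by norm_num)

theorem sturm_one (n : ℕ) : ∀ (k : ℤ) (f : ModularForm 𝒮ℒ k), k < 12 * n →
    ((fun τ : ℍ => f τ) =O[atImInfty] fun τ : ℍ => discriminant τ ^ n) → (f : ℍ → ℂ) = 0 := by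
  induction n with
  | zero => exact fun k f hk _ => ModularFormClass.levelOne_neg_weight_eq_zero (by simpa using hk) f
  | succ n ih =>
    intro k f hk hO
    have hs : ∀ γ : SL(2, ℤ), (fun z => f z / discriminant z) ∣[k - 12] γ =
        fun z => f z / discriminant z := by
      intro γ
      have hγ : (γ : GL (Fin 2) ℝ) ∈ 𝒮ℒ := ⟨γ, rfl⟩
      change (⇑f / ⇑CuspForm.discriminant) ∣[k - 12] γ = ⇑f / ⇑CuspForm.discriminant
      simp_rw [div_slash_SL2, SL_slash, SlashInvariantForm.slash_action_eqn _ _ hγ]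
    have hO' : (fun z => f z / discriminant z) =O[atImInfty] fun τ : ℍ => discriminant τ ^ n := by
      refine (hO.mul (isBigO_refl (fun τ => (discriminant τ)⁻¹) _)).congr (fun τ => ?_) fun τ => ?_
      · rw [div_eq_mul_inv]
      · rw [pow_succ, mul_inv_cancel_right₀ (discriminant_ne_zero τ)]
    have hb : (fun τ : ℍ => discriminant τ ^ n) =O[atImInfty] (1 : ℍ → ℝ) :=
      (discriminant_isZeroAtImInfty.pow n).isBigO_one ℝ
    let g : ModularForm 𝒮ℒ (k - 12) :=
      { toFun z := f z / discriminant z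
        slash_action_eq' := fun _ ⟨γ, hγ⟩ => hγ ▸ hs γ
        holo' := f.holo'.div CuspForm.discriminant.holo' discriminant_ne_zero
        bdd_at_cusps' {c} hc := by
          rw [OnePoint.isBoundedAt_iff_forall_SL2Z hc]
          intro γ _
          rw [hs γ]
          exact hO'.trans hb }
    have := ih _ g (by push_cast at hk; omega) hO'
    funext τ
    exact (div_eq_zero_iff.1 (congrFun this τ)).resolve_right (discriminant_ne_zero τ)

theorem sturm126 (h : ModularForm (CongruenceSubgroup.Gamma0 126 : Subgroup (GL (Fin 2) ℝ)) 2)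
    (hO : (fun τ : ℍ => h τ) =O[UpperHalfPlane.atImInfty]
      fun τ : ℍ => Real.exp (-2 * Real.pi * 49 * τ.im)) : (h : ℍ → ℂ) = 0 := by
  classical
  rw [← ModularForm.norm_eq_zero_iff 𝒮ℒ, ← FunLike.coe_zero_iff]
  have hc : Nat.card (𝒮ℒ ⧸ (Gamma0 126 : Subgroup (GL (Fin 2) ℝ)).subgroupOf 𝒮ℒ) ≤ 288 := by
    refine le_of_eq_of_le ?_ sturm_index_126
    change Subgroup.relIndex _ _ = _
    rw [← Subgroup.index_comap, Subgroup.comap_map_eq_self_of_injective
      Matrix.SpecialLinearGroup.mapGL_injective]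
  refine sturm_one 49 _ _ (by omega) ?_
  have h1 : (fun τ : ℍ => h τ) =O[atImInfty] fun τ : ℍ => discriminant τ ^ 49 := by
    refine hO.trans ((exp_isBigO_discriminant.pow 49).congr_left fun τ => ?_)
    rw [← Real.exp_nat_mul]
    congr 1
    push_cast
    ring
  let _ := Fintype.ofFinite (𝒮ℒ ⧸ (Gamma0 126 : Subgroup (GL (Fin 2) ℝ)).subgroupOf 𝒮ℒ)
  have h2 : (fun τ : ℍ => ∏ q ∈ Finset.univ.erase
      (⟦1⟧ : 𝒮ℒ ⧸ (Gamma0 126 : Subgroup (GL (Fin 2) ℝ)).subgroupOf 𝒮ℒ),
      SlashInvariantForm.quotientFunc h q τ) =O[atImInfty] fun _ => (1 : ℝ) := by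
    rw [← Finset.prod_const_one (s := Finset.univ.erase
      (⟦1⟧ : 𝒮ℒ ⧸ (Gamma0 126 : Subgroup (GL (Fin 2) ℝ)).subgroupOf 𝒮ℒ))]
    refine .finsetProd (Quotient.forall.mpr fun ⟨r, γ, hr⟩ _ => ?_)
    subst hr
    rw [SlashInvariantForm.quotientFunc_mk, ← map_inv]
    exact ModularFormClass.bdd_at_infty_slash h γ⁻¹
  have h3 := (h1.norm_right.mul h2).congr_right fun τ => mul_one _
  refine h3.of_norm_right.congr_left fun τ => ?_
  rw [ModularForm.coe_norm, Finset.prod_apply, ← Finset.mul_prod_erase _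
    (fun q => SlashInvariantForm.quotientFunc h q τ) (Finset.mem_univ ⟦1⟧)]
  congr 1
  simp

end Pool.Agent.Lib.MP_b18d48_nt
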