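import Pool.Agent.Lib.MP_b18d48_nt.Prim

/-!
Transformation of `f`, `t` and `Im F` under the normaliser of `Γ₀(14)`.
-/

namespace Pool.Agent.Lib.MP_b18d48_nt

open Complex hiding eta
open ModularForm Filter Topology Asymptotics Metric
open scoped Real ComplexConjugate MatrixGroups

structure G0 (a b c d ε : ℤ) (σ : Bool) : Prop where
  det : 0 < a * d - b * c
  hf : ∀ z : ℂ, 0 < z.im →
    ff (mob a b c d z) * (a * d - b * c : ℤ) = ε * (c * z + d) ^ 2 * ff z
  ht : ∀ z : ℂ, 0 < z.im → tt (mob a b c d z) = if σ then 8 / tt z else tt z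

lemma G0.mul {a b c d ε a' b' c' d' ε' : ℤ} {σ σ' : Bool} (h : G0 a b c d ε σ)
    (h' : G0 a' b' c' d' ε' σ') :
    G0 (a * a' + b * c') (a * b' + b * d') (c * a' + d * c') (c * b' + d * d') (ε * ε')
      (xor σ σ') := by
  have hdet : (a * a' + b * c') * (c * b' + d * d') - (a * b' + b * d') * (c * a' + d * c') =
      (a * d - b * c) * (a' * d' - b' * c') := by ring
  refine ⟨by rw [hdet]; exact mul_pos h.det h'.det, fun z hz => ?_, fun z hz => ?_⟩
  · have hd := den_ne h'.det hz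
    have h1 := h.hf _ (mob_im_pos h'.det hz)
    have h2 := h'.hf z hz
    rw [mob_mob _ _ _ _ hd, mob_den _ _ hd, div_pow] at h1
    rw [hdet, Int.cast_mul, ← mul_assoc, h1, mul_assoc, h2]
    rw [Int.cast_mul ε]
    generalize (c' * z + d' : ℂ) = j at hd
    field_simp
  · have hd := den_ne h'.det hz
    have h1 := h.ht _ (mob_im_pos h'.det hz)
    have h2 := h'.ht z hz
    have := tt_ne hz
    rw [mob_mob _ _ _ _ hd, h2] at h1
    rw [h1]
    cases σ <;> cases σ' <;> simp

lemma G0.of_scale {k a b c d ε : ℤ} {σ : Bool} (hk : k ≠ 0)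
    (h : G0 (k * a) (k * b) (k * c) (k * d) ε σ) : G0 a b c d ε σ := by
  have hk' : (k : ℂ) ≠ 0 := by exact_mod_cast hk
  refine ⟨?_, fun z hz => ?_, fun z hz => ?_⟩
  · have := h.det
    have h2 : 0 < k ^ 2 := by positivity
    have h3 : k * a * (k * d) - k * b * (k * c) = k ^ 2 * (a * d - b * c) := by ring
    rw [h3] at this
    exact (pos_iff_pos_of_mul_pos this).mp h2
  · have := h.hf z hz
    rw [mob_scale hk] at this
    apply mul_left_cancel₀ (pow_ne_zero 2 hk')
    push_cast at this ⊢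
    linear_combination this
  · have := h.ht z hz
    rwa [mob_scale hk] at this

lemma mob_T (n : ℤ) (z : ℂ) : mob 1 n 0 1 z = z + n := by simp [mob]

lemma G0_T (n : ℤ) : G0 1 n 0 1 1 false :=
  ⟨by simp, fun z _ => by simp [mob_T, ff_add_int], fun z _ => by simp [mob_T, tt_add_int]⟩

lemma eta_S {r : ℝ} (hr : 0 < r) {z : ℂ} (hz : 0 < z.im) :
    eta (-1 / (r * z)) = (Complex.sqrt I)⁻¹ * (√r * Complex.sqrt z * eta (r * z)) := by
  have hz0 : z ≠ 0 := by rintro rfl; simp at hz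
  have h1 := eta_comp_eq_csqrt_I_inv (show (r * z : ℂ) ∈ UpperHalfPlane.upperHalfPlaneSet by
    simp [hr, hz])
  have h2 : Complex.sqrt (r * z) = √r * Complex.sqrt z := by
    have hr0 : (r : ℂ) ≠ 0 := by exact_mod_cast hr.ne'
    rw [Complex.sqrt, Complex.sqrt, cpow_def_of_ne_zero (mul_ne_zero hr0 hz0),
      cpow_def_of_ne_zero hz0, log_ofReal_mul hr hz0, add_mul, Complex.exp_add,
      Real.sqrt_eq_rpow, Real.rpow_def_of_pos hr]
    push_cast; congr 2; ring
  simpa [h2] using h1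

lemma csqrt_sq (z : ℂ) : Complex.sqrt z ^ 2 = z := by
  rw [Complex.sqrt]; exact cpow_ofNat_inv_pow z 2

lemma eta_ne' {r : ℝ} (hr : 0 < r) {z : ℂ} (hz : 0 < z.im) : eta (r * z) ≠ 0 :=
  eta_ne_zero (by simp [hr, hz])

lemma G0_W14 : G0 0 (-1) 14 0 (-1) true := by
  have key : ∀ z : ℂ, 0 < z.im →
      eta (mob 0 (-1) 14 0 z) = (Complex.sqrt I)⁻¹ * (√14 * Complex.sqrt z * eta (14 * z)) ∧
      eta (2 * mob 0 (-1) 14 0 z) = (Complex.sqrt I)⁻¹ * (√7 * Complex.sqrt z * eta (7 * z)) ∧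
      eta (7 * mob 0 (-1) 14 0 z) = (Complex.sqrt I)⁻¹ * (√2 * Complex.sqrt z * eta (2 * z)) ∧
      eta (14 * mob 0 (-1) 14 0 z) = (Complex.sqrt I)⁻¹ * (Complex.sqrt z * eta z) := by
    intro z hz
    have hz0 : z ≠ 0 := by rintro rfl; simp at hz
    have h14 := eta_S (r := 14) (by norm_num) hz
    have h7 := eta_S (r := 7) (by norm_num) hz
    have h2 := eta_S (r := 2) (by norm_num) hz
    have h1 := eta_S (r := 1) (by norm_num) hz
    simp only [ofReal_ofNat, ofReal_one, one_mul, Real.sqrt_one] at h14 h7 h2 h1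
    refine ⟨?_, ?_, ?_, ?_⟩
    · rw [← h14]; congr 1; simp [mob]
    · rw [← h7]; congr 1; simp [mob]; field_simp; norm_num
    · rw [← h2]; congr 1; simp [mob]; field_simp; norm_num
    · rw [← h1]; congr 1; simp [mob]; field_simp
  have s14 : ((√14 : ℝ) : ℂ) = √7 * √2 := by
    rw [← ofReal_mul, ← Real.sqrt_mul (by norm_num)]; norm_num
  have s7 : ((√7 : ℝ) : ℂ) ^ 2 = 7 := by
    rw [← ofReal_pow, Real.sq_sqrt (by norm_num)]; norm_num
  have s2 : ((√2 : ℝ) : ℂ) ^ 2 = 2 := by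
    rw [← ofReal_pow, Real.sq_sqrt (by norm_num)]; norm_num
  have s70 : ((√7 : ℝ) : ℂ) ≠ 0 := by intro h; rw [h] at s7; norm_num at s7
  have sI : Complex.sqrt I ^ 4 = -1 := by
    rw [show (4 : ℕ) = 2 * 2 from rfl, pow_mul, csqrt_sq, I_sq]
  have sI0 : Complex.sqrt I ≠ 0 := by intro h; rw [h] at sI; norm_num at sI
  refine ⟨by norm_num, fun z hz => ?_, fun z hz => ?_⟩
  · obtain ⟨h1, h2, h3, h4⟩ := key z hz
    rw [ff_eq, ff_eq, h1, h2, h3, h4, s14]
    have sz : Complex.sqrt z ^ 4 = z ^ 2 := by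
      rw [show (4 : ℕ) = 2 * 2 from rfl, pow_mul, csqrt_sq]
    field_simp
    rw [s7, s2, sI, sz]
    push_cast; ring
  · obtain ⟨h1, h2, h3, h4⟩ := key z hz
    have hz0 : z ≠ 0 := by rintro rfl; simp at hz
    have sz0 : Complex.sqrt z ≠ 0 := by
      intro h; have := csqrt_sq z; rw [h] at this; exact hz0 (by simpa using this.symm)
    have e1 : eta z ≠ 0 := eta_ne_zero hz
    have e2 : eta (2 * z) ≠ 0 := by simpa using eta_ne' (r := 2) (by norm_num) hz
    have e7 : eta (7 * z) ≠ 0 := by simpa using eta_ne' (r := 7) (by norm_num) hz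
    have e14 : eta (14 * z) ≠ 0 := by simpa using eta_ne' (r := 14) (by norm_num) hz
    rw [tt_eq (mob_im_pos (by norm_num) hz), tt_eq hz, h1, h2, h3, h4, s14]
    simp only [if_true]
    generalize eta (2 * z) = x2 at e2
    generalize eta (7 * z) = x7 at e7
    generalize eta (14 * z) = x14 at e14
    have s8 : ((√2 : ℝ) : ℂ) ^ 6 = 8 := by
      have : ((√2 : ℝ) : ℂ) ^ 6 = (((√2 : ℝ) : ℂ) ^ 2) ^ 3 := by ring
      rw [this, s2]; norm_num
    field_simp
    exact s8

lemma W7_fix {a b c : ℤ} (h : -7 * a ^ 2 - 2 * b * c = 1) (hc : 0 < c) :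
    0 < ((7 * a + √7 * I) / (14 * c) : ℂ).im ∧
    ((14 * c : ℤ) * ((7 * a + √7 * I) / (14 * c)) + (-7 * a : ℤ) : ℂ) ^ 2 = -7 ∧
    mob (7 * a) b (14 * c) (-7 * a) ((7 * a + √7 * I) / (14 * c)) =
      (7 * a + √7 * I) / (14 * c) := by
  have s7 : ((√7 : ℝ) : ℂ) ^ 2 = 7 := by
    rw [← ofReal_pow, Real.sq_sqrt (by norm_num)]; norm_num
  have s70 : ((√7 : ℝ) : ℂ) ≠ 0 := by intro h; rw [h] at s7; norm_num at s7
  have hc' : (c : ℂ) ≠ 0 := by exact_mod_cast hc.ne'
  have h' : -7 * (a : ℂ) ^ 2 - 2 * b * c = 1 := by exact_mod_cast h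
  have hden : ((14 * c : ℤ) * ((7 * a + √7 * I) / (14 * c)) + (-7 * a : ℤ) : ℂ) = √7 * I := by
    push_cast; field_simp; ring
  refine ⟨?_, ?_, ?_⟩
  · have : ((7 * a + √7 * I) / (14 * c) : ℂ) = (7 * a + √7 * I) / ((14 * c : ℝ) : ℂ) := by
      push_cast; rfl
    rw [this, div_ofReal_im]
    have : (0 : ℝ) < c := by exact_mod_cast hc
    simp
    positivity
  · rw [hden, mul_pow, s7, I_sq]; ring
  · rw [mob, hden]
    push_cast
    field_simp
    linear_combination (-7) * h' - s7 * I ^ 2 - 7 * I_sq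

lemma G0_W7 {a b c : ℤ} (h : -7 * a ^ 2 - 2 * b * c = 1) (hc : 0 < c) :
    G0 (7 * a) b (14 * c) (-7 * a) (-1) false := by
  have hdet : 7 * a * (-7 * a) - b * (14 * c) = 7 := by linarith
  have hdet' : 0 < 7 * a * (-7 * a) - b * (14 * c) := by rw [hdet]; norm_num
  have key : ∀ z : ℂ, 0 < z.im →
      eta (mob (7 * a) b (14 * c) (-7 * a) z) ^ 24 =
        ((14 * c : ℤ) * z + (-7 * a : ℤ)) ^ 12 * eta (7 * z) ^ 24 ∧
      eta (2 * mob (7 * a) b (14 * c) (-7 * a) z) ^ 24 =
        ((14 * c : ℤ) * z + (-7 * a : ℤ)) ^ 12 * eta (14 * z) ^ 24 ∧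
      eta (7 * mob (7 * a) b (14 * c) (-7 * a) z) ^ 24 =
        (((14 * c : ℤ) * z + (-7 * a : ℤ)) / 7) ^ 12 * eta z ^ 24 ∧
      eta (14 * mob (7 * a) b (14 * c) (-7 * a) z) ^ 24 =
        (((14 * c : ℤ) * z + (-7 * a : ℤ)) / 7) ^ 12 * eta (2 * z) ^ 24 := by
    intro z hz
    have hd := den_ne hdet' hz
    have hd' : (2 * c * z - a : ℂ) ≠ 0 := by
      intro h0; apply hd; push_cast; linear_combination 7 * h0
    have e : ((14 * c : ℤ) * z + (-7 * a : ℤ) : ℂ) = 7 * (2 * c * z - a) := by push_cast; ring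
    have h1 := eta_pow_mob (a := a) (b := b) (c := 2 * c) (d := -7 * a) (by linarith)
      (z := 7 * z) (by simp [hz])
    have h2 := eta_pow_mob (a := a) (b := 2 * b) (c := c) (d := -7 * a) (by linarith)
      (z := 14 * z) (by simp [hz])
    have h3 := eta_pow_mob (a := 7 * a) (b := b) (c := 2 * c) (d := -a) (by linarith) hz
    have h4 := eta_pow_mob (a := 7 * a) (b := 2 * b) (c := c) (d := -a) (by linarith)
      (z := 2 * z) (by simp [hz])
    refine ⟨?_, ?_, ?_, ?_⟩
    · convert h1 using 3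
      · simp only [mob]; push_cast; congr 1 <;> ring
      · push_cast; ring
    · convert h2 using 3
      · simp only [mob]; push_cast; rw [← mul_div_assoc]; congr 1 <;> ring
      · push_cast; ring
    · convert h3 using 3
      · simp only [mob]; rw [e]; push_cast
        rw [show (2 * c * z + -a : ℂ) = 2 * c * z - a by ring]; field_simp
      · rw [e]; push_cast; ring
    · convert h4 using 3
      · simp only [mob]; rw [e]; push_cast
        rw [show (c * (2 * z) + -a : ℂ) = 2 * c * z - a by ring]; field_simp; ring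
      · rw [e]; push_cast; ring
  obtain ⟨hz0, hden0, hfix⟩ := W7_fix h hc
  have hne : ∀ z : ℂ, 0 < z.im → eta z ≠ 0 ∧ eta (2 * z) ≠ 0 ∧ eta (7 * z) ≠ 0 ∧
      eta (14 * z) ≠ 0 := fun z hz =>
    ⟨eta_ne_zero hz, by simpa using eta_ne' (r := 2) (by norm_num) hz,
      by simpa using eta_ne' (r := 7) (by norm_num) hz,
      by simpa using eta_ne' (r := 14) (by norm_num) hz⟩
  refine ⟨hdet', fun z hz => ?_, fun z hz => ?_⟩
  · have := const_of_pow (n := 24) (c := 1) (u := fun z => ff (mob (7 * a) b (14 * c) (-7 * a) z) * 7 /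
        (((14 * c : ℤ) * z + (-7 * a : ℤ)) ^ 2 * ff z)) (by norm_num) ?_ ?_ hz hz0
    · simp only [hfix, hden0] at this
      have h1 := ff_ne hz0
      have h2 := ff_ne hz
      have h3 := den_ne hdet' hz
      rw [div_eq_div_iff (mul_ne_zero (pow_ne_zero 2 h3) h2) (mul_ne_zero (by norm_num) h1)] at this
      rw [hdet]
      apply mul_left_cancel₀ (mul_ne_zero (show (-7 : ℂ) ≠ 0 by norm_num) h1)
      push_cast at this ⊢
      linear_combination this
    · intro z hz
      have h3 := den_ne hdet' hz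
      refine ContinuousAt.div (ContinuousAt.mul ?_ continuousAt_const)
        (ContinuousAt.mul (by fun_prop) (ff_diffAt hz).continuousAt)
        (mul_ne_zero (pow_ne_zero 2 h3) (ff_ne hz))
      exact (ff_diffAt (mob_im_pos hdet' hz)).continuousAt.comp (hasDerivAt_mob h3).continuousAt
    · intro z hz
      obtain ⟨h1, h2, h3, h4⟩ := key z hz
      obtain ⟨n1, n2, n3, n4⟩ := hne z hz
      have h5 := den_ne hdet' hz
      simp only [ff_eq, div_pow, mul_pow, h1, h2, h3, h4]
      generalize ((14 * c : ℤ) * z + (-7 * a : ℤ) : ℂ) = j at h5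
      generalize eta (2 * z) = x2 at n2
      generalize eta (7 * z) = x7 at n3
      generalize eta (14 * z) = x14 at n4
      field_simp
  · have := const_of_pow (n := 8) (c := 1)
      (u := fun z => tt (mob (7 * a) b (14 * c) (-7 * a) z) / tt z) (by norm_num) ?_ ?_ hz hz0
    · simp only [hfix, div_self (tt_ne hz0)] at this
      simpa [div_eq_one_iff_eq (tt_ne hz)] using this
    · intro z hz
      have h3 := den_ne hdet' hz
      exact ContinuousAt.div
        ((tt_diffAt (mob_im_pos hdet' hz)).continuousAt.comp (hasDerivAt_mob h3).continuousAt)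
        (tt_diffAt hz).continuousAt (tt_ne hz)
    · intro z hz
      obtain ⟨h1, h2, h3, h4⟩ := key z hz
      obtain ⟨n1, n2, n3, n4⟩ := hne z hz
      have h5 := den_ne hdet' hz
      simp only [tt_eq hz, tt_eq (mob_im_pos hdet' hz), div_pow, mul_pow, ← pow_mul, h1, h2, h3, h4]
      generalize ((14 * c : ℤ) * z + (-7 * a : ℤ) : ℂ) = j at h5
      generalize eta (2 * z) = x2 at n2
      generalize eta (7 * z) = x7 at n3
      generalize eta (14 * z) = x14 at n4
      field_simp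
      ring

lemma G0_W2i : G0 4 1 14 4 1 true :=
  G0.of_scale (k := -7) (by norm_num)
    (by simpa using G0_W14.mul (G0_W7 (a := -1) (b := -2) (c := 2) (by norm_num) (by norm_num)))

lemma G0_W2 : G0 4 (-1) (-14) 4 1 true :=
  G0.of_scale (k := -7) (by norm_num)
    (by simpa using G0_W14.mul (G0_W7 (a := 1) (b := -2) (c := 2) (by norm_num) (by norm_num)))

end Pool.Agent.Lib.MP_b18d48_nt
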