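import Pool.Agent.Lib.MP_b18d48_nt.Form
import Pool.Agent.Lib.MP_b18d48_nt.Expand
import Pool.Agent.Lib.MP_b18d48_nt.Sturm
import Pool.Agent.Lib.MP_b18d48_nt.H7Table

/-!
The quadratic twist of `f` by the character of conductor `3` is the unique cusp form of weight two
on `Γ₀(126)` whose first coefficients are those of the curve 126a1.
-/

namespace Pool.Agent.Lib.MP_b18d48_nt

open Complex hiding eta
open ModularForm Filter Topology Asymptotics Metric CongruenceSubgroup
open scoped Real ComplexConjugate MatrixGroups UpperHalfPlane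

noncomputable def gg (z : ℂ) : ℂ := (ff (z + (1 : ℤ) / 3) - ff (z + (-1 : ℤ) / 3)) / (√3 * I)

lemma shift_im (z : ℂ) (u : ℤ) : (z + u / 3).im = z.im := by simp

lemma ff_shift {a b c d u : ℤ} (hu : u ^ 2 = 1) (h : a * d - b * c = 1) (hc : 126 ∣ c) {z : ℂ}
    (hz : 0 < z.im) : ff (mob a b c d z + u / 3) = (c * z + d) ^ 2 * ff (z + u / 3) := by
  obtain ⟨c, rfl⟩ := hc
  obtain ⟨e, he⟩ : (3 : ℤ) ∣ d - a := by
    have h3 : ((a : ZMod 3)) * d = 1 := by
      have := congrArg (Int.cast : ℤ → ZMod 3) h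
      push_cast at this
      rw [show (126 : ZMod 3) = 0 from rfl] at this
      simpa using this
    refine (ZMod.intCast_eq_intCast_iff_dvd_sub a d 3).mp ?_
    revert h3
    generalize (a : ZMod 3) = x
    generalize (d : ZMod 3) = y
    revert x y
    decide
  obtain rfl : d = a + 3 * e := by linarith
  have g := G0_gamma (a := a + 42 * u * c) (b := b + u * e - 14 * c) (c := 126 * c)
    (d := a + 3 * e - 42 * u * c) (by linear_combination h - 1764 * c ^ 2 * hu) ⟨9 * c, by ring⟩
  have h1 := g.hf (z + u / 3) (by rwa [shift_im])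
  have hd := den_ne (show 0 < a * (a + 3 * e) - b * (126 * c) by rw [h]; norm_num) hz
  have hu' : (u : ℂ) ^ 2 = 1 := by exact_mod_cast hu
  have e1 : ((126 * c : ℤ) * (z + u / 3) + (a + 3 * e - 42 * u * c : ℤ) : ℂ) =
      (126 * c : ℤ) * z + (a + 3 * e : ℤ) := by push_cast; ring
  have e2 : mob (a + 42 * u * c) (b + u * e - 14 * c) (126 * c) (a + 3 * e - 42 * u * c)
      (z + u / 3) = mob a b (126 * c) (a + 3 * e) z + u / 3 := by
    rw [mob, e1, mob, div_add' _ _ _ hd]
    congr 1
    push_cast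
    linear_combination 14 * c * hu'
  have e3 : (a + 42 * u * c) * (a + 3 * e - 42 * u * c) - (b + u * e - 14 * c) * (126 * c) = 1 := by
    linear_combination h - 1764 * c ^ 2 * hu
  rw [e1, e2, e3] at h1
  simpa using h1

lemma tendsto_ff_shift {a b c d : ℤ} (u : ℤ) (h : a * d - b * c = 1) :
    Tendsto (fun z : ℂ => ff (mob a b c d z + u / 3) * (c * z + d) ^ (-2 : ℤ)) atI (𝓝 0) := by
  have h1 := (tendsto_ff_mob (p := 3 * a + u * c) (r := 3 * b + u * d) (q := 3 * c) (s := 3 * d)
    (by nlinarith)).const_mul 9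
  rw [mul_zero] at h1
  refine h1.congr' ?_
  filter_upwards [eventually_im_pos] with z hz
  have hd := den_ne (show 0 < a * d - b * c by rw [h]; norm_num) hz
  have e1 : ((3 * c : ℤ) * z + (3 * d : ℤ) : ℂ) = 3 * (c * z + d) := by push_cast; ring
  have e2 : mob (3 * a + u * c) (3 * b + u * d) (3 * c) (3 * d) z = mob a b c d z + u / 3 := by
    rw [mob, e1, mob]
    have : ((3 * a + u * c : ℤ) * z + (3 * b + u * d : ℤ) : ℂ) =
        3 * (a * z + b) + u * (c * z + d) := by push_cast; ring
    rw [this]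
    generalize (c * z + d : ℂ) = j at hd
    field_simp
  rw [e1, e2]
  simp only [zpow_neg, zpow_ofNat]
  generalize (c * z + d : ℂ) = j at hd
  field_simp
  ring

noncomputable def ggForm : CuspForm (Gamma0 126 : Subgroup (GL (Fin 2) ℝ)) 2 :=
  mkCusp 126 2 gg
    (fun z hz => by
      have h1 : ∀ u : ℤ, DifferentiableAt ℂ (fun z : ℂ => ff (z + u / 3)) z := fun u =>
        (ff_diffAt (by rwa [shift_im])).comp z (f := fun z : ℂ => z + u / 3) (by fun_prop)
      exact ((h1 1).sub (h1 (-1))).div_const _)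
    (fun a b c d h hc z hz => by
      have hd := den_ne (show 0 < a * d - b * c by rw [h]; norm_num) hz
      rw [gg, gg, ff_shift (by norm_num) h hc hz, ff_shift (by norm_num) h hc hz]
      simp only [zpow_neg, zpow_ofNat]
      generalize (c * z + d : ℂ) = j at hd
      field_simp)
    (fun a b c d h => by
      have := ((tendsto_ff_shift 1 h).sub (tendsto_ff_shift (-1) h)).div_const (√3 * I)
      rw [sub_zero, zero_div] at this
      exact this.congr fun z => by rw [gg]; ring)

lemma ggForm_apply (τ : ℍ) : ggForm τ = gg τ := rfl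

def chi (n : ℕ) : ℤ := if n % 3 = 0 then 0 else if n % 3 = 1 then 1 else -1

lemma qq_third (u : ℤ) (hu : u = 1 ∨ u = -1) : qq (u / 3) = -1 / 2 + u * (√3 / 2) * I := by
  have h1 : 2 * π * I * (u / 3) = ((u * (π - π / 3) : ℝ) : ℂ) * I := by push_cast; ring
  rw [qq, h1, exp_mul_I, ← ofReal_cos, ← ofReal_sin]
  rcases hu with rfl | rfl
  · simp only [Int.cast_one, one_mul, Real.cos_pi_sub, Real.sin_pi_sub, Real.cos_pi_div_three,
      Real.sin_pi_div_three]
    push_cast; ring
  · simp only [Int.cast_neg, Int.cast_one, neg_mul, one_mul, Real.cos_neg, Real.sin_neg,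
      Real.cos_pi_sub, Real.sin_pi_sub, Real.cos_pi_div_three, Real.sin_pi_div_three]
    push_cast; ring

lemma s3_ne : (√3 * I : ℂ) ≠ 0 := mul_ne_zero (by simp) I_ne_zero

lemma chi_eq (n : ℕ) :
    (qq ((1 : ℤ) / 3) ^ n - qq ((-1 : ℤ) / 3) ^ n) / (√3 * I) = chi n := by
  have h3 : ∀ u : ℤ, qq (u / 3) ^ 3 = 1 := fun u => by
    rw [← qq_mul, ← qq_int u]; congr 1; push_cast; ring
  rw [pow_eq_pow_mod n (h3 1), pow_eq_pow_mod n (h3 (-1)), div_eq_iff s3_ne,
    qq_third 1 (Or.inl rfl), qq_third (-1) (Or.inr rfl), chi]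
  have : n % 3 < 3 := Nat.mod_lt _ (by norm_num)
  interval_cases n % 3
  · simp
  · simp only [pow_one]; push_cast; ring
  · push_cast; ring

noncomputable def GG (q : ℂ) : ℂ := (qq ((1 : ℤ) / 3) * q * phi (qq ((1 : ℤ) / 3) * q) -
  qq ((-1 : ℤ) / 3) * q * phi (qq ((-1 : ℤ) / 3) * q)) / (√3 * I)

lemma gg_eq (z : ℂ) : gg z = GG (qq z) := by
  simp only [gg, GG, ff, qq_add, mul_comm (qq z)]

lemma cong_GG : Cong 49 GG fun q => ∑ n ∈ Finset.range 49, (an EZ n : ℂ) * q ^ n := by
  have h1 : Cong 49 (fun q => q * phi q) (evalL (0 :: phiL)) :=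
    IsBigO.congr_left cong_phi.mul_id fun q => by simp [evalL]
  have h2 := ((h1.comp_mul (qq ((1 : ℤ) / 3))).sub (h1.comp_mul (qq ((-1 : ℤ) / 3)))).mul_right
    (c := fun _ => (√3 * I : ℂ)⁻¹) continuousAt_const
  refine IsBigO.congr_left h2 fun q => ?_
  simp only [GG, div_eq_mul_inv _ (√3 * I : ℂ)]
  congr 1
  rw [evalL_eq_sum, evalL_eq_sum, ← Finset.sum_sub_distrib, Finset.sum_mul]
  refine Finset.sum_congr rfl fun n hn => ?_
  have hn' : n ≤ 48 := Nat.lt_succ_iff.mp (Finset.mem_range.mp hn)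
  have h3 : an EZ n = (0 :: phiL).getD n 0 * chi n := by
    rw [an_table n hn']
    revert n
    decide +kernel
  rw [h3, Int.cast_mul, ← chi_eq, div_eq_mul_inv _ (√3 * I : ℂ)]
  ring

lemma one_mem_periods : (1 : ℝ) ∈ (Gamma0 126 : Subgroup (GL (Fin 2) ℝ)).strictPeriods := by simp

lemma qParam_eq (z : ℂ) : Function.Periodic.qParam 1 z = qq z := by
  simp [Function.Periodic.qParam, qq]

lemma cong_cusp (g : CuspForm (Gamma0 126 : Subgroup (GL (Fin 2) ℝ)) 2) (K : ℕ) :
    Cong K (UpperHalfPlane.cuspFunction 1 g)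
      fun q => ∑ n ∈ Finset.range K, (UpperHalfPlane.qExpansion 1 g).coeff n * q ^ n := by
  have h := (ModularFormClass.analyticAt_cuspFunction_zero g one_pos
    one_mem_periods).hasFPowerSeriesAt.isBigO_sub_partialSum_pow K
  refine (h.congr_left fun q => ?_).trans (IsBigO.of_norm_right (by simp [isBigO_refl]))
  simp [FormalMultilinearSeries.partialSum, UpperHalfPlane.qExpansion_coeff, div_eq_mul_inv,
    mul_comm, mul_left_comm]

lemma cusp_gg : UpperHalfPlane.cuspFunction 1 ggForm =ᶠ[𝓝 0] GG := by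
  filter_upwards [ball_mem_nhds (0 : ℂ) one_pos] with q hq
  rcases eq_or_ne q 0 with rfl | h0
  · rw [CuspFormClass.cuspFunction_apply_zero ggForm one_pos one_mem_periods]; simp [GG]
  · have h1 := Function.Periodic.im_invQParam_pos_of_norm_lt_one one_pos (by simpa using hq) h0
    have h2 := SlashInvariantFormClass.eq_cuspFunction ggForm ⟨_, h1⟩ one_mem_periods one_ne_zero
    rw [ggForm_apply, gg_eq, ← qParam_eq] at h2
    simpa only [UpperHalfPlane.coe_mk, Function.Periodic.qParam_right_inv one_ne_zero h0] using h2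

lemma coeff_eq_zero (K : ℕ) : ∀ c : ℕ → ℂ,
    Cong K (fun q => ∑ n ∈ Finset.range K, c n * q ^ n) (fun _ => 0) → ∀ n < K, c n = 0 := by
  induction K with
  | zero => intro c _ n hn; omega
  | succ K ih =>
    intro c h
    have h1 : ∀ n < K, c n = 0 := ih c ((Cong.of_eq (r := fun _ => c K) continuousAt_const
      fun q => by rw [Finset.sum_range_succ]; ring).symm.trans (h.mono (Nat.le_succ K)))
    intro n hn
    rcases Nat.lt_succ_iff_lt_or_eq.mp hn with hn | rfl
    · exact h1 n hn
    · have h2 : (fun q : ℂ => c n * q ^ n) =O[𝓝 0] fun q : ℂ => q ^ (n + 1) :=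
        IsBigO.congr_left h fun q => by
          beta_reduce
          rw [Finset.sum_range_succ, Finset.sum_eq_zero fun m hm => by
            rw [h1 m (Finset.mem_range.mp hm), zero_mul]]
          ring
      have h3 := (h2.trans_isLittleO (isLittleO_pow_pow (Nat.lt_succ_self n))).tendsto_div_nhds_zero
      refine tendsto_nhds_unique (tendsto_const_nhds.congr' ?_)
        (h3.mono_left (nhdsWithin_le_nhds (s := {0}ᶜ)))
      filter_upwards [self_mem_nhdsWithin] with q hq
      rw [mul_div_cancel_right₀ _ (pow_ne_zero n hq)]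

theorem ggForm_coeff (n : ℕ) (hn : n ≤ 48) :
    (UpperHalfPlane.qExpansion 1 ggForm).coeff n = an EZ n := by
  have h := ((cong_cusp ggForm 49).symm.trans (Cong.of_eventuallyEq cusp_gg)).trans cong_GG
  have := coeff_eq_zero 49 (fun n => (UpperHalfPlane.qExpansion 1 ggForm).coeff n - an EZ n)
    (IsBigO.congr_left h fun q => by simp only [sub_mul, Finset.sum_sub_distrib, sub_zero]) n
    (by omega)
  exact sub_eq_zero.mp this

theorem eq_ggForm (g : CuspForm (Gamma0 126 : Subgroup (GL (Fin 2) ℝ)) 2)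
    (hg : ∀ n ≤ 48, (UpperHalfPlane.qExpansion 1 g).coeff n = an EZ n) : g = ggForm := by
  have h1 : Cong 49 (UpperHalfPlane.cuspFunction 1 g) GG := by
    refine (cong_cusp g 49).trans (Cong.trans (Cong.of_eventuallyEq (.of_forall fun q => ?_))
      cong_GG.symm)
    exact Finset.sum_congr rfl fun n hn => by
      rw [hg n (Nat.lt_succ_iff.mp (Finset.mem_range.mp hn))]
  have h2 := IsBigO.comp_tendsto h1 (tendsto_qq.comp UpperHalfPlane.tendsto_coe_atImInfty)
  have h3 := sturm126 (ModularFormClass.modularForm (g - ggForm)) (by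
    refine (h2.congr_left fun τ => ?_).trans (IsBigO.of_norm_left (IsBigO.of_bound 1 ?_))
    · have := SlashInvariantFormClass.eq_cuspFunction g τ one_mem_periods one_ne_zero
      rw [qParam_eq] at this
      simp only [Function.comp_apply, this, ← gg_eq]
      rfl
    · refine .of_forall fun τ => le_of_eq ?_
      simp only [Function.comp_apply, norm_pow, norm_qq, norm_norm, Real.norm_eq_abs, Real.abs_exp,
        one_mul, ← Real.exp_nat_mul, UpperHalfPlane.coe_im]
      congr 1; push_cast; ring)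
  rw [← sub_eq_zero]
  exact DFunLike.coe_injective h3

end Pool.Agent.Lib.MP_b18d48_nt
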