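import Pool.Agent.Lib.MP_b18d48_nt.Twist
import Pool.Agent.Lib.MP_b18d48_nt.Cusp
import Pool.Agent.Lib.MP_b18d48_nt.Arc
import Pool.Agent.Lib.MP_b18d48_nt.Integral

/-!
The modular symbols `λ(u, 14)` of the curve 126a1.
-/

namespace Pool.Agent.Lib.MP_b18d48_nt

open Complex hiding eta
open Filter Topology Set MeasureTheory
open scoped Real ComplexConjugate UpperHalfPlane

lemma ff_neg_conj {z : ℂ} (hz : 0 < z.im) : ff (-conj z) = conj (ff z) := by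
  rw [ff, ff, qq_neg_conj, phi_conj (norm_qq_lt hz), map_mul]

lemma ff_neg (x : ℝ) {t : ℝ} (ht : 0 < t) : ff ((-x : ℝ) + t * I) = conj (ff (x + t * I)) := by
  rw [← ff_neg_conj (by simpa using ht)]
  congr 1
  simp
  ring

noncomputable def JJ (x : ℝ) : ℂ := ∫ t in Ioi (0 : ℝ), ff (x + t * I)

def IntJ (x : ℝ) : Prop := IntegrableOn (fun t : ℝ => ff (x + t * I)) (Ioi 0)

lemma JJ_neg (x : ℝ) : JJ (-x) = conj (JJ x) := by
  rw [JJ, JJ, ← integral_conj]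
  exact setIntegral_congr_fun measurableSet_Ioi fun t ht => ff_neg x ht

lemma IntJ.neg {x : ℝ} (h : IntJ x) : IntJ (-x) :=
  IntegrableOn.congr_fun (f := fun t : ℝ => conj (ff (x + t * I)))
    (conjCLE.toContinuousLinearMap.integrable_comp h) (fun t ht => (ff_neg x ht).symm)
    measurableSet_Ioi

lemma gg_line (x : ℝ) {t : ℝ} (ht : 0 < t) :
    ggForm (UpperHalfPlane.ofComplex ((x : ℂ) + t * I)) =
      (ff ((x + 1 / 3 : ℝ) + t * I) - ff ((x - 1 / 3 : ℝ) + t * I)) / (√3 * I) := by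
  rw [ggForm_apply, UpperHalfPlane.ofComplex_apply_of_im_pos (by simpa using ht), gg]
  simp only []
  congr 3 <;> push_cast <;> ring

lemma vint_gg {x : ℝ} (h1 : IntJ (x + 1 / 3)) (h2 : IntJ (x - 1 / 3)) :
    IntegrableOn (fun t : ℝ => ggForm (UpperHalfPlane.ofComplex ((x : ℂ) + t * I))) (Ioi 0) ∧
      vint ggForm x = -(JJ (x + 1 / 3) - JJ (x - 1 / 3)) / √3 := by
  refine ⟨IntegrableOn.congr_fun ((h1.sub h2).div_const (√3 * I))
    (fun t ht => (gg_line x ht).symm) measurableSet_Ioi, ?_⟩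
  rw [vint, setIntegral_congr_fun measurableSet_Ioi fun t ht => gg_line x ht, integral_div,
    integral_sub h1 h2, JJ, JJ]
  have h3 : ((√3 : ℝ) : ℂ) ≠ 0 := by simp
  field_simp

lemma Omega_pos : 0 < Omega EQ := by
  have h1 := I7_gt
  rw [I7_eq] at h1
  have h2 : 0 < √3 * Omega EQ := lt_trans (by norm_num) h1
  exact (pos_iff_pos_of_mul_pos h2).mp (by simp)

def IntG (g : ℍ → ℂ) (x : ℝ) : Prop :=
  IntegrableOn (fun t : ℝ => g (UpperHalfPlane.ofComplex ((x : ℂ) + t * I))) (Ioi 0)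

lemma lam_gg {k : ℤ} (hk : beta = k * I7) {x : ℝ} {a b c d ε m a' b' c' d' ε' m' : ℤ}
    (h : Good a b c d ε m) (h' : Good a' b' c' d' ε' m') (hc : c ≠ 0) (hc' : c' ≠ 0)
    (hx : (x + 1 / 3) * c = a) (hx' : (x - 1 / 3) * c' = a') :
    (IntG ggForm x ∧ IntG ggForm (-x)) ∧ lam (Omega EQ) ggForm x = ((m - m') * k : ℤ) := by
  obtain ⟨i1, e1⟩ := h.cusp hc hx
  obtain ⟨i2, e2⟩ := h'.cusp hc' hx'
  have n1 : -x + 1 / 3 = -(x - 1 / 3) := by ring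
  have n2 : -x - 1 / 3 = -(x + 1 / 3) := by ring
  obtain ⟨j1, v1⟩ := vint_gg (x := x) i1 i2
  obtain ⟨j2, v2⟩ := vint_gg (x := -x) (n1 ▸ IntJ.neg i2) (n2 ▸ IntJ.neg i1)
  refine ⟨⟨j1, j2⟩, ?_⟩
  rw [lam, v1, v2, n1, n2, JJ_neg, JJ_neg]
  change (2 * π * JJ (x + 1 / 3)).im = _ at e1
  change (2 * π * JJ (x - 1 / 3)).im = _ at e2
  rw [hk, I7_eq] at e1 e2
  have s1 := sub_conj (JJ (x + 1 / 3))
  have s2 := sub_conj (JJ (x - 1 / 3))
  generalize JJ (x + 1 / 3) = A at *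
  generalize JJ (x - 1 / 3) = B at *
  have e1' : 2 * π * A.im = m * (k * (√3 * Omega EQ)) := by rw [← e1]; simp
  have e2' : 2 * π * B.im = m' * (k * (√3 * Omega EQ)) := by rw [← e2]; simp
  have e1c : (2 * π * A.im : ℂ) = m * (k * (√3 * Omega EQ)) := by exact_mod_cast e1'
  have e2c : (2 * π * B.im : ℂ) = m' * (k * (√3 * Omega EQ)) := by exact_mod_cast e2'
  have h3 : ((√3 : ℝ) : ℂ) ≠ 0 := by simp
  have h4 : ((Omega EQ : ℝ) : ℂ) ≠ 0 := by exact_mod_cast Omega_pos.ne'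
  push_cast at s1 s2 ⊢
  field_simp
  linear_combination -(π * I) * s1 + (π * I) * s2 + e1c - e2c -
    (2 * π * A.im - 2 * π * B.im) * I_sq

lemma lam_word {k : ℤ} (hk : beta = k * I7) (u : ℕ) (l l' : List ℤ) (n : ℤ)
    (h : (word l).2.2.1 ≠ 0 ∧ (word l').2.2.1 ≠ 0 ∧
      (3 * u + 14) * (word l).2.2.1 = 42 * (word l).1 ∧
      (3 * u - 14) * (word l').2.2.1 = 42 * (word l').1 ∧
      (word l).2.2.2.2.2 - (word l').2.2.2.2.2 = n) :
    (IntG ggForm (u / 14) ∧ IntG ggForm (-(u / 14))) ∧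
      lam (Omega EQ) ggForm (u / 14) = (n * k : ℤ) := by
  obtain ⟨h1, h2, h3, h4, h5⟩ := h
  have h3' := congrArg (Int.cast : ℤ → ℝ) h3
  have h4' := congrArg (Int.cast : ℤ → ℝ) h4
  push_cast at h3' h4'
  rw [← h5]
  exact lam_gg hk (good_word l) (good_word l') h1 h2 (by linear_combination h3' / 42)
    (by linear_combination h4' / 42)

/-- The values of `λ(u, 14)` up to the factor `k`. -/
def l0 (u : (ZMod 14)ˣ) : ℤ := if (u : ZMod 14) = 5 ∨ (u : ZMod 14) = 9 then -2 else 1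

theorem lam_values {k : ℤ} (hk : beta = k * I7) (u : (ZMod 14)ˣ) :
    (IntG ggForm ((u : ZMod 14).val / 14) ∧ IntG ggForm (-((u : ZMod 14).val / 14))) ∧
      lam (Omega EQ) ggForm ((u : ZMod 14).val / 14) = (l0 u * k : ℤ) := by
  have h : ∀ u : (ZMod 14)ˣ, ((u : ZMod 14).val = 1 ∧ l0 u = 1) ∨
      ((u : ZMod 14).val = 3 ∧ l0 u = 1) ∨ ((u : ZMod 14).val = 5 ∧ l0 u = -2) ∨
      ((u : ZMod 14).val = 9 ∧ l0 u = -2) ∨ ((u : ZMod 14).val = 11 ∧ l0 u = 1) ∨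
      ((u : ZMod 14).val = 13 ∧ l0 u = 1) := by decide
  rcases h u with ⟨h1, h2⟩ | ⟨h1, h2⟩ | ⟨h1, h2⟩ | ⟨h1, h2⟩ | ⟨h1, h2⟩ | ⟨h1, h2⟩ <;> rw [h1, h2]
  · exact lam_word hk 1 [2, 4, 1, 2, 1] [1, 3, 2] 1 (by decide)
  · exact lam_word hk 3 [2, 1, 3] [1, 2, 1, -4, 2] 1 (by decide)
  · exact lam_word hk 5 [4, -3, 4, -3] [1, -4, -8, 1] (-2) (by decide)
  · exact lam_word hk 9 [4, 1, 4, 8, 1] [3, -4, 3] (-2) (by decide)
  · exact lam_word hk 11 [4, 1, -4, 2, 4, 1, 2] [2, 4, 1, -3] 1 (by decide)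
  · exact lam_word hk 13 [4, 1, -3, -4, 2] [2, 1, -4, 2, 4, 1] 1 (by decide)

/-- `l0` on `G_14`. -/
def l1 : GM 14 → ℤ := Quotient.lift l0 fun a b hab => by
  obtain ⟨n, hn⟩ := Subgroup.mem_zpowers_iff.mp (QuotientGroup.leftRel_apply.mp hab)
  have h : ∀ a b : (ZMod 14)ˣ, (1 = a⁻¹ * b ∨ -1 = a⁻¹ * b) → l0 a = l0 b := by decide
  refine h a b ?_
  rcases Int.even_or_odd n with he | he
  · rw [he.neg_one_zpow] at hn; exact Or.inl hn
  · rw [he.neg_one_zpow] at hn; exact Or.inr hn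

lemma l1_mk (u : (ZMod 14)ˣ) : l1 (QuotientGroup.mk u) = l0 u := rfl

end Pool.Agent.Lib.MP_b18d48_nt
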